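import Pool.Agent.R196.PP.Pieces

/-! Assembly, part 1: levels, harmonic coordinates, local variances. -/

namespace Pool.Agent.R196.PP

open MeasureTheory ProbabilityTheory Filter Topology
open scoped ENNReal BigOperators

theorem nb_univ (v : Pt) (e : Fin 4) : nb Set.univ v e = v + stp e := by
  have h : gp Set.univ v e = 1 := by
    unfold gp
    have : {k : ℕ | 1 ≤ k ∧ v + (k : ℤ) • stp e ∈ (Set.univ : Set Pt)} = Set.Ici 1 := by
      ext k; simp
    rw [this]
    exact csInf_Ici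
  simp [nb, h]

theorem gEnv_zero : GEnv 1 1 0 Set.univ where
  oddM := odd_one
  oddN := odd_one
  cop := by simp
  perM := by simp
  perN := by simp
  neg := by simp
  hit := fun v e => ⟨1, le_refl _, by norm_num, Set.mem_univ _⟩
  lineM := by simp
  lineN := by simp

theorem lvl (h5a : P5a) (s : Scales) : ∀ k, GEnv (s.M k) (s.N k) (s.L k) (s.A k)
  | 0 => by
    have h1 : s.M 0 = 1 := by simp [Scales.M, s.aM0]
    have h2 : s.N 0 = 1 := by simp [Scales.N, s.bN0]
    rw [h1, h2, s.L0]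
    exact gEnv_zero
  | k + 1 => h5a _ _ _ _ _ _ _ (lvl h5a s k) (s.step k)

theorem A_succ (s : Scales) (k : ℕ) :
    s.A (k + 1) = s.A k \ hole (s.M (k + 1)) (s.N (k + 1)) (s.L (k + 1)) := rfl

theorem A_succ_subset (s : Scales) (k : ℕ) : s.A (k + 1) ⊆ s.A k := fun _ h => h.1

/-- linear function -/
def lin (a b : ℝ) (v : Pt) : ℝ := a * v.1 + b * v.2

theorem HC_zero (s : Scales) (a b : ℝ) : HC (s.M 0) (s.N 0) (s.A 0) a b (lin a b) where
  harm := by
    intro v _
    have hA : s.A 0 = Set.univ := rfl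
    rw [hA]
    simp only [grad, nb_univ, lin]
    simp [Fin.sum_univ_four, stp]
    ring
  trM := by intro v; simp only [lin]; push_cast; ring
  trN := by intro v; simp only [lin]; push_cast; ring
  odd := by intro v; simp only [lin, Prod.fst_neg, Prod.snd_neg]; push_cast; ring

theorem HC_lin {M N : ℕ} {A : Set Pt} {a b a' b' : ℝ} {φ ψ : Pt → ℝ} (h : HC M N A a b φ)
    (h' : HC M N A a' b' ψ) (α β : ℝ) :
    HC M N A (α * a + β * a') (α * b + β * b') (fun v => α * φ v + β * ψ v) where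
  harm := by
    intro v hv
    have e1 := h.harm v hv
    have e2 := h'.harm v hv
    have : ∀ e, grad (nb A) (fun v => α * φ v + β * ψ v) v e
        = α * grad (nb A) φ v e + β * grad (nb A) ψ v e := by
      intro e; simp only [grad]; ring
    simp_rw [this]
    rw [Finset.sum_add_distrib, ← Finset.mul_sum, ← Finset.mul_sum, e1, e2]; simp
  trM := by intro v; rw [h.trM, h'.trM]; ring
  trN := by intro v; rw [h.trN, h'.trN]; ring
  odd := by intro v; rw [h.odd, h'.odd]; ring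

/-- harmonic coordinates of a given slope at all levels, with the sup bound -/
theorem coords (h5a : P5a) (h6a : P6a) (h6b : P6b) (s : Scales) (a b : ℝ) :
    ∃ φ : ℕ → Pt → ℝ, ∀ k, HC (s.M k) (s.N k) (s.A k) a b (φ k) ∧
      ∀ v ∈ s.A k, |φ k v - lin a b v| ≤ 5 * s.L k * (|a| + |b|) := by
  choose ψ hψ using fun k => h6a _ _ _ _ (lvl h5a s k) a b
  let φ : ℕ → Pt → ℝ := fun k => if k = 0 then lin a b else ψ k
  have hφ : ∀ k, HC (s.M k) (s.N k) (s.A k) a b (φ k) := by
    intro k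
    by_cases hk : k = 0
    · subst hk; simpa [φ] using HC_zero s a b
    · simpa [φ, hk] using hψ k
  refine ⟨φ, fun k => ⟨hφ k, ?_⟩⟩
  induction k with
  | zero =>
    intro v _
    simp [φ, s.L0]
  | succ k ih =>
    intro v hv
    have hstep := h6b _ _ _ _ _ _ _ (lvl h5a s k) (s.step k) a b (φ k) (φ (k + 1)) (hφ k)
      (hφ (k + 1)) (5 * s.L k * (|a| + |b|)) (by simpa [lin] using ih) v hv
    have h1 := ih v (A_succ_subset s k hv)
    have hg : 25 * (s.L k : ℝ) + 4 ≤ s.L (k + 1) := by exact_mod_cast (s.step k).growL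
    have ht : 0 ≤ |a| + |b| := by positivity
    have htri : |φ (k + 1) v - lin a b v| ≤ |φ (k + 1) v - φ k v| + |φ k v - lin a b v| := by
      have := abs_add_le (φ (k + 1) v - φ k v) (φ k v - lin a b v)
      simpa using this
    nlinarith [mul_le_mul_of_nonneg_left hg ht]

/-- bundled level data -/
structure LData (s : Scales) where
  x1 : ℕ → Pt → ℝ
  x2 : ℕ → Pt → ℝ
  hc1 : ∀ k, HC (s.M k) (s.N k) (s.A k) 1 0 (x1 k)
  hc2 : ∀ k, HC (s.M k) (s.N k) (s.A k) 0 1 (x2 k)
  b1 : ∀ k, ∀ v ∈ s.A k, |x1 k v - v.1| ≤ 5 * s.L k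
  b2 : ∀ k, ∀ v ∈ s.A k, |x2 k v - v.2| ≤ 5 * s.L k

theorem exists_LData (h5a : P5a) (h6a : P6a) (h6b : P6b) (s : Scales) : Nonempty (LData s) := by
  obtain ⟨x1, h1⟩ := coords h5a h6a h6b s 1 0
  obtain ⟨x2, h2⟩ := coords h5a h6a h6b s 0 1
  refine ⟨⟨x1, x2, fun k => (h1 k).1, fun k => (h2 k).1, ?_, ?_⟩⟩
  · intro k v hv
    simpa [lin] using (h1 k).2 v hv
  · intro k v hv
    simpa [lin] using (h2 k).2 v hv

namespace LData
variable {s : Scales} (d : LData s)

def Phi (k : ℕ) (a b : ℝ) (v : Pt) : ℝ := a * d.x1 k v + b * d.x2 k v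

theorem hcPhi (k : ℕ) (a b : ℝ) : HC (s.M k) (s.N k) (s.A k) a b (d.Phi k a b) := by
  have := HC_lin (d.hc1 k) (d.hc2 k) a b
  simp only [mul_one, mul_zero, add_zero, zero_add] at this
  exact this

theorem bPhi (k : ℕ) (a b : ℝ) (v : Pt) (hv : v ∈ s.A k) :
    |d.Phi k a b v - lin a b v| ≤ 5 * s.L k * (|a| + |b|) := by
  have h1 := d.b1 k v hv
  have h2 := d.b2 k v hv
  have e : d.Phi k a b v - lin a b v = a * (d.x1 k v - v.1) + b * (d.x2 k v - v.2) := by
    simp only [Phi, lin]; ring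
  rw [e]
  calc |a * (d.x1 k v - v.1) + b * (d.x2 k v - v.2)|
      ≤ |a * (d.x1 k v - v.1)| + |b * (d.x2 k v - v.2)| := abs_add_le _ _
    _ = |a| * |d.x1 k v - v.1| + |b| * |d.x2 k v - v.2| := by rw [abs_mul, abs_mul]
    _ ≤ |a| * (5 * s.L k) + |b| * (5 * s.L k) := by gcongr
    _ = _ := by ring

/-- local variance -/
noncomputable def V (k : ℕ) (a b : ℝ) : Pt → ℝ := Vf (grad (nb (s.A k)) (d.Phi k a b))

theorem V_nonneg (k : ℕ) (a b : ℝ) (v : Pt) : 0 ≤ d.V k a b v := by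
  unfold V Vf; positivity

theorem V_bilin (k : ℕ) (a b : ℝ) (v : Pt) :
    d.V k a b v = (a ^ 2 - a * b) * d.V k 1 0 v + (b ^ 2 - a * b) * d.V k 0 1 v
      + a * b * d.V k 1 1 v := by
  simp only [V, Vf, grad, Phi, Fin.sum_univ_four]
  ring

theorem grad_bound (h3a : P3a) (h5a : P5a) (k : ℕ) (a b : ℝ) (v : Pt) (hv : v ∈ s.A k)
    (e : Fin 4) :
    |grad (nb (s.A k)) (d.Phi k a b) v e| ≤ (|a| + |b|) * (12 * s.L k + 1) := by
  obtain ⟨hmem, hstep, -, -, -⟩ := h3a _ _ _ _ (lvl h5a s k)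
  obtain ⟨m, hm1, hm2, hnb, -⟩ := hstep v e
  have h1 := d.bPhi k a b v hv
  have h2 := d.bPhi k a b _ (hmem v e)
  have h3 : |lin a b (nb (s.A k) v e) - lin a b v| ≤ (|a| + |b|) * (2 * s.L k + 1) := by
    rw [hnb]
    have hs1 : |(((m : ℤ) • stp e).1 : ℝ)| = m := by
      fin_cases e <;> simp [stp]
    have hs2 : |(((m : ℤ) • stp e).2 : ℝ)| = m := by
      fin_cases e <;> simp [stp]
    have e1 : lin a b (v + (m : ℤ) • stp e) - lin a b v
        = a * (((m : ℤ) • stp e).1 : ℝ) + b * (((m : ℤ) • stp e).2 : ℝ) := by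
      simp only [lin, Prod.fst_add, Prod.snd_add]; push_cast; ring
    rw [e1]
    have hm : (m : ℝ) ≤ 2 * s.L k + 1 := by exact_mod_cast hm2
    calc _ ≤ |a * (((m : ℤ) • stp e).1 : ℝ)| + |b * (((m : ℤ) • stp e).2 : ℝ)| := abs_add_le _ _
      _ = |a| * m + |b| * m := by rw [abs_mul, abs_mul, hs1, hs2]
      _ = (|a| + |b|) * m := by ring
      _ ≤ _ := by gcongr
  have e2 : grad (nb (s.A k)) (d.Phi k a b) v e = (d.Phi k a b (nb (s.A k) v e)
      - lin a b (nb (s.A k) v e)) + (lin a b (nb (s.A k) v e) - lin a b v)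
      - (d.Phi k a b v - lin a b v) := by simp only [grad]; ring
  rw [e2]
  have h4 := abs_sub (d.Phi k a b (nb (s.A k) v e)
      - lin a b (nb (s.A k) v e) + (lin a b (nb (s.A k) v e) - lin a b v)) (d.Phi k a b v - lin a b v)
  have h5 := abs_add_le (d.Phi k a b (nb (s.A k) v e)
      - lin a b (nb (s.A k) v e)) (lin a b (nb (s.A k) v e) - lin a b v)
  nlinarith

theorem V_le (h3a : P3a) (h5a : P5a) (k : ℕ) (a b : ℝ) (v : Pt) (hv : v ∈ s.A k) :
    d.V k a b v ≤ ((|a| + |b|) * (12 * s.L k + 1)) ^ 2 := by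
  have hg := fun e => d.grad_bound h3a h5a k a b v hv e
  have hs : ∀ e, (grad (nb (s.A k)) (d.Phi k a b) v e) ^ 2 ≤ ((|a| + |b|) * (12 * s.L k + 1)) ^ 2 := by
    intro e
    exact sq_le_sq' (by linarith [neg_abs_le (grad (nb (s.A k)) (d.Phi k a b) v e), hg e])
      (le_trans (le_abs_self _) (hg e))
  unfold V Vf
  have := Finset.sum_le_sum (fun e (_ : e ∈ Finset.univ) => hs e)
  simp only [Finset.sum_const, Finset.card_univ, Fintype.card_fin, nsmul_eq_mul] at this
  push_cast at this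
  linarith

theorem V_per (h3a : P3a) (h5a : P5a) (k : ℕ) (a b : ℝ) : Per (s.M k) (s.N k) (d.V k a b) := by
  obtain ⟨-, -, htr, -, -⟩ := h3a _ _ _ _ (lvl h5a s k)
  have hc := d.hcPhi k a b
  constructor
  · intro v
    unfold V Vf
    congr 1
    refine Finset.sum_congr rfl fun e _ => ?_
    have h1 := htr v e 1 0
    simp only [one_mul, zero_mul, add_zero] at h1
    simp only [grad]
    rw [h1, hc.trM, hc.trM]
    ring
  · intro v
    unfold V Vf
    congr 1
    refine Finset.sum_congr rfl fun e _ => ?_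
    have h1 := htr v e 0 1
    simp only [one_mul, zero_mul, add_zero] at h1
    simp only [grad]
    rw [h1, hc.trN, hc.trN]
    ring

end LData

end Pool.Agent.R196.PP
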