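import Pool.Agent.R196.PP.Asm1

/-! Assembly, part 2: Poisson data, the control function `D`, exceptional sets. -/

namespace Pool.Agent.R196.PP

open MeasureTheory ProbabilityTheory Filter Topology
open scoped ENNReal BigOperators

theorem mem_trans_gen {M N Lm : ℕ} {A : Set Pt} (h : GEnv M N Lm A) (i j : ℤ) (v : Pt) :
    ((v.1 + i * M, v.2 + j * N) : Pt) ∈ A ↔ v ∈ A := by
  have h1 : ∀ (i : ℤ) (v : Pt), ((v.1 + i * M, v.2) : Pt) ∈ A ↔ v ∈ A := by
    intro i
    induction i using Int.induction_on with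
    | zero => intro v; simp
    | succ i ih =>
      intro v
      rw [← ih v, ← h.perM (v.1 + i * M, v.2)]
      have : (v.1 + i * M + (M : ℤ), v.2) = (v.1 + (i + 1) * M, v.2) := by
        congr 1; ring
      simp only [this]
    | pred i ih =>
      intro v
      rw [← ih v, ← h.perM (v.1 + (-(i : ℤ) - 1) * M, v.2)]
      have : (v.1 + (-(i : ℤ) - 1) * M + (M : ℤ), v.2) = (v.1 + -(i : ℤ) * M, v.2) := by
        congr 1; ring
      simp only [this]
  have h2 : ∀ (j : ℤ) (v : Pt), ((v.1, v.2 + j * N) : Pt) ∈ A ↔ v ∈ A := by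
    intro j
    induction j using Int.induction_on with
    | zero => intro v; simp
    | succ j ih =>
      intro v
      rw [← ih v, ← h.perN (v.1, v.2 + j * N)]
      have : (v.1, v.2 + j * N + (N : ℤ)) = (v.1, v.2 + (j + 1) * N) := by
        congr 1; ring
      simp only [this]
    | pred j ih =>
      intro v
      rw [← ih v, ← h.perN (v.1, v.2 + (-(j : ℤ) - 1) * N)]
      have : (v.1, v.2 + (-(j : ℤ) - 1) * N + (N : ℤ)) = (v.1, v.2 + -(j : ℤ) * N) := by
        congr 1; ring
      simp only [this]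
  rw [h1 i (v.1, v.2 + j * N), h2 j v]

theorem per_gen {α : Type*} {M N : ℕ} {f : Pt → α} (h : Per M N f) (i j : ℤ) (v : Pt) :
    f (v.1 + i * M, v.2 + j * N) = f v := by
  have h1 : ∀ (i : ℤ) (v : Pt), f (v.1 + i * M, v.2) = f v := by
    intro i
    induction i using Int.induction_on with
    | zero => intro v; simp
    | succ i ih =>
      intro v
      rw [← ih v, ← h.1 (v.1 + i * M, v.2)]
      have : (v.1 + i * M + (M : ℤ), v.2) = (v.1 + (i + 1) * M, v.2) := by
        congr 1; ring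
      simp only [this]
    | pred i ih =>
      intro v
      rw [← ih v, ← h.1 (v.1 + (-(i : ℤ) - 1) * M, v.2)]
      have : (v.1 + (-(i : ℤ) - 1) * M + (M : ℤ), v.2) = (v.1 + -(i : ℤ) * M, v.2) := by
        congr 1; ring
      simp only [this]
  have h2 : ∀ (j : ℤ) (v : Pt), f (v.1, v.2 + j * N) = f v := by
    intro j
    induction j using Int.induction_on with
    | zero => intro v; simp
    | succ j ih =>
      intro v
      rw [← ih v, ← h.2 (v.1, v.2 + j * N)]
      have : (v.1, v.2 + j * N + (N : ℤ)) = (v.1, v.2 + (j + 1) * N) := by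
        congr 1; ring
      simp only [this]
    | pred j ih =>
      intro v
      rw [← ih v, ← h.2 (v.1, v.2 + (-(j : ℤ) - 1) * N)]
      have : (v.1, v.2 + (-(j : ℤ) - 1) * N + (N : ℤ)) = (v.1, v.2 + -(j : ℤ) * N) := by
        congr 1; ring
      simp only [this]
  rw [h1 i (v.1, v.2 + j * N), h2 j v]

theorem csum_add (M N : ℕ) (A : Set Pt) (f g : Pt → ℝ) :
    csum M N A (fun v => f v + g v) = csum M N A f + csum M N A g := by
  simp only [csum, Finset.sum_add_distrib]

theorem csum_smul (M N : ℕ) (A : Set Pt) (c : ℝ) (f : Pt → ℝ) :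
    csum M N A (fun v => c * f v) = c * csum M N A f := by
  simp only [csum, Finset.mul_sum]

open Classical in
theorem csum_mono {M N : ℕ} {A : Set Pt} {f g : Pt → ℝ} (h : ∀ v ∈ A, f v ≤ g v) :
    csum M N A f ≤ csum M N A g := by
  unfold csum
  refine Finset.sum_le_sum fun v hv => h v ?_
  rw [Finset.mem_filter] at hv
  exact hv.2

open Classical in
theorem csum_congr {M N : ℕ} {A : Set Pt} {f g : Pt → ℝ} (h : ∀ v ∈ A, f v = g v) :
    csum M N A f = csum M N A g := by
  unfold csum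
  refine Finset.sum_congr rfl fun v hv => h v ?_
  rw [Finset.mem_filter] at hv
  exact hv.2

/-- number of points in the cell -/
noncomputable def cnt (M N : ℕ) (A : Set Pt) : ℝ := csum M N A (fun _ => 1)

open Classical in
theorem cnt_pos {M N Lm : ℕ} {A : Set Pt} (h : GEnv M N Lm A) : 0 < cnt M N A := by
  obtain ⟨k, -, -, hk⟩ := h.hit 0 0
  set w : Pt := 0 + (k : ℤ) • stp 0 with hw
  have hM : 0 < M := h.oddM.pos
  have hN : 0 < N := h.oddN.pos
  have hM' : (0 : ℤ) < M := by exact_mod_cast hM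
  have hN' : (0 : ℤ) < N := by exact_mod_cast hN
  have hmem : ((w.1 % M, w.2 % N) : Pt) ∈ A := by
    have := (mem_trans_gen h (-(w.1 / M)) (-(w.2 / N)) w).mpr hk
    have e1 : w.1 + -(w.1 / M) * M = w.1 % M := by
      have := Int.emod_add_mul_ediv w.1 M; linarith
    have e2 : w.2 + -(w.2 / N) * N = w.2 % N := by
      have := Int.emod_add_mul_ediv w.2 N; linarith
    rw [e1, e2] at this
    exact this
  unfold cnt csum
  rw [Finset.sum_const, nsmul_eq_mul, mul_one]
  have : 0 < (Finset.filter (fun x => x ∈ A) (cell M N)).card := by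
    rw [Finset.card_pos]
    refine ⟨(w.1 % M, w.2 % N), ?_⟩
    rw [Finset.mem_filter]
    refine ⟨?_, hmem⟩
    simp only [cell, Finset.mem_product, Finset.mem_Ico]
    exact ⟨⟨Int.emod_nonneg _ hM'.ne', Int.emod_lt_of_pos _ hM'⟩,
      ⟨Int.emod_nonneg _ hN'.ne', Int.emod_lt_of_pos _ hN'⟩⟩
  exact_mod_cast this

/-- The mean of a periodic function over `A`. -/
noncomputable def mean (M N : ℕ) (A : Set Pt) (f : Pt → ℝ) : ℝ := csum M N A f / cnt M N A

theorem csum_sub_mean {M N Lm : ℕ} {A : Set Pt} (h : GEnv M N Lm A) (f : Pt → ℝ) :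
    csum M N A (fun v => f v - mean M N A f) = 0 := by
  have hp := cnt_pos h
  have : csum M N A (fun v => f v - mean M N A f)
      = csum M N A f + (-mean M N A f) * cnt M N A := by
    unfold cnt
    rw [← csum_smul, ← csum_add]
    refine csum_congr fun v _ => by ring
  rw [this, mean]
  field_simp
  ring

theorem mean_nonneg {M N Lm : ℕ} {A : Set Pt} (h : GEnv M N Lm A) {f : Pt → ℝ}
    (hf : ∀ v ∈ A, 0 ≤ f v) : 0 ≤ mean M N A f := by
  refine div_nonneg ?_ (cnt_pos h).le
  have : csum M N A (fun _ => 0) ≤ csum M N A f := csum_mono hf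
  simpa [csum] using this

theorem mean_le {M N Lm : ℕ} {A : Set Pt} (h : GEnv M N Lm A) {f : Pt → ℝ} {C : ℝ}
    (hf : ∀ v ∈ A, f v ≤ C) : mean M N A f ≤ C := by
  rw [mean, div_le_iff₀ (cnt_pos h)]
  have : csum M N A f ≤ csum M N A (fun _ => C * 1) := csum_mono (by simpa using hf)
  rwa [csum_smul] at this

namespace LData
variable {s : Scales} (d : LData s)

/-- variance at level `k` in direction `(a,b)` -/
noncomputable def sig (k : ℕ) (a b : ℝ) : ℝ := mean (s.M k) (s.N k) (s.A k) (d.V k a b)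

theorem sig_nonneg (h5a : P5a) (k : ℕ) (a b : ℝ) : 0 ≤ d.sig k a b :=
  mean_nonneg (lvl h5a s k) fun v _ => d.V_nonneg k a b v

theorem sig_bilin (k : ℕ) (a b : ℝ) :
    d.sig k a b = (a ^ 2 - a * b) * d.sig k 1 0 + (b ^ 2 - a * b) * d.sig k 0 1
      + a * b * d.sig k 1 1 := by
  simp only [sig, mean]
  have : csum (s.M k) (s.N k) (s.A k) (d.V k a b) = (a ^ 2 - a * b) * csum (s.M k) (s.N k) (s.A k) (d.V k 1 0)
      + (b ^ 2 - a * b) * csum (s.M k) (s.N k) (s.A k) (d.V k 0 1)
      + a * b * csum (s.M k) (s.N k) (s.A k) (d.V k 1 1) := by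
    rw [← csum_smul, ← csum_smul, ← csum_smul, ← csum_add, ← csum_add]
    exact csum_congr fun v _ => d.V_bilin k a b v
  rw [this]; ring

/-- constant -/
noncomputable def Hc (s : Scales) (k : ℕ) : ℝ :=
  8 * (2 * (12 * s.L k + 1)) ^ 2 * ((s.M k : ℝ) * s.N k) ^ 2

theorem exists_h (h3a : P3a) (h5a : P5a) (h4a : P4a) (k : ℕ) (a b : ℝ) (hab : |a| + |b| ≤ 2) :
    ∃ h : Pt → ℝ, Per (s.M k) (s.N k) h ∧
      (∀ v ∈ s.A k, h v - PR (nb (s.A k)) h v = d.V k a b v - d.sig k a b) ∧
      ∀ v ∈ s.A k, |h v| ≤ Hc s k := by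
  have hG := lvl h5a s k
  have hle : ∀ v ∈ s.A k, d.V k a b v ≤ (2 * (12 * s.L k + 1)) ^ 2 := by
    intro v hv
    refine (d.V_le h3a h5a k a b v hv).trans ?_
    have h0 : (0 : ℝ) ≤ 12 * s.L k + 1 := by positivity
    gcongr
  refine h4a _ _ _ _ hG (fun v => d.V k a b v - d.sig k a b) ((2 * (12 * s.L k + 1)) ^ 2) ?_
    (csum_sub_mean hG _) ?_
  · have hp := d.V_per h3a h5a k a b
    exact ⟨fun v => by simp only [hp.1], fun v => by simp only [hp.2]⟩
  · intro v hv
    have h1 := d.V_nonneg k a b v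
    have h2 := hle v hv
    have h3 := d.sig_nonneg h5a k a b
    have h4 : d.sig k a b ≤ (2 * (12 * s.L k + 1)) ^ 2 := mean_le hG hle
    rw [abs_le]; constructor <;> linarith

/-- the direction triple -/
def dA : Fin 3 → ℝ := ![1, 0, 1]
def dB : Fin 3 → ℝ := ![0, 1, 1]

/-- coefficients of `V k a b` in the three base directions -/
def co (a b : ℝ) : Fin 3 → ℝ := ![a ^ 2 - a * b, b ^ 2 - a * b, a * b]

theorem V_co (k : ℕ) (a b : ℝ) (v : Pt) :
    d.V k a b v = ∑ i, co a b i * d.V k (dA i) (dB i) v := by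
  rw [d.V_bilin]; simp [Fin.sum_univ_three, co, dA, dB]

theorem sig_co (k : ℕ) (a b : ℝ) :
    d.sig k a b = ∑ i, co a b i * d.sig k (dA i) (dB i) := by
  rw [d.sig_bilin]; simp [Fin.sum_univ_three, co, dA, dB]

theorem co_le (a b : ℝ) (i : Fin 3) : |co a b i| ≤ (|a| + |b|) ^ 2 := by
  have ha := abs_nonneg a
  have hb := abs_nonneg b
  have e1 : |a * b| = |a| * |b| := abs_mul a b
  have e2 : |a ^ 2| = |a| ^ 2 := abs_pow a 2
  have e3 : |b ^ 2| = |b| ^ 2 := abs_pow b 2
  fin_cases i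
  · simp only [co, Fin.zero_eta, Matrix.cons_val_zero]
    have := abs_sub (a ^ 2) (a * b)
    nlinarith
  · simp only [co, Fin.mk_one, Matrix.cons_val_one]
    have := abs_sub (b ^ 2) (a * b)
    simp
    nlinarith
  · simp only [co, Fin.reduceFinMk, Matrix.cons_val]
    nlinarith

theorem dAB_le (i : Fin 3) : |dA i| + |dB i| ≤ 2 := by
  fin_cases i <;> norm_num [dA, dB]

end LData

end Pool.Agent.R196.PP
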