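import Pool.Agent.R196.PP.Asm2

/-! Assembly, part 3: the control function `D`, its mean, the exceptional sets. -/

namespace Pool.Agent.R196.PP

open MeasureTheory ProbabilityTheory Filter Topology
open scoped ENNReal BigOperators

/-- Poisson data for the three base directions -/
structure HData (s : Scales) (d : LData s) where
  h : ℕ → Fin 3 → Pt → ℝ
  per : ∀ k i, Per (s.M k) (s.N k) (h k i)
  eq : ∀ k i, ∀ v ∈ s.A k, h k i v - PR (nb (s.A k)) (h k i) v
    = d.V k (LData.dA i) (LData.dB i) v - d.sig k (LData.dA i) (LData.dB i)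
  bd : ∀ k i, ∀ v ∈ s.A k, |h k i v| ≤ LData.Hc s k

theorem exists_HData (h3a : P3a) (h5a : P5a) (h4a : P4a) (s : Scales) (d : LData s) :
    Nonempty (HData s d) := by
  choose h h1 h2 h3 using fun (k : ℕ) (i : Fin 3) =>
    d.exists_h h3a h5a h4a k (LData.dA i) (LData.dB i) (LData.dAB_le i)
  exact ⟨⟨h, h1, h2, h3⟩⟩

theorem Hc_nonneg (s : Scales) (k : ℕ) : 0 ≤ LData.Hc s k := by unfold LData.Hc; positivity

/-- the level-`k+1` frame -/
def Fr (s : Scales) (k : ℕ) : Set Pt := frame (s.M k) (s.N k) (s.L k)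

namespace HData
variable {s : Scales} {d : LData s} (hd : HData s d)

/-- the control function at level `k+1` -/
noncomputable def D (_hd : HData s d) (k : ℕ) (v : Pt) : ℝ :=
  (∑ i, |d.V (k + 1) (LData.dA i) (LData.dB i) v - d.V k (LData.dA i) (LData.dB i) v|)
    + 6 * LData.Hc s k * Set.indicator (Fr s (k + 1)) (fun _ => (1 : ℝ)) v

theorem D_nonneg (k : ℕ) (v : Pt) : 0 ≤ hd.D k v := by
  unfold D
  have := Hc_nonneg s k
  have h2 : 0 ≤ Set.indicator (Fr s (k + 1)) (fun _ => (1 : ℝ)) v :=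
    Set.indicator_nonneg (fun _ _ => zero_le_one) v
  positivity

/-- Poisson solution in direction `(a,b)` -/
noncomputable def hh (k : ℕ) (a b : ℝ) (v : Pt) : ℝ := ∑ i, LData.co a b i * hd.h k i v

theorem hh_bd (k : ℕ) (a b : ℝ) (v : Pt) (hv : v ∈ s.A k) :
    |hd.hh k a b v| ≤ 3 * (|a| + |b|) ^ 2 * LData.Hc s k := by
  unfold hh
  refine (Finset.abs_sum_le_sum_abs _ _).trans ?_
  have : ∀ i ∈ (Finset.univ : Finset (Fin 3)), |LData.co a b i * hd.h k i v| ≤
      (|a| + |b|) ^ 2 * LData.Hc s k := by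
    intro i _
    rw [abs_mul]
    exact mul_le_mul (LData.co_le a b i) (hd.bd k i v hv) (abs_nonneg _) (by positivity)
  refine (Finset.sum_le_sum this).trans ?_
  simp only [Finset.sum_const, Finset.card_univ, Fintype.card_fin, nsmul_eq_mul]
  push_cast
  linarith

theorem PR_sum (nx : Pt → Fin 4 → Pt) (c : Fin 3 → ℝ) (g : Fin 3 → Pt → ℝ) (v : Pt) :
    PR nx (fun w => ∑ i, c i * g i w) v = ∑ i, c i * PR nx (g i) v := by
  simp only [PR, Fin.sum_univ_three, Fin.sum_univ_four]
  ring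

theorem own_eq (k : ℕ) (a b : ℝ) (v : Pt) (hv : v ∈ s.A k) :
    d.V k a b v - d.sig k a b - (hd.hh k a b v - PR (nb (s.A k)) (hd.hh k a b) v) = 0 := by
  have h1 : PR (nb (s.A k)) (hd.hh k a b) v = ∑ i, LData.co a b i * PR (nb (s.A k)) (hd.h k i) v :=
    PR_sum _ _ _ _
  rw [h1, d.V_co, d.sig_co]
  unfold hh
  rw [← Finset.sum_sub_distrib, ← Finset.sum_sub_distrib, ← Finset.sum_sub_distrib]
  refine Finset.sum_eq_zero fun i _ => ?_
  have := hd.eq k i v hv
  linear_combination (-LData.co a b i) * this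

theorem step_eq (h3a : P3a) (h5a : P5a) (h5b : P5b) (k : ℕ) (a b : ℝ) (v : Pt)
    (hv : v ∈ s.A (k + 1)) :
    |d.V (k + 1) a b v - d.sig k a b
      - (hd.hh k a b v - PR (nb (s.A (k + 1))) (hd.hh k a b) v)| ≤ (|a| + |b|) ^ 2 * hd.D k v := by
  have hvk : v ∈ s.A k := A_succ_subset s k hv
  have hown := hd.own_eq k a b v hvk
  have key : d.V (k + 1) a b v - d.sig k a b
      - (hd.hh k a b v - PR (nb (s.A (k + 1))) (hd.hh k a b) v)
      = ∑ i, LData.co a b i * ((d.V (k + 1) (LData.dA i) (LData.dB i) v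
        - d.V k (LData.dA i) (LData.dB i) v) + (PR (nb (s.A (k + 1))) (hd.h k i) v
        - PR (nb (s.A k)) (hd.h k i) v)) := by
    have h1 : PR (nb (s.A k)) (hd.hh k a b) v
        = ∑ i, LData.co a b i * PR (nb (s.A k)) (hd.h k i) v := PR_sum _ _ _ _
    have h2 : PR (nb (s.A (k + 1))) (hd.hh k a b) v
        = ∑ i, LData.co a b i * PR (nb (s.A (k + 1))) (hd.h k i) v := PR_sum _ _ _ _
    have h3 := d.V_co k a b v
    have h4 := d.V_co (k + 1) a b v
    have h5 : d.V (k + 1) a b v - d.sig k a b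
      - (hd.hh k a b v - PR (nb (s.A (k + 1))) (hd.hh k a b) v)
      = (d.V (k + 1) a b v - d.V k a b v) + (PR (nb (s.A (k + 1))) (hd.hh k a b) v
        - PR (nb (s.A k)) (hd.hh k a b) v) := by linarith
    rw [h5, h1, h2, h3, h4]
    simp only [Fin.sum_univ_three]
    ring
  rw [key]
  refine (Finset.abs_sum_le_sum_abs _ _).trans ?_
  have hHc := Hc_nonneg s k
  -- bound of the PR difference
  have hPR : ∀ i, |PR (nb (s.A (k + 1))) (hd.h k i) v - PR (nb (s.A k)) (hd.h k i) v|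
      ≤ 2 * LData.Hc s k * Set.indicator (Fr s (k + 1)) (fun _ => (1 : ℝ)) v := by
    intro i
    by_cases hf : v ∈ Fr s (k + 1)
    · rw [Set.indicator_of_mem hf]
      obtain ⟨hm1, -⟩ := h3a _ _ _ _ (lvl h5a s k)
      obtain ⟨hm2, -⟩ := h3a _ _ _ _ (lvl h5a s (k + 1))
      have b1 : |PR (nb (s.A (k + 1))) (hd.h k i) v| ≤ LData.Hc s k := by
        unfold PR
        rw [abs_mul]
        have : |∑ e, hd.h k i (nb (s.A (k + 1)) v e)| ≤ 4 * LData.Hc s k := by
          refine (Finset.abs_sum_le_sum_abs _ _).trans ?_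
          refine (Finset.sum_le_sum (fun e _ => hd.bd k i _ (A_succ_subset s k (hm2 v e)))).trans ?_
          simp
        rw [abs_of_nonneg (by norm_num : (0 : ℝ) ≤ 1 / 4)]
        linarith
      have b2 : |PR (nb (s.A k)) (hd.h k i) v| ≤ LData.Hc s k := by
        unfold PR
        rw [abs_mul]
        have : |∑ e, hd.h k i (nb (s.A k) v e)| ≤ 4 * LData.Hc s k := by
          refine (Finset.abs_sum_le_sum_abs _ _).trans ?_
          refine (Finset.sum_le_sum (fun e _ => hd.bd k i _ (hm1 v e))).trans ?_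
          simp
        rw [abs_of_nonneg (by norm_num : (0 : ℝ) ≤ 1 / 4)]
        linarith
      have := abs_sub (PR (nb (s.A (k + 1))) (hd.h k i) v) (PR (nb (s.A k)) (hd.h k i) v)
      linarith
    · rw [Set.indicator_of_notMem hf]
      obtain ⟨hnb, -⟩ := h5b _ _ _ _ _ _ _ (lvl h5a s k) (s.step k)
      have : ∀ e, nb (s.A (k + 1)) v e = nb (s.A k) v e := fun e => hnb v hv hf e
      simp only [PR, this]
      simp
  have hterm : ∀ i ∈ (Finset.univ : Finset (Fin 3)),
      |LData.co a b i * ((d.V (k + 1) (LData.dA i) (LData.dB i) v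
        - d.V k (LData.dA i) (LData.dB i) v) + (PR (nb (s.A (k + 1))) (hd.h k i) v
        - PR (nb (s.A k)) (hd.h k i) v))| ≤ (|a| + |b|) ^ 2 *
        (|d.V (k + 1) (LData.dA i) (LData.dB i) v - d.V k (LData.dA i) (LData.dB i) v|
          + 2 * LData.Hc s k * Set.indicator (Fr s (k + 1)) (fun _ => (1 : ℝ)) v) := by
    intro i _
    rw [abs_mul]
    refine mul_le_mul (LData.co_le a b i) ?_ (abs_nonneg _) (by positivity)
    exact (abs_add_le _ _).trans (add_le_add le_rfl (hPR i))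
  refine (Finset.sum_le_sum hterm).trans ?_
  unfold D
  rw [← Finset.mul_sum, Finset.sum_add_distrib]
  simp only [Finset.sum_const, Finset.card_univ, Fintype.card_fin, nsmul_eq_mul]
  push_cast
  refine le_of_eq ?_
  ring

theorem nb_shift {M N Lm : ℕ} {A : Set Pt} (h3a : P3a) (hG : GEnv M N Lm A) (v : Pt) (e : Fin 4)
    (i j : ℤ) : nb A (v.1 + i * M, v.2 + j * N) e = ((nb A v e).1 + i * M, (nb A v e).2 + j * N) :=
  (h3a _ _ _ _ hG).2.2.1 v e i j

theorem V_per_up (h3a : P3a) (h5a : P5a) (k : ℕ) (a b : ℝ) :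
    Per (s.M (k + 1)) (s.N (k + 1)) (d.V k a b) := by
  have hp := d.V_per h3a h5a k a b
  obtain ⟨c, hc⟩ := (s.step k).dM
  obtain ⟨c', hc'⟩ := (s.step k).dN
  have e1 : ((s.M (k + 1) : ℕ) : ℤ) = (c : ℤ) * (s.M k : ℤ) := by
    have : s.M (k + 1) = s.M k * c := hc
    rw [this]; push_cast; ring
  have e2 : ((s.N (k + 1) : ℕ) : ℤ) = (c' : ℤ) * (s.N k : ℤ) := by
    have : s.N (k + 1) = s.N k * c' := hc'
    rw [this]; push_cast; ring
  constructor
  · intro v
    rw [e1]
    have := per_gen hp c 0 v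
    simpa using this
  · intro v
    rw [e2]
    have := per_gen hp 0 c' v
    simpa using this

theorem ind_per (k : ℕ) :
    Per (s.M k) (s.N k) (Set.indicator (Fr s k) (fun _ => (1 : ℝ))) := by
  have h1 : ∀ v : Pt, ((v.1 + (s.M k : ℤ), v.2) : Pt) ∈ Fr s k ↔ v ∈ Fr s k := by
    intro v
    constructor
    · rintro ⟨i, j, h⟩
      refine ⟨i - 1, j, ?_⟩
      rw [← h]
      simp only
      congr 2
      ring
    · rintro ⟨i, j, h⟩
      refine ⟨i + 1, j, ?_⟩
      rw [← h]
      simp only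
      congr 2
      ring
  have h2 : ∀ v : Pt, ((v.1, v.2 + (s.N k : ℤ)) : Pt) ∈ Fr s k ↔ v ∈ Fr s k := by
    intro v
    constructor
    · rintro ⟨i, j, h⟩
      refine ⟨i, j - 1, ?_⟩
      rw [← h]
      simp only
      congr 2
      ring
    · rintro ⟨i, j, h⟩
      refine ⟨i, j + 1, ?_⟩
      rw [← h]
      simp only
      congr 2
      ring
  constructor
  · intro v
    by_cases h : v ∈ Fr s k
    · rw [Set.indicator_of_mem h, Set.indicator_of_mem ((h1 v).mpr h)]
    · rw [Set.indicator_of_notMem h, Set.indicator_of_notMem (fun h' => h ((h1 v).mp h'))]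
  · intro v
    by_cases h : v ∈ Fr s k
    · rw [Set.indicator_of_mem h, Set.indicator_of_mem ((h2 v).mpr h)]
    · rw [Set.indicator_of_notMem h, Set.indicator_of_notMem (fun h' => h ((h2 v).mp h'))]

theorem D_per (h3a : P3a) (h5a : P5a) (k : ℕ) : Per (s.M (k + 1)) (s.N (k + 1)) (hd.D k) := by
  have hp := fun a b => V_per_up (d := d) h3a h5a k a b
  have hp' := fun a b => d.V_per h3a h5a (k + 1) a b
  have hi := ind_per (s := s) (k + 1)
  constructor
  · intro v
    simp only [D, (hp _ _).1, (hp' _ _).1, hi.1]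
  · intro v
    simp only [D, (hp _ _).2, (hp' _ _).2, hi.2]

end HData

end Pool.Agent.R196.PP
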