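import Pool.Agent.R196.PP.Asm3

/-! Assembly, part 4: numeric bounds, exceptional sets, convergence of the variances. -/

namespace Pool.Agent.R196.PP

open MeasureTheory ProbabilityTheory Filter Topology
open scoped ENNReal BigOperators

namespace Scales
variable (s : Scales)

theorem M_pos (k : ℕ) : (1 : ℝ) ≤ s.M k := by
  have : 1 ≤ s.M k := Nat.one_le_pow _ _ (by norm_num)
  exact_mod_cast this
theorem N_pos (k : ℕ) : (1 : ℝ) ≤ s.N k := by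
  have : 1 ≤ s.N k := Nat.one_le_pow _ _ (by norm_num)
  exact_mod_cast this

theorem L_le_M (k : ℕ) : (s.L k : ℝ) ≤ s.M k := by
  cases k with
  | zero => rw [s.L0]; have := s.M_pos 0; push_cast; linarith
  | succ k =>
    have := (s.step k).bigM
    have h2 : s.L (k + 1) ≤ s.M (k + 1) := by
      have h3 : 8 * s.L (k + 1) + 5 ≤ s.M (k + 1) := this
      omega
    exact_mod_cast h2

/-- `W k = M k * N k` -/
noncomputable def W (k : ℕ) : ℝ := (s.M k : ℝ) * s.N k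

theorem W_ge (k : ℕ) : 1 ≤ s.W k := by
  have h1 := s.M_pos k
  have h2 := s.N_pos k
  unfold W; nlinarith

theorem L_le_W (k : ℕ) : (s.L k : ℝ) ≤ s.W k := by
  have h1 := s.L_le_M k
  have h2 := s.N_pos k
  have h3 := s.M_pos k
  unfold W; nlinarith

theorem kap_ge (k : ℕ) : (10 : ℝ) ^ 10 * 8 ^ (k + 1) * (s.W k) ^ 10 ≤ s.kap (k + 1) := by
  have := s.kap_big k
  have h : (((10 ^ 10 * 8 ^ (k + 1) * (3 ^ s.aM k * 5 ^ s.bN k) ^ 10 : ℕ)) : ℝ) ≤ s.kap (k + 1) := by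
    exact_mod_cast this
  have e : (((10 ^ 10 * 8 ^ (k + 1) * (3 ^ s.aM k * 5 ^ s.bN k) ^ 10 : ℕ)) : ℝ)
      = (10 : ℝ) ^ 10 * 8 ^ (k + 1) * (s.W k) ^ 10 := by
    simp only [W, M, N]; push_cast; ring
  rw [e] at h; exact h

theorem kap_ge1 (k : ℕ) : (1 : ℝ) ≤ s.kap (k + 1) := by
  have h := s.kap_ge k
  have h2 := s.W_ge k
  have h3 : (1 : ℝ) ≤ (s.W k) ^ 10 := one_le_pow₀ h2
  have h4 : (1 : ℝ) ≤ 8 ^ (k + 1) := one_le_pow₀ (by norm_num)
  have h5 : (1 : ℝ) ≤ (10 : ℝ) ^ 10 * 8 ^ (k + 1) := by nlinarith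
  nlinarith

theorem L_ge (k : ℕ) : (s.kap (k + 1) : ℝ) ^ 6 ≤ s.L (k + 1) := by
  exact_mod_cast s.L_big k

theorem L_ge1 (k : ℕ) : (1 : ℝ) ≤ s.L (k + 1) := by
  have h := s.L_ge k
  have h2 : (1 : ℝ) ≤ (s.kap (k + 1) : ℝ) ^ 6 := one_le_pow₀ (s.kap_ge1 k)
  linarith

theorem M_ge (k : ℕ) : (s.kap (k + 1) : ℝ) ^ 2 * s.L (k + 1) ≤ s.M (k + 1) := by
  have := s.lowM k
  unfold M
  exact_mod_cast this

theorem N_ge (k : ℕ) : (s.kap (k + 1) : ℝ) ^ 2 * s.L (k + 1) ≤ s.N (k + 1) := by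
  have := s.lowN k
  unfold N
  exact_mod_cast this

theorem sqrtW (k : ℕ) : (s.kap (k + 1) : ℝ) ^ 2 * s.L (k + 1) ≤ √(s.W (k + 1)) := by
  apply Real.le_sqrt_of_sq_le
  have h1 := s.M_ge k
  have h2 := s.N_ge k
  have h0 : 0 ≤ (s.kap (k + 1) : ℝ) ^ 2 * s.L (k + 1) := by positivity
  unfold W
  nlinarith

theorem Hc_le (k : ℕ) : LData.Hc s k ≤ 5408 * (s.W k) ^ 4 := by
  have h1 := s.L_le_W k
  have h2 := s.W_ge k
  have h3 : (0 : ℝ) ≤ s.L k := by positivity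
  have h4 : (2 * (12 * (s.L k : ℝ) + 1)) ≤ 26 * s.W k := by linarith
  have h5 : (2 * (12 * (s.L k : ℝ) + 1)) ^ 2 ≤ (26 * s.W k) ^ 2 :=
    pow_le_pow_left₀ (by positivity) h4 2
  unfold LData.Hc
  have e : ((s.M k : ℝ) * s.N k) = s.W k := rfl
  rw [e]
  have h6 : 0 ≤ (s.W k) ^ 2 := by positivity
  nlinarith

end Scales

namespace HData
variable {s : Scales} {d : LData s} (hd : HData s d)

theorem csum_fin3 (M N : ℕ) (A : Set Pt) (g : Fin 3 → Pt → ℝ) :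
    csum M N A (fun v => ∑ i, g i v) = ∑ i, csum M N A (g i) := by
  simp only [csum]
  rw [Finset.sum_comm]

theorem csum_D (h5a : P5a) (h7 : P7) (h7' : P7') (k : ℕ) :
    csum (s.M (k + 1)) (s.N (k + 1)) (s.A (k + 1)) (hd.D k) ≤ (1 / 4) ^ (k + 1) * s.W (k + 1) := by
  have hG := lvl h5a s k
  have hstep : StepOK (s.M k) (s.N k) (s.L k) (s.M (k + 1)) (s.N (k + 1)) (s.L (k + 1)) := s.step k
  have e1 : csum (s.M (k + 1)) (s.N (k + 1)) (s.A (k + 1)) (hd.D k)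
      = (∑ i, csum (s.M (k + 1)) (s.N (k + 1)) (s.A (k + 1)) (fun v =>
        |d.V (k + 1) (LData.dA i) (LData.dB i) v - d.V k (LData.dA i) (LData.dB i) v|))
        + 6 * LData.Hc s k * csum (s.M (k + 1)) (s.N (k + 1)) (s.A (k + 1))
          (Set.indicator (Fr s (k + 1)) (fun _ => (1 : ℝ))) := by
    rw [← csum_fin3, ← csum_smul, ← csum_add]
    rfl
  rw [e1]
  set R := √(s.W (k + 1)) with hR
  have hRR : R * R = s.W (k + 1) := by
    rw [hR]; exact Real.mul_self_sqrt (by have := s.W_ge (k + 1); linarith)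
  have hR1 : 1 ≤ R := by
    rw [hR]; exact Real.one_le_sqrt.mpr (s.W_ge (k + 1))
  have hb : ∀ i : Fin 3, csum (s.M (k + 1)) (s.N (k + 1)) (s.A (k + 1)) (fun v =>
        |d.V (k + 1) (LData.dA i) (LData.dB i) v - d.V k (LData.dA i) (LData.dB i) v|)
        ≤ 10 ^ 5 * (s.L k + 1) ^ 2 * (|LData.dA i| + |LData.dB i|) ^ 2 * s.L (k + 1) * R := by
    intro i
    exact h7 _ _ _ _ _ _ _ hG hstep (LData.dA i) (LData.dB i) (d.Phi k (LData.dA i) (LData.dB i))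
      (d.Phi (k + 1) (LData.dA i) (LData.dB i)) (d.hcPhi k _ _) (d.hcPhi (k + 1) _ _)
      (fun v hv => by simpa [lin] using d.bPhi k (LData.dA i) (LData.dB i) v hv)
  have hfr : csum (s.M (k + 1)) (s.N (k + 1)) (s.A (k + 1))
          (Set.indicator (Fr s (k + 1)) (fun _ => (1 : ℝ))) ≤ 8 * s.L (k + 1) := by
    refine h7' _ _ _ hstep.bigM hstep.bigN ?_ _
    have := s.L_ge1 k
    exact_mod_cast this
  have hsum := Finset.sum_le_sum (fun i (_ : i ∈ (Finset.univ : Finset (Fin 3))) => hb i)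
  have hL0 : (0 : ℝ) ≤ s.L k := by positivity
  have hL'1 := s.L_ge1 k
  have hW := s.W_ge k
  have hLW := s.L_le_W k
  have hH := s.Hc_le k
  have hHn := Hc_nonneg s k
  have hsq : (s.kap (k + 1) : ℝ) ^ 2 * s.L (k + 1) ≤ R := s.sqrtW k
  have hs3 : ∑ i : Fin 3, (10 ^ 5 * ((s.L k : ℝ) + 1) ^ 2 * (|LData.dA i| + |LData.dB i|) ^ 2
      * s.L (k + 1) * R) = 6 * 10 ^ 5 * ((s.L k : ℝ) + 1) ^ 2 * (s.L (k + 1) * R) := by
    simp [Fin.sum_univ_three, LData.dA, LData.dB]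
    ring
  rw [hs3] at hsum
  have hc1 : ((s.L k : ℝ) + 1) ^ 2 ≤ 4 * s.W k ^ 4 := by
    have : ((s.L k : ℝ) + 1) ^ 2 ≤ (2 * s.W k) ^ 2 := pow_le_pow_left₀ (by linarith) (by linarith) 2
    have h2 : s.W k ^ 2 ≤ s.W k ^ 4 := pow_le_pow_right₀ hW (by norm_num)
    nlinarith
  have hLR : (s.L (k + 1) : ℝ) ≤ s.L (k + 1) * R := by nlinarith
  have hLRn : 0 ≤ (s.L (k + 1) : ℝ) * R := by positivity
  have hmain : (∑ i, csum (s.M (k + 1)) (s.N (k + 1)) (s.A (k + 1)) (fun v =>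
        |d.V (k + 1) (LData.dA i) (LData.dB i) v - d.V k (LData.dA i) (LData.dB i) v|))
        + 6 * LData.Hc s k * csum (s.M (k + 1)) (s.N (k + 1)) (s.A (k + 1))
          (Set.indicator (Fr s (k + 1)) (fun _ => (1 : ℝ)))
        ≤ 3 * 10 ^ 6 * s.W k ^ 4 * (s.L (k + 1) * R) := by
    have h1 : 6 * LData.Hc s k * csum (s.M (k + 1)) (s.N (k + 1)) (s.A (k + 1))
          (Set.indicator (Fr s (k + 1)) (fun _ => (1 : ℝ)))
          ≤ 6 * (5408 * s.W k ^ 4) * (8 * (s.L (k + 1) * R)) := by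
      refine mul_le_mul (by linarith) (hfr.trans (by linarith)) ?_ (by positivity)
      have : csum (s.M (k + 1)) (s.N (k + 1)) (s.A (k + 1)) (fun _ => 0) ≤
        csum (s.M (k + 1)) (s.N (k + 1)) (s.A (k + 1))
          (Set.indicator (Fr s (k + 1)) (fun _ => (1 : ℝ))) :=
        csum_mono fun v _ => Set.indicator_nonneg (fun _ _ => zero_le_one) v
      simpa [csum] using this
    have h2 : 6 * 10 ^ 5 * ((s.L k : ℝ) + 1) ^ 2 * (s.L (k + 1) * R)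
        ≤ 6 * 10 ^ 5 * (4 * s.W k ^ 4) * (s.L (k + 1) * R) := by gcongr
    have h3 : 0 ≤ s.W k ^ 4 * (s.L (k + 1) * R) := by positivity
    nlinarith
  refine hmain.trans ?_
  -- L' R κ² ≤ R²
  have hk1 := s.kap_ge1 k
  have hkap := s.kap_ge k
  have hLR2 : (s.kap (k + 1) : ℝ) ^ 2 * (s.L (k + 1) * R) ≤ s.W (k + 1) := by
    rw [← hRR]
    have : (s.kap (k + 1) : ℝ) ^ 2 * (s.L (k + 1) * R)
      = ((s.kap (k + 1) : ℝ) ^ 2 * s.L (k + 1)) * R := by ring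
    rw [this]
    exact mul_le_mul_of_nonneg_right hsq (by linarith)
  have h8 : (3 : ℝ) * 10 ^ 6 * s.W k ^ 4 * 4 ^ (k + 1) ≤ (s.kap (k + 1) : ℝ) ^ 2 := by
    have ha : (3 : ℝ) * 10 ^ 6 * s.W k ^ 4 * 4 ^ (k + 1) ≤ (10 : ℝ) ^ 10 * 8 ^ (k + 1) * s.W k ^ 10 := by
      have hw : s.W k ^ 4 ≤ s.W k ^ 10 := pow_le_pow_right₀ hW (by norm_num)
      have h4 : (4 : ℝ) ^ (k + 1) ≤ 8 ^ (k + 1) := pow_le_pow_left₀ (by norm_num) (by norm_num) _
      calc (3 : ℝ) * 10 ^ 6 * s.W k ^ 4 * 4 ^ (k + 1)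
          ≤ 10 ^ 10 * s.W k ^ 10 * 8 ^ (k + 1) := by gcongr; norm_num
        _ = _ := by ring
    have hb : (s.kap (k + 1) : ℝ) ≤ (s.kap (k + 1) : ℝ) ^ 2 := by nlinarith
    linarith
  have h9 : (3 : ℝ) * 10 ^ 6 * s.W k ^ 4 ≤ (1 / 4) ^ (k + 1) * (s.kap (k + 1) : ℝ) ^ 2 := by
    have h4p : (0 : ℝ) < 4 ^ (k + 1) := by positivity
    rw [one_div, inv_pow, inv_mul_eq_div, le_div_iff₀ h4p]
    exact h8
  calc 3 * 10 ^ 6 * s.W k ^ 4 * (s.L (k + 1) * R)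
      ≤ ((1 / 4) ^ (k + 1) * (s.kap (k + 1) : ℝ) ^ 2) * (s.L (k + 1) * R) := by gcongr
    _ = (1 / 4) ^ (k + 1) * ((s.kap (k + 1) : ℝ) ^ 2 * (s.L (k + 1) * R)) := by ring
    _ ≤ (1 / 4) ^ (k + 1) * s.W (k + 1) := by gcongr

/-- A point is good at level `k+1` if the time averages of `D` are at most `2^{-(k+1)}`. -/
def Good (hd : HData s d) (k : ℕ) (v : Pt) : Prop :=
  ∀ n : ℕ, 1 ≤ n → SR (nb (s.A (k + 1))) (hd.D k) n v ≤ (1 / 2) ^ (k + 1) * n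

theorem exc_card (h3a : P3a) (h3c : P3c) (h5a : P5a) (h7 : P7) (h7' : P7') (k : ℕ) :
    (Nat.card {v : Pt // v ∈ cell (s.M (k + 1)) (s.N (k + 1)) ∧ v ∈ s.A (k + 1) ∧
      ¬ hd.Good k v} : ℝ) ≤ (1 / 2) ^ (k + 1) * s.W (k + 1) := by
  have h1 := h3c _ _ _ _ (lvl h5a s (k + 1)) (hd.D k) (hd.D_per h3a h5a k)
    (fun v _ => hd.D_nonneg k v) ((1 / 2) ^ (k + 1)) (by positivity)
  have h2 := hd.csum_D h5a h7 h7' k
  have e : {v : Pt // v ∈ cell (s.M (k + 1)) (s.N (k + 1)) ∧ v ∈ s.A (k + 1) ∧ ¬ hd.Good k v}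
      = {v : Pt // v ∈ cell (s.M (k + 1)) (s.N (k + 1)) ∧ v ∈ s.A (k + 1) ∧
      ∃ n : ℕ, 1 ≤ n ∧ (1 / 2 : ℝ) ^ (k + 1) * n < SR (nb (s.A (k + 1))) (hd.D k) n v} := by
    congr 1
    ext v
    simp only [Good]
    push_neg
    rfl
  rw [e]
  have h3 : ((1 / 2 : ℝ) ^ (k + 1)) * Nat.card {v : Pt // v ∈ cell (s.M (k + 1)) (s.N (k + 1)) ∧ v ∈ s.A (k + 1) ∧
      ∃ n : ℕ, 1 ≤ n ∧ (1 / 2 : ℝ) ^ (k + 1) * n < SR (nb (s.A (k + 1))) (hd.D k) n v}
      ≤ (1 / 4) ^ (k + 1) * s.W (k + 1) := h1.trans h2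
  have h4 : ((1 : ℝ) / 4) ^ (k + 1) = (1 / 2) ^ (k + 1) * (1 / 2) ^ (k + 1) := by
    rw [← mul_pow]; norm_num
  rw [h4, mul_assoc] at h3
  exact le_of_mul_le_mul_left h3 (by positivity)

/-- convergence of the variances along good points -/
theorem sig_step (h1b : P1b) (h3a : P3a) (h5a : P5a) (h5b : P5b) (k : ℕ) (a b : ℝ) (v : Pt)
    (hv : v ∈ s.A (k + 1)) (hgood : hd.Good k v) :
    |d.sig (k + 1) a b - d.sig k a b| ≤ (|a| + |b|) ^ 2 * (1 / 2) ^ (k + 1) := by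
  obtain ⟨hmem, -⟩ := h3a _ _ _ _ (lvl h5a s (k + 1))
  have hS : ∀ x ∈ s.A (k + 1), ∀ e, nb (s.A (k + 1)) x e ∈ s.A (k + 1) := fun x _ e => hmem x e
  set τ := |a| + |b| with hτ
  have hτ0 : 0 ≤ τ := by positivity
  -- own estimate
  have own : ∀ n : ℕ, |SR (nb (s.A (k + 1))) (d.V (k + 1) a b) n v - n * d.sig (k + 1) a b|
      ≤ 2 * (3 * τ ^ 2 * LData.Hc s (k + 1)) := by
    intro n
    have := h1b (nb (s.A (k + 1))) (s.A (k + 1)) hS (d.V (k + 1) a b) (d.sig (k + 1) a b)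
      (hd.hh (k + 1) a b) (3 * τ ^ 2 * LData.Hc s (k + 1)) (fun x hx => hd.hh_bd (k + 1) a b x hx)
      (fun _ => 0) (fun x hx => by rw [hd.own_eq (k + 1) a b x hx]; simp) n v hv
    have h0 : ∀ m, SR (nb (s.A (k + 1))) (fun _ => (0 : ℝ)) m = fun _ => 0 := by
      intro m
      induction m with
      | zero => rfl
      | succ m ih => funext x; simp [SR, ih, PR]
    rw [h0] at this
    simpa using this
  have stp : ∀ n : ℕ, 1 ≤ n → |SR (nb (s.A (k + 1))) (d.V (k + 1) a b) n v - n * d.sig k a b|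
      ≤ τ ^ 2 * ((1 / 2) ^ (k + 1) * n) + 2 * (3 * τ ^ 2 * LData.Hc s k) := by
    intro n hn
    have := h1b (nb (s.A (k + 1))) (s.A (k + 1)) hS (d.V (k + 1) a b) (d.sig k a b)
      (hd.hh k a b) (3 * τ ^ 2 * LData.Hc s k)
      (fun x hx => hd.hh_bd k a b x (A_succ_subset s k hx))
      (fun x => τ ^ 2 * hd.D k x) (fun x hx => hd.step_eq h3a h5a h5b k a b x hx) n v hv
    have h0 : ∀ m x, SR (nb (s.A (k + 1))) (fun y => τ ^ 2 * hd.D k y) m x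
        = τ ^ 2 * SR (nb (s.A (k + 1))) (hd.D k) m x := by
      intro m
      induction m with
      | zero => intro x; simp [SR]
      | succ m ih =>
        intro x
        simp only [SR, PR, ih]
        rw [← Finset.mul_sum]; ring
    rw [h0] at this
    have hg := hgood n hn
    have : τ ^ 2 * SR (nb (s.A (k + 1))) (hd.D k) n v ≤ τ ^ 2 * ((1 / 2) ^ (k + 1) * n) :=
      mul_le_mul_of_nonneg_left hg (by positivity)
    linarith
  -- combine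
  have comb : ∀ n : ℕ, 1 ≤ n → (n : ℝ) * |d.sig (k + 1) a b - d.sig k a b| ≤
      n * (τ ^ 2 * (1 / 2) ^ (k + 1)) + (2 * (3 * τ ^ 2 * LData.Hc s k)
        + 2 * (3 * τ ^ 2 * LData.Hc s (k + 1))) := by
    intro n hn
    have h1 := own n
    have h2 := stp n hn
    have e : (n : ℝ) * |d.sig (k + 1) a b - d.sig k a b|
        = |n * d.sig (k + 1) a b - n * d.sig k a b| := by
      rw [← mul_sub, abs_mul, Nat.abs_cast]
    rw [e]
    have h3 : |n * d.sig (k + 1) a b - n * d.sig k a b| ≤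
      |SR (nb (s.A (k + 1))) (d.V (k + 1) a b) n v - n * d.sig k a b|
      + |SR (nb (s.A (k + 1))) (d.V (k + 1) a b) n v - n * d.sig (k + 1) a b| := by
      have := abs_sub (SR (nb (s.A (k + 1))) (d.V (k + 1) a b) n v - n * d.sig k a b)
        (SR (nb (s.A (k + 1))) (d.V (k + 1) a b) n v - n * d.sig (k + 1) a b)
      have e2 : (SR (nb (s.A (k + 1))) (d.V (k + 1) a b) n v - n * d.sig k a b)
        - (SR (nb (s.A (k + 1))) (d.V (k + 1) a b) n v - n * d.sig (k + 1) a b)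
        = n * d.sig (k + 1) a b - n * d.sig k a b := by ring
      rwa [e2] at this
    linarith
  by_contra hcon
  push_neg at hcon
  set δ := |d.sig (k + 1) a b - d.sig k a b| - τ ^ 2 * (1 / 2) ^ (k + 1) with hδ
  have hδ0 : 0 < δ := by linarith
  set Cc := (2 * (3 * τ ^ 2 * LData.Hc s k) + 2 * (3 * τ ^ 2 * LData.Hc s (k + 1))) with hC
  obtain ⟨n, hn⟩ := exists_nat_gt (Cc / δ)
  have hn1 : (1 : ℕ) ≤ n + 1 := by omega
  have h1 := comb (n + 1) hn1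
  have h2 : Cc < (n + 1) * δ := by
    rw [div_lt_iff₀ hδ0] at hn
    nlinarith
  have h3 : ((n + 1 : ℕ) : ℝ) * |d.sig (k + 1) a b - d.sig k a b|
      = (n + 1) * δ + (n + 1) * (τ ^ 2 * (1 / 2) ^ (k + 1)) := by
    rw [hδ]; push_cast; ring
  rw [h3] at h1
  push_cast at h1
  linarith

end HData

end Pool.Agent.R196.PP
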