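import Pool.Agent.R196.PP.Asm4

/-! Assembly, part 5: the estimate at one level. -/

namespace Pool.Agent.R196.PP

open MeasureTheory ProbabilityTheory Filter Topology
open scoped ENNReal BigOperators

theorem norm_cexp_sub (x y : ℝ) :
    ‖Complex.exp (Complex.I * (x : ℂ)) - Complex.exp (Complex.I * (y : ℂ))‖ ≤ |x - y| := by
  have h := Real.norm_exp_I_mul_ofReal_sub_one_le (x := x - y)
  have e : Complex.exp (Complex.I * (x : ℂ)) - Complex.exp (Complex.I * (y : ℂ))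
      = Complex.exp (Complex.I * (y : ℂ)) * (Complex.exp (Complex.I * ((x - y : ℝ) : ℂ)) - 1) := by
    rw [mul_sub, ← Complex.exp_add, mul_one]
    congr 2
    push_cast; ring
  rw [e, norm_mul]
  have h1 : ‖Complex.exp (Complex.I * (y : ℂ))‖ = 1 := by
    rw [mul_comm]; exact Complex.norm_exp_ofReal_mul_I y
  rw [h1, one_mul]
  simpa using h

theorem SR_smul {X : Type} (nx : X → Fin 4 → X) (c : ℝ) (f : X → ℝ) (n : ℕ) (x : X) :
    SR nx (fun y => c * f y) n x = c * SR nx f n x := by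
  induction n generalizing x with
  | zero => simp [SR]
  | succ n ih =>
    simp only [SR, PR, ih]
    rw [← Finset.mul_sum]; ring

theorem SR_nonneg {X : Type} (nx : X → Fin 4 → X) (f : X → ℝ) (hf : ∀ x, 0 ≤ f x) (n : ℕ) (x : X) :
    0 ≤ SR nx f n x := by
  induction n generalizing x with
  | zero => simp [SR]
  | succ n ih =>
    simp only [SR, PR]
    have h2 : 0 ≤ ∑ e, SR nx f n (nx x e) := Finset.sum_nonneg fun e _ => ih _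
    have := hf x
    linarith

theorem numT (τ s0 σ θ n L' K Hc S SD p B0 : ℝ) (hB0 : B0 = s0 + 7 * τ ^ 2) (hτ0 : 0 ≤ τ)
    (hσ0 : 0 ≤ σ) (hs0 : σ ≤ s0) (hθ0 : 0 < θ) (hθ2 : θ ^ 2 * n = 1) (hn0 : 1 ≤ n)
    (hL1 : 1 ≤ L') (hK1 : 1 ≤ K) (hθL : θ * L' ≤ 1 / K) (hHc : 0 ≤ Hc) (hHL : Hc ≤ L')
    (hS0 : 0 ≤ S) (hSB : S ≤ n * B0) (hp : 0 ≤ p) (hgd : SD ≤ p * n) :
    θ ^ 2 / 2 * (τ ^ 2 * SD) + 3 * θ ^ 2 / 2 * (3 * τ ^ 2 * Hc)
      + θ ^ 3 / 4 * (3 * τ ^ 2 * Hc) * (n + S) + θ ^ 3 * (τ * (12 * L' + 1)) / 6 * S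
      + n * θ ^ 4 * σ ^ 2 / 8 ≤
    τ ^ 2 * p + (9 / 2) * τ ^ 2 * (1 / K)
      + (3 / 4) * τ ^ 2 * (1 + B0) * (1 / K) + 3 * τ * B0 * (1 / K) + s0 ^ 2 * (1 / K) := by
  have hs00 : 0 ≤ s0 := hσ0.trans hs0
  have hB00 : 0 ≤ B0 := by rw [hB0]; positivity
  have hτ2 : 0 ≤ τ ^ 2 := by positivity
  have hK0 : 0 < K := by linarith
  have hn00 : 0 < n := by linarith
  have t1 : θ ^ 2 / 2 * (τ ^ 2 * SD) ≤ τ ^ 2 * p := by
    have h1 : θ ^ 2 / 2 * (τ ^ 2 * SD) ≤ θ ^ 2 / 2 * (τ ^ 2 * (p * n)) := by gcongr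
    have h2 : θ ^ 2 / 2 * (τ ^ 2 * (p * n)) = (θ ^ 2 * n) * (τ ^ 2 * p / 2) := by ring
    rw [h2, hθ2] at h1
    have h3 : 0 ≤ τ ^ 2 * p := by positivity
    linarith
  have hθ1 : θ ≤ 1 := by
    by_contra hc
    push Not at hc
    have : 1 < θ ^ 2 * n := by nlinarith
    linarith
  have hθH : θ * Hc ≤ 1 / K := (mul_le_mul_of_nonneg_left hHL hθ0.le).trans hθL
  have t2 : 3 * θ ^ 2 / 2 * (3 * τ ^ 2 * Hc) ≤ (9 / 2) * τ ^ 2 * (1 / K) := by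
    have h1 : 3 * θ ^ 2 / 2 * (3 * τ ^ 2 * Hc) = (9 / 2) * τ ^ 2 * (θ * (θ * Hc)) := by ring
    rw [h1]
    have h2 : θ * (θ * Hc) ≤ 1 * (1 / K) := mul_le_mul hθ1 hθH (by positivity) (by norm_num)
    rw [one_mul] at h2
    gcongr
  have t3 : θ ^ 3 / 4 * (3 * τ ^ 2 * Hc) * (n + S) ≤ (3 / 4) * τ ^ 2 * (1 + B0) * (1 / K) := by
    have h1 : θ ^ 3 / 4 * (3 * τ ^ 2 * Hc) * (n + S) ≤ θ ^ 3 / 4 * (3 * τ ^ 2 * Hc) * (n + n * B0) := by
      gcongr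
    have h2 : θ ^ 3 / 4 * (3 * τ ^ 2 * Hc) * (n + n * B0)
      = (3 / 4) * τ ^ 2 * (1 + B0) * ((θ ^ 2 * n) * (θ * Hc)) := by ring
    rw [h2, hθ2, one_mul] at h1
    refine h1.trans ?_
    gcongr
  have t4 : θ ^ 3 * (τ * (12 * L' + 1)) / 6 * S ≤ 3 * τ * B0 * (1 / K) := by
    have h1 : θ ^ 3 * (τ * (12 * L' + 1)) / 6 * S ≤ θ ^ 3 * (τ * (18 * L')) / 6 * (n * B0) := by
      refine mul_le_mul ?_ hSB hS0 (by positivity)
      have : 12 * L' + 1 ≤ 18 * L' := by linarith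
      gcongr
    have h2 : θ ^ 3 * (τ * (18 * L')) / 6 * (n * B0) = 3 * τ * B0 * ((θ ^ 2 * n) * (θ * L')) := by ring
    rw [h2, hθ2, one_mul] at h1
    refine h1.trans ?_
    gcongr
  have t5 : n * θ ^ 4 * σ ^ 2 / 8 ≤ s0 ^ 2 * (1 / K) := by
    have h1 : n * θ ^ 4 * σ ^ 2 / 8 = (θ ^ 2 * n) * (θ ^ 2 * σ ^ 2 / 8) := by ring
    rw [h1, hθ2, one_mul]
    have h2 : θ ≤ 1 / K := by
      have := mul_le_mul_of_nonneg_left hL1 hθ0.le
      linarith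
    have h3 : θ ^ 2 ≤ 1 / K := by nlinarith
    have h4 : σ ^ 2 ≤ s0 ^ 2 := pow_le_pow_left₀ hσ0 hs0 2
    have h5 : θ ^ 2 * σ ^ 2 ≤ (1 / K) * s0 ^ 2 := mul_le_mul h3 h4 (by positivity) (by positivity)
    have h6 : 0 ≤ θ ^ 2 * σ ^ 2 := by positivity
    linarith
  linarith

/-- constants -/
noncomputable def Cst (τ s0 : ℝ) : ℝ :=
  (9 / 2) * τ ^ 2 + (3 / 4) * τ ^ 2 * (1 + (s0 + 7 * τ ^ 2)) + 3 * τ * (s0 + 7 * τ ^ 2)
    + s0 ^ 2 + 10 * τ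

namespace HData
variable {s : Scales} {d : LData s} (hd : HData s d)

theorem Hc_le_L (k : ℕ) : LData.Hc s k ≤ s.L (k + 1) := by
  have h1 := s.Hc_le k
  have h2 := s.kap_ge k
  have h3 := s.L_ge k
  have h4 := s.kap_ge1 k
  have h5 := s.W_ge k
  have h6 : (s.kap (k + 1) : ℝ) ≤ (s.kap (k + 1) : ℝ) ^ 6 := by
    have := pow_le_pow_right₀ h4 (show 1 ≤ 6 by norm_num)
    simpa using this
  have h7 : s.W k ^ 4 ≤ s.W k ^ 10 := pow_le_pow_right₀ h5 (by norm_num)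
  have h8 : (1 : ℝ) ≤ 8 ^ (k + 1) := one_le_pow₀ (by norm_num)
  have h9 : 5408 * s.W k ^ 4 ≤ (10 : ℝ) ^ 10 * 8 ^ (k + 1) * s.W k ^ 10 := by
    have h10 : 0 ≤ s.W k ^ 4 := by positivity
    have h11 : (5408 : ℝ) ≤ (10 : ℝ) ^ 10 * 8 ^ (k + 1) := by nlinarith
    exact mul_le_mul h11 h7 h10 (by positivity)
  linarith

/-- variance along a good point -/
theorem SRV_le (h1b : P1b) (h3a : P3a) (h5a : P5a) (h5b : P5b) (k : ℕ) (a b : ℝ) (v : Pt)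
    (hv : v ∈ s.A (k + 1)) (hgood : hd.Good k v) (n : ℕ) (hn : 1 ≤ n)
    (hn2 : LData.Hc s k ≤ n) :
    SR (nb (s.A (k + 1))) (d.V (k + 1) a b) n v ≤ n * (d.sig k a b + 7 * (|a| + |b|) ^ 2) := by
  obtain ⟨hmem, -⟩ := h3a _ _ _ _ (lvl h5a s (k + 1))
  have hS : ∀ x ∈ s.A (k + 1), ∀ e, nb (s.A (k + 1)) x e ∈ s.A (k + 1) := fun x _ e => hmem x e
  set τ := |a| + |b| with hτ
  have := h1b (nb (s.A (k + 1))) (s.A (k + 1)) hS (d.V (k + 1) a b) (d.sig k a b)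
      (hd.hh k a b) (3 * τ ^ 2 * LData.Hc s k)
      (fun x hx => hd.hh_bd k a b x (A_succ_subset s k hx))
      (fun x => τ ^ 2 * hd.D k x) (fun x hx => hd.step_eq h3a h5a h5b k a b x hx) n v hv
  rw [SR_smul] at this
  have hg := hgood n hn
  have hn0 : (0 : ℝ) ≤ n := by positivity
  have hp : ((1 : ℝ) / 2) ^ (k + 1) ≤ 1 := pow_le_one₀ (by norm_num) (by norm_num)
  have hg2 : SR (nb (s.A (k + 1))) (hd.D k) n v ≤ n := by nlinarith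
  have hτ2 : 0 ≤ τ ^ 2 := by positivity
  have h1 : τ ^ 2 * SR (nb (s.A (k + 1))) (hd.D k) n v ≤ τ ^ 2 * n :=
    mul_le_mul_of_nonneg_left hg2 hτ2
  have h2 : τ ^ 2 * LData.Hc s k ≤ τ ^ 2 * n := mul_le_mul_of_nonneg_left hn2 hτ2
  have h3 := (abs_le.mp this).2
  nlinarith

theorem level_est (h1a : P1a) (h1b : P1b) (h1e : P1e) (h1f : P1f) (h3a : P3a) (h5a : P5a)
    (h5b : P5b) (k : ℕ) (a b : ℝ) (v : Pt) (hv : v ∈ s.A (k + 1)) (hgood : hd.Good k v)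
    (n : ℕ) (hn : 1 ≤ n) (hn2 : (((k : ℝ) + 1) * s.L (k + 1)) ^ 2 ≤ n) (s0 : ℝ)
    (hs0 : d.sig k a b ≤ s0) :
    ‖EV (nb (s.A (k + 1))) (fun w => Complex.exp (Complex.I *
        (((√(n : ℝ))⁻¹ * lin a b (w - v) : ℝ) : ℂ))) n v
      - ((Real.exp (-(d.sig k a b) / 2) : ℝ) : ℂ)‖
      ≤ (|a| + |b|) ^ 2 * (1 / 2) ^ (k + 1) + Cst (|a| + |b|) s0 / (k + 1) := by
  obtain ⟨hmem, -⟩ := h3a _ _ _ _ (lvl h5a s (k + 1))
  have hS : ∀ x ∈ s.A (k + 1), ∀ e, nb (s.A (k + 1)) x e ∈ s.A (k + 1) := fun x _ e => hmem x e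
  set τ := |a| + |b| with hτ
  have hτ0 : 0 ≤ τ := by positivity
  set L' : ℝ := ((s.L (k + 1) : ℕ) : ℝ) with hL'
  have hL1 : 1 ≤ L' := s.L_ge1 k
  set K : ℝ := (k : ℝ) + 1 with hK
  have hK1 : 1 ≤ K := by rw [hK]; have : (0 : ℝ) ≤ k := by positivity
                         linarith
  have hn0 : (1 : ℝ) ≤ n := by exact_mod_cast hn
  have hsn : K * L' ≤ √(n : ℝ) := Real.le_sqrt_of_sq_le hn2
  have hsn0 : 0 < √(n : ℝ) := by positivity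
  set θ : ℝ := (√(n : ℝ))⁻¹ with hθ
  have hθ0 : 0 < θ := by positivity
  have hθ2 : θ ^ 2 * n = 1 := by
    rw [hθ, inv_pow, Real.sq_sqrt (by linarith)]
    field_simp
  have hθL : θ * L' ≤ 1 / K := by
    rw [le_div_iff₀ (by linarith)]
    rw [hθ]
    calc (√(n : ℝ))⁻¹ * L' * K = (√(n : ℝ))⁻¹ * (K * L') := by ring
      _ ≤ (√(n : ℝ))⁻¹ * √(n : ℝ) := by gcongr
      _ = 1 := by field_simp
  have hHc := Hc_nonneg s k
  have hHL : LData.Hc s k ≤ L' := Hc_le_L k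
  have hLn : L' ≤ n := by
    have : L' ≤ (K * L') ^ 2 := by nlinarith [mul_nonneg (by linarith : (0:ℝ) ≤ K - 1) (by linarith : (0:ℝ) ≤ L')]
    linarith
  have hσ0 := d.sig_nonneg h5a k a b
  set σ := d.sig k a b with hσ
  -- the shifted coordinate
  set φ : Pt → ℝ := fun w => d.Phi (k + 1) a b w - d.Phi (k + 1) a b v with hφ
  have hgr : grad (nb (s.A (k + 1))) φ = grad (nb (s.A (k + 1))) (d.Phi (k + 1) a b) := by
    funext w e; simp only [grad, hφ]; ring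
  set F : Pt → ℂ := fun w => Complex.exp (Complex.I * ((θ * lin a b (w - v) : ℝ) : ℂ)) with hF
  set F' : Pt → ℂ := fun w => Complex.exp (Complex.I * ((θ * φ w : ℝ) : ℂ)) with hF'
  have hFF : ∀ w ∈ s.A (k + 1), ‖F w - F' w‖ ≤ 10 * τ / K := by
    intro w hw
    have h1 := norm_cexp_sub (θ * lin a b (w - v)) (θ * φ w)
    have h2 := d.bPhi (k + 1) a b w hw
    have h3 := d.bPhi (k + 1) a b v hv
    have e1 : θ * lin a b (w - v) - θ * φ w = θ * ((d.Phi (k + 1) a b v - lin a b v)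
      - (d.Phi (k + 1) a b w - lin a b w)) := by
      simp only [hφ, lin, Prod.fst_sub, Prod.snd_sub]; push_cast; ring
    rw [e1, abs_mul, abs_of_pos hθ0] at h1
    have h4 := abs_sub (d.Phi (k + 1) a b v - lin a b v) (d.Phi (k + 1) a b w - lin a b w)
    have h5 : θ * |(d.Phi (k + 1) a b v - lin a b v)
      - (d.Phi (k + 1) a b w - lin a b w)| ≤ θ * (10 * L' * τ) := by
      refine mul_le_mul_of_nonneg_left ?_ hθ0.le
      linarith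
    have h6 : θ * (10 * L' * τ) ≤ 10 * τ / K := by
      calc θ * (10 * L' * τ) = (10 * τ) * (θ * L') := by ring
        _ ≤ (10 * τ) * (1 / K) := by gcongr
        _ = _ := by ring
    exact h1.trans (h5.trans h6)
  have hA := h1f (nb (s.A (k + 1))) (s.A (k + 1)) hS F F' (10 * τ / K) hFF n v hv
  have hB := h1e (nb (s.A (k + 1))) φ θ n v
  have hφv : φ v = 0 := by simp [hφ]
  rw [hφv] at hB
  simp only [mul_zero, Complex.ofReal_zero, Complex.exp_zero, one_mul] at hB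
  have hC := h1a (nb (s.A (k + 1))) (s.A (k + 1)) hS (grad (nb (s.A (k + 1))) φ)
    (by rw [hgr]; exact fun x hx => (d.hcPhi (k + 1) a b).harm x hx)
    (τ * (12 * L' + 1)) (by rw [hgr]; exact fun x hx e => d.grad_bound h3a h5a (k + 1) a b x hx e)
    σ hσ0 (hd.hh k a b) (3 * τ ^ 2 * LData.Hc s k)
    (fun x hx => hd.hh_bd k a b x (A_succ_subset s k hx))
    (fun x => τ ^ 2 * hd.D k x)
    (by rw [hgr]; exact fun x hx => hd.step_eq h3a h5a h5b k a b x hx) n θ hθ0.le v hv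
  rw [← hB, SR_smul, hgr] at hC
  have hexp : ((Real.exp (-(θ ^ 2 * σ / 2)) : ℝ) : ℂ) ^ n = ((Real.exp (-σ / 2) : ℝ) : ℂ) := by
    rw [← Complex.ofReal_pow, ← Real.exp_nat_mul]
    congr 2
    have : (n : ℝ) * -(θ ^ 2 * σ / 2) = -((θ ^ 2 * n) * σ / 2) := by ring
    rw [this, hθ2]; ring
  rw [hexp] at hC
  have hSV := hd.SRV_le h1b h3a h5a h5b k a b v hv hgood n hn (hHL.trans hLn)
  have hVdef : Vf (grad (nb (s.A (k + 1))) (d.Phi (k + 1) a b)) = d.V (k + 1) a b := rfl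
  rw [hVdef] at hC
  set S := SR (nb (s.A (k + 1))) (d.V (k + 1) a b) n v with hSdef
  set SD := SR (nb (s.A (k + 1))) (hd.D k) n v with hSD
  have hgd := hgood n hn
  rw [← hSD] at hgd
  set B0 : ℝ := s0 + 7 * τ ^ 2 with hB0
  have hSB : S ≤ n * B0 := by
    refine hSV.trans ?_
    have : (0 : ℝ) ≤ n := by linarith
    nlinarith
  have hs00 : 0 ≤ s0 := hσ0.trans hs0
  have hB00 : 0 ≤ B0 := by rw [hB0]; positivity
  have hτ2 : 0 ≤ τ ^ 2 := by positivity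
  have hSn : 0 ≤ S := SR_nonneg _ _ (fun x => d.V_nonneg (k + 1) a b x) n v
  have hnum := numT τ s0 σ θ n L' K (LData.Hc s k) S SD ((1 / 2) ^ (k + 1)) B0 hB0 hτ0 hσ0 hs0 hθ0
    hθ2 hn0 hL1 hK1 hθL hHc hHL hSn hSB (by positivity) hgd
  have htri : ‖EV (nb (s.A (k + 1))) F n v - ((Real.exp (-σ / 2) : ℝ) : ℂ)‖ ≤
      ‖EV (nb (s.A (k + 1))) F n v - EV (nb (s.A (k + 1))) F' n v‖
      + ‖EV (nb (s.A (k + 1))) F' n v - ((Real.exp (-σ / 2) : ℝ) : ℂ)‖ := by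
    have := norm_add_le (EV (nb (s.A (k + 1))) F n v - EV (nb (s.A (k + 1))) F' n v)
      (EV (nb (s.A (k + 1))) F' n v - ((Real.exp (-σ / 2) : ℝ) : ℂ))
    simpa using this
  have hfin : (10 * τ / K) + (τ ^ 2 * (1 / 2) ^ (k + 1) + (9 / 2) * τ ^ 2 * (1 / K)
      + (3 / 4) * τ ^ 2 * (1 + B0) * (1 / K) + 3 * τ * B0 * (1 / K) + s0 ^ 2 * (1 / K))
      = τ ^ 2 * (1 / 2) ^ (k + 1) + Cst τ s0 / K := by
    unfold Cst; rw [← hB0]; ring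
  rw [← hfin]
  exact htri.trans (add_le_add hA (hC.trans hnum))

/-- exit probability of large balls -/
theorem exit_est (h1b : P1b) (h1c : P1c) (h3a : P3a) (h5a : P5a)
    (h5b : P5b) (k : ℕ) (v : Pt) (hv : v ∈ s.A (k + 1)) (hgood : hd.Good k v)
    (n : ℕ) (hn : 1 ≤ n) (hn2 : LData.Hc s k ≤ n) (s0 : ℝ)
    (hs0 : d.sig k 1 0 ≤ s0) (hs1 : d.sig k 0 1 ≤ s0) (R : ℝ) (hR : 0 < R) :
    ExitP (nb (s.A (k + 1))) {x | |d.Phi (k + 1) 1 0 x - d.Phi (k + 1) 1 0 v| ≤ R ∧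
      |d.Phi (k + 1) 0 1 x - d.Phi (k + 1) 0 1 v| ≤ R} n v ≤ n * (2 * s0 + 14) / R ^ 2 := by
  obtain ⟨hmem, -⟩ := h3a _ _ _ _ (lvl h5a s (k + 1))
  have hS : ∀ x ∈ s.A (k + 1), ∀ e, nb (s.A (k + 1)) x e ∈ s.A (k + 1) := fun x _ e => hmem x e
  refine (h1c (nb (s.A (k + 1))) (s.A (k + 1)) hS (d.Phi (k + 1) 1 0) (d.Phi (k + 1) 0 1)
    (d.hcPhi (k + 1) 1 0).harm (d.hcPhi (k + 1) 0 1).harm v hv R hR n).trans ?_
  have h1 := hd.SRV_le h1b h3a h5a h5b k 1 0 v hv hgood n hn hn2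
  have h2 := hd.SRV_le h1b h3a h5a h5b k 0 1 v hv hgood n hn hn2
  simp only [abs_one, abs_zero, add_zero, zero_add, one_pow, mul_one] at h1 h2
  have hn0 : (0 : ℝ) ≤ n := by positivity
  have e : SR (nb (s.A (k + 1))) (Vf (grad (nb (s.A (k + 1))) (d.Phi (k + 1) 1 0))) n v
      + SR (nb (s.A (k + 1))) (Vf (grad (nb (s.A (k + 1))) (d.Phi (k + 1) 0 1))) n v
      ≤ n * (2 * s0 + 14) := by
    have a1 : SR (nb (s.A (k + 1))) (Vf (grad (nb (s.A (k + 1))) (d.Phi (k + 1) 1 0))) n v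
      = SR (nb (s.A (k + 1))) (d.V (k + 1) 1 0) n v := rfl
    have a2 : SR (nb (s.A (k + 1))) (Vf (grad (nb (s.A (k + 1))) (d.Phi (k + 1) 0 1))) n v
      = SR (nb (s.A (k + 1))) (d.V (k + 1) 0 1) n v := rfl
    rw [a1, a2]
    nlinarith
  gcongr

end HData

end Pool.Agent.R196.PP
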