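import Pool.Agent.R196.PP.Asm5
import Pool.Agent.R568.PP9

/-! Assembly, part 6: the true environment and its level approximations. -/

namespace Pool.Agent.R196.PP

open MeasureTheory ProbabilityTheory Filter Topology
open scoped ENNReal BigOperators

/-- translated set -/
def trs (A : Set Pt) (r : Pt) : Set Pt := {w | w + r ∈ A}

theorem gp_trs (A : Set Pt) (r w : Pt) (e : Fin 4) : gp (trs A r) w e = gp A (w + r) e := by
  unfold gp trs
  congr 1
  ext k
  simp only [Set.mem_ofPred_eq]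
  have : w + (k : ℤ) • stp e + r = w + r + (k : ℤ) • stp e := by abel
  rw [this]

theorem nb_trs (A : Set Pt) (r w : Pt) (e : Fin 4) : nb (trs A r) w e + r = nb A (w + r) e := by
  unfold nb
  rw [gp_trs]; abel

theorem EV_trs (A : Set Pt) (r : Pt) (F : Pt → ℂ) (n : ℕ) (w : Pt) :
    EV (nb (trs A r)) (fun x => F (x + r)) n w = EV (nb A) F n (w + r) := by
  induction n generalizing w with
  | zero => rfl
  | succ n ih =>
    simp only [EV, ih, nb_trs]

theorem ExitP_trs (A B : Set Pt) (r : Pt) (n : ℕ) (w : Pt) :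
    ExitP (nb (trs A r)) (trs B r) n w = ExitP (nb A) B n (w + r) := by
  induction n generalizing w with
  | zero =>
    by_cases h : w + r ∈ B
    · have h' : w ∈ trs B r := h
      simp only [ExitP, if_pos h, if_pos h']
    · have h' : w ∉ trs B r := h
      simp only [ExitP, if_neg h, if_neg h']
  | succ n ih =>
    by_cases h : w + r ∈ B
    · have h' : w ∈ trs B r := h
      simp only [ExitP, if_pos h, if_pos h', PR, ih, nb_trs]
    · have h' : w ∉ trs B r := h
      simp only [ExitP, if_neg h, if_neg h']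

theorem rep_congr (s : Scales) (u : Ph) (k m : ℕ) (h : k ≤ m) :
    ∃ i j : ℤ, rep s m u = ((rep s k u).1 + i * s.M k, (rep s k u).2 + j * s.N k) := by
  have h1 : (((PadicInt.toZModPow (s.aM m) u.1).val : ℤ) : ZMod (3 ^ s.aM k))
      = (((PadicInt.toZModPow (s.aM k) u.1).val : ℤ) : ZMod (3 ^ s.aM k)) := by
    push_cast
    rw [val_cast 3 _ _ (aM_mono s h), val_cast 3 _ _ le_rfl]
  have h2 : (((PadicInt.toZModPow (s.bN m) u.2).val : ℤ) : ZMod (5 ^ s.bN k))
      = (((PadicInt.toZModPow (s.bN k) u.2).val : ℤ) : ZMod (5 ^ s.bN k)) := by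
    push_cast
    rw [val_cast 5 _ _ (bN_mono s h), val_cast 5 _ _ le_rfl]
  rw [ZMod.intCast_eq_intCast_iff, Int.modEq_iff_dvd] at h1 h2
  obtain ⟨c, hc⟩ := h1
  obtain ⟨c', hc'⟩ := h2
  refine ⟨-c, -c', ?_⟩
  have e1 : ((s.M k : ℕ) : ℤ) = ((3 ^ s.aM k : ℕ) : ℤ) := rfl
  have e2 : ((s.N k : ℕ) : ℤ) = ((5 ^ s.bN k : ℕ) : ℤ) := rfl
  rw [e1, e2]
  refine Prod.ext ?_ ?_
  · simp only [rep]
    linarith
  · simp only [rep]
    linarith

/-- the level-`k` environment seen from the origin -/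
def envL (s : Scales) (u : Ph) (k : ℕ) : Set Pt := trs (s.A k) (rep s k u)

theorem A_mem_rep (h5a : P5a) (s : Scales) (u : Ph) (w : Pt) (k m : ℕ) (h : k ≤ m) :
    w + rep s m u ∈ s.A k ↔ w + rep s k u ∈ s.A k := by
  obtain ⟨i, j, hij⟩ := rep_congr s u k m h
  rw [hij]
  have := mem_trans_gen (lvl h5a s k) i j (w + rep s k u)
  rw [← this]
  have e : w + ((rep s k u).1 + i * (s.M k : ℤ), (rep s k u).2 + j * (s.N k : ℤ))
      = ((w + rep s k u).1 + i * (s.M k : ℤ), (w + rep s k u).2 + j * (s.N k : ℤ)) := by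
    refine Prod.ext ?_ ?_
    · simp only [Prod.fst_add]; ring
    · simp only [Prod.snd_add]; ring
  rw [e]

theorem A_anti (s : Scales) {k m : ℕ} (h : k ≤ m) : s.A m ⊆ s.A k := by
  induction m, h using Nat.le_induction with
  | base => exact fun _ h => h
  | succ m _ ih => exact fun x hx => ih (A_succ_subset s m hx)

theorem envL_anti (h5a : P5a) (s : Scales) (u : Ph) {k m : ℕ} (h : k ≤ m) :
    envL s u m ⊆ envL s u k := by
  intro w hw
  have h1 : w + rep s m u ∈ s.A m := hw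
  have h2 : w + rep s m u ∈ s.A k := A_anti s h h1
  exact (A_mem_rep h5a s u w k m h).mp h2

/-- the start is far from the level-`m` centres -/
def Far (s : Scales) (u : Ph) (ρ : ℝ) (m : ℕ) : Prop :=
  ∀ i j : ℤ, ¬ (|(((rep s m u).1 - i * s.M m : ℤ) : ℝ)| ≤ ρ ∧
    |(((rep s m u).2 - j * s.N m : ℤ) : ℝ)| ≤ ρ)

theorem level_up (h3a : P3a) (h5a : P5a) (h5b : P5b) (s : Scales) (u : Ph) (ρ : ℝ) (K : ℕ)
    (hfar : ∀ m, K < m → Far s u (ρ + s.L m) m) (w : Pt) (hw : w ∈ envL s u K)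
    (hw1 : |(w.1 : ℝ)| ≤ ρ) (hw2 : |(w.2 : ℝ)| ≤ ρ) :
    ∀ m, K ≤ m → w ∈ envL s u m ∧ ∀ e, nb (envL s u m) w e = nb (envL s u K) w e := by
  intro m hm
  induction m, hm using Nat.le_induction with
  | base => exact ⟨hw, fun e => rfl⟩
  | succ m hm ih =>
    obtain ⟨ih1, ih2⟩ := ih
    set r := rep s (m + 1) u with hr
    have hfarm := hfar (m + 1) (by omega)
    have hA : w + r ∈ s.A m := (A_mem_rep h5a s u w m (m + 1) (by omega)).mpr ih1
    have hnear : ∀ i j : ℤ, ¬ (|w.1 + r.1 - i * (s.M (m + 1) : ℤ)| ≤ (s.L (m + 1) : ℤ) ∧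
        |w.2 + r.2 - j * (s.N (m + 1) : ℤ)| ≤ (s.L (m + 1) : ℤ)) := by
      rintro i j ⟨h1, h2⟩
      apply hfarm i j
      have h1' : |((w.1 + r.1 - i * (s.M (m + 1) : ℤ) : ℤ) : ℝ)| ≤ (s.L (m + 1) : ℝ) := by
        rw [← Int.cast_abs]; exact_mod_cast h1
      have h2' : |((w.2 + r.2 - j * (s.N (m + 1) : ℤ) : ℤ) : ℝ)| ≤ (s.L (m + 1) : ℝ) := by
        rw [← Int.cast_abs]; exact_mod_cast h2
      constructor
      · have e : (((rep s (m + 1) u).1 - i * s.M (m + 1) : ℤ) : ℝ)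
          = ((w.1 + r.1 - i * (s.M (m + 1) : ℤ) : ℤ) : ℝ) - (w.1 : ℝ) := by
          rw [hr]; push_cast; ring
        rw [e]
        have := abs_sub ((w.1 + r.1 - i * (s.M (m + 1) : ℤ) : ℤ) : ℝ) (w.1 : ℝ)
        linarith
      · have e : (((rep s (m + 1) u).2 - j * s.N (m + 1) : ℤ) : ℝ)
          = ((w.2 + r.2 - j * (s.N (m + 1) : ℤ) : ℤ) : ℝ) - (w.2 : ℝ) := by
          rw [hr]; push_cast; ring
        rw [e]
        have := abs_sub ((w.2 + r.2 - j * (s.N (m + 1) : ℤ) : ℤ) : ℝ) (w.2 : ℝ)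
        linarith
    have hnothole : w + r ∉ hole (s.M (m + 1)) (s.N (m + 1)) (s.L (m + 1)) := by
      rintro ⟨i, j, h1, h2⟩
      exact hnear i j ⟨h1.le, h2.le⟩
    have hnotframe : w + r ∉ frame (s.M (m + 1)) (s.N (m + 1)) (s.L (m + 1)) := by
      rintro ⟨i, j, h⟩
      exact hnear i j ⟨(le_max_left _ _).trans h.le, (le_max_right _ _).trans h.le⟩
    have hA' : w + r ∈ s.A (m + 1) := ⟨hA, hnothole⟩
    refine ⟨hA', fun e => ?_⟩
    obtain ⟨hnb, -⟩ := h5b _ _ _ _ _ _ _ (lvl h5a s m) (s.step m)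
    have hnbe : nb (s.A (m + 1)) (w + r) e = nb (s.A m) (w + r) e := hnb (w + r) hA' hnotframe e
    obtain ⟨i, j, hij⟩ := rep_congr s u m (m + 1) (by omega)
    have htr := (h3a _ _ _ _ (lvl h5a s m)).2.2.1 (w + rep s m u) e i j
    have e1 : ((w + rep s m u).1 + i * (s.M m : ℤ), (w + rep s m u).2 + j * (s.N m : ℤ)) = w + r := by
      rw [hr, hij]
      refine Prod.ext ?_ ?_
      · simp only [Prod.fst_add]; ring
      · simp only [Prod.snd_add]; ring
    rw [e1] at htr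
    rw [← ih2 e]
    have h1 := nb_trs (s.A (m + 1)) r w e
    have h2 := nb_trs (s.A m) (rep s m u) w e
    have h3 : nb (envL s u (m + 1)) w e + r = nb (envL s u m) w e + r := by
      have : nb (envL s u (m + 1)) w e + r = nb (s.A (m + 1)) (w + r) e := h1
      rw [this, hnbe, htr, ← h2]
      change _ = nb (trs (s.A m) (rep s m u)) w e + r
      rw [hr, hij]
      refine Prod.ext ?_ ?_
      · simp only [Prod.fst_add]; ring
      · simp only [Prod.snd_add]; ring
    exact add_right_cancel h3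

theorem true_nb (h3a : P3a) (h5a : P5a) (h5b : P5b) (s : Scales) (u : Ph) (ρ : ℝ) (K : ℕ)
    (hfar : ∀ m, K < m → Far s u (ρ + s.L m) m) (w : Pt) (hw : w ∈ envL s u K)
    (hw1 : |(w.1 : ℝ)| ≤ ρ) (hw2 : |(w.2 : ℝ)| ≤ ρ) (e : Fin 4) :
    nb (envL s u K) w e = nb (envB s u) w e := by
  have hup := level_up h3a h5a h5b s u ρ K hfar w hw hw1 hw2
  have hsub : envB s u ⊆ envL s u K := by
    intro z hz
    exact (P9e_holds s u z).mp hz K
  set z := nb (envL s u K) w e with hz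
  have hzmem : z ∈ envB s u := by
    rw [P9e_holds s u z]
    intro m
    rcases le_total K m with h | h
    · have h1 := (hup m h).2 e
      have h2 : nb (envL s u m) w e + rep s m u ∈ s.A m := by
        have := nb_trs (s.A m) (rep s m u) w e
        have h3 : nb (envL s u m) w e + rep s m u = nb (s.A m) (w + rep s m u) e := this
        rw [h3]
        exact (h3a _ _ _ _ (lvl h5a s m)).1 _ _
      rw [h1] at h2
      exact h2
    · have h2 : nb (envL s u K) w e + rep s K u ∈ s.A K := by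
        have := nb_trs (s.A K) (rep s K u) w e
        have h3 : nb (envL s u K) w e + rep s K u = nb (s.A K) (w + rep s K u) e := this
        rw [h3]
        exact (h3a _ _ _ _ (lvl h5a s K)).1 _ _
      exact (A_mem_rep h5a s u z m K h).mp (A_anti s h h2)
  -- equality of gaps
  have hset : gp (envB s u) w e = gp (envL s u K) w e := by
    have hne : {k : ℕ | 1 ≤ k ∧ w + (k : ℤ) • stp e ∈ envL s u K}.Nonempty := by
      obtain ⟨k, h1, -, h2⟩ := (lvl h5a s K).hit (w + rep s K u) e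
      refine ⟨k, h1, ?_⟩
      show w + (k : ℤ) • stp e + rep s K u ∈ s.A K
      have : w + (k : ℤ) • stp e + rep s K u = w + rep s K u + (k : ℤ) • stp e := by abel
      rw [this]; exact h2
    have hmem : gp (envL s u K) w e ∈ {k : ℕ | 1 ≤ k ∧ w + (k : ℤ) • stp e ∈ envL s u K} :=
      Nat.sInf_mem hne
    have hmem' : gp (envL s u K) w e ∈ {k : ℕ | 1 ≤ k ∧ w + (k : ℤ) • stp e ∈ envB s u} :=
      ⟨hmem.1, hzmem⟩
    apply le_antisymm
    · exact Nat.sInf_le hmem'
    · have hin : gp (envB s u) w e ∈ {k : ℕ | 1 ≤ k ∧ w + (k : ℤ) • stp e ∈ envB s u} :=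
        Nat.sInf_mem ⟨_, hmem'⟩
      exact Nat.sInf_le ⟨hin.1, hsub hin.2⟩
  rw [hz]
  unfold nb
  rw [hset]

end Pool.Agent.R196.PP
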