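import Pool.Agent.R196.PP.Asm6

/-! Assembly, part 7: Borel-Cantelli for the exceptional phases. -/

namespace Pool.Agent.R196.PP

open MeasureTheory ProbabilityTheory Filter Topology
open scoped ENNReal BigOperators

/-- radius around the centres -/
def Rad (s : Scales) (k : ℕ) : ℕ := s.kap (k + 1) * s.L (k + 1)

/-- points near the centres -/
def Near (s : Scales) (k : ℕ) : Set Pt :=
  {v | ∃ i j : ℤ, |v.1 - i * (s.M (k + 1) : ℤ)| ≤ (Rad s k : ℤ) ∧
    |v.2 - j * (s.N (k + 1) : ℤ)| ≤ (Rad s k : ℤ)}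

open Classical in
theorem near_line (M R : ℕ) (h : R < M) :
    ((Finset.Ico (0 : ℤ) M).filter (fun x => ∃ i : ℤ, |x - i * (M : ℤ)| ≤ (R : ℤ))).card
      ≤ 2 * R + 1 := by
  have hsub : (Finset.Ico (0 : ℤ) M).filter (fun x => ∃ i : ℤ, |x - i * (M : ℤ)| ≤ (R : ℤ))
      ⊆ Finset.Icc (0 : ℤ) R ∪ Finset.Ico ((M : ℤ) - R) M := by
    intro x hx
    rw [Finset.mem_filter, Finset.mem_Ico] at hx
    obtain ⟨⟨hx0, hxM⟩, i, hi⟩ := hx
    have hR : (R : ℤ) < M := by exact_mod_cast h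
    rw [abs_le] at hi
    rw [Finset.mem_union, Finset.mem_Icc, Finset.mem_Ico]
    rcases lt_trichotomy i 0 with h0 | h0 | h0
    · exfalso
      have : i * (M : ℤ) ≤ -1 * M := by
        apply mul_le_mul_of_nonneg_right (by omega) (by omega)
      linarith
    · subst h0; left; constructor <;> linarith
    · rcases eq_or_lt_of_le (show 1 ≤ i by omega) with h1 | h1
      · subst h1; right; constructor <;> linarith
      · exfalso
        have : 2 * (M : ℤ) ≤ i * M := by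
          apply mul_le_mul_of_nonneg_right (by omega) (by omega)
        linarith
  refine (Finset.card_le_card hsub).trans ((Finset.card_union_le _ _).trans ?_)
  rw [Int.card_Icc, Int.card_Ico]
  omega

open Classical in
theorem near_card (s : Scales) (k : ℕ) :
    (((cell (s.M (k + 1)) (s.N (k + 1))).filter (fun v => v ∈ Near s k)).card : ℝ)
      ≤ (1 / 2) ^ (k + 1) * s.W (k + 1) := by
  have hk1 := s.kap_ge1 k
  have hL1 := s.L_ge1 k
  have hM := s.M_ge k
  have hN := s.N_ge k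
  have hkap := s.kap_ge k
  have hW := s.W_ge k
  have hkapbig : (10 : ℝ) ^ 10 * 8 ^ (k + 1) ≤ s.kap (k + 1) := by
    have : (1 : ℝ) ≤ s.W k ^ 10 := one_le_pow₀ hW
    have h2 : (0 : ℝ) < (10 : ℝ) ^ 10 * 8 ^ (k + 1) := by positivity
    nlinarith
  have h8 : (1 : ℝ) ≤ 8 ^ (k + 1) := one_le_pow₀ (by norm_num)
  have hkap10 : (10 : ℝ) ≤ s.kap (k + 1) := by linarith [hkapbig, h8]
  have hRM : Rad s k < s.M (k + 1) := by
    have : (Rad s k : ℝ) < s.M (k + 1) := by
      simp only [Rad]; push_cast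
      have : (s.kap (k + 1) : ℝ) * s.L (k + 1) < (s.kap (k + 1) : ℝ) ^ 2 * s.L (k + 1) := by
        have h0 : (s.kap (k + 1) : ℝ) < (s.kap (k + 1) : ℝ) ^ 2 := by nlinarith
        nlinarith
      linarith
    exact_mod_cast this
  have hRN : Rad s k < s.N (k + 1) := by
    have : (Rad s k : ℝ) < s.N (k + 1) := by
      simp only [Rad]; push_cast
      have : (s.kap (k + 1) : ℝ) * s.L (k + 1) < (s.kap (k + 1) : ℝ) ^ 2 * s.L (k + 1) := by
        have h0 : (s.kap (k + 1) : ℝ) < (s.kap (k + 1) : ℝ) ^ 2 := by nlinarith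
        nlinarith
      linarith
    exact_mod_cast this
  have hsub : (cell (s.M (k + 1)) (s.N (k + 1))).filter (fun v => v ∈ Near s k) ⊆
      ((Finset.Ico (0 : ℤ) (s.M (k + 1))).filter
        (fun x => ∃ i : ℤ, |x - i * (s.M (k + 1) : ℤ)| ≤ (Rad s k : ℤ))) ×ˢ
      ((Finset.Ico (0 : ℤ) (s.N (k + 1))).filter
        (fun x => ∃ i : ℤ, |x - i * (s.N (k + 1) : ℤ)| ≤ (Rad s k : ℤ))) := by
    intro v hv
    rw [Finset.mem_filter, cell, Finset.mem_product] at hv
    obtain ⟨⟨h1, h2⟩, i, j, h3, h4⟩ := hv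
    rw [Finset.mem_product, Finset.mem_filter, Finset.mem_filter]
    exact ⟨⟨h1, i, h3⟩, ⟨h2, j, h4⟩⟩
  have hcard := Finset.card_le_card hsub
  rw [Finset.card_product] at hcard
  have hc2 : ((cell (s.M (k + 1)) (s.N (k + 1))).filter (fun v => v ∈ Near s k)).card
      ≤ (2 * Rad s k + 1) * (2 * Rad s k + 1) :=
    hcard.trans (Nat.mul_le_mul (near_line _ _ hRM) (near_line _ _ hRN))
  have hc3 : (((cell (s.M (k + 1)) (s.N (k + 1))).filter (fun v => v ∈ Near s k)).card : ℝ)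
      ≤ (2 * (Rad s k : ℝ) + 1) * (2 * (Rad s k : ℝ) + 1) := by exact_mod_cast hc2
  refine hc3.trans ?_
  have hRad : (Rad s k : ℝ) = s.kap (k + 1) * s.L (k + 1) := by simp only [Rad]; push_cast; ring
  set κ : ℝ := (s.kap (k + 1) : ℝ) with hκ
  set L' : ℝ := ((s.L (k + 1) : ℕ) : ℝ) with hL'
  rw [hRad]
  have h1 : 1 ≤ κ * L' := by nlinarith
  have h2 : (2 * (κ * L') + 1) * (2 * (κ * L') + 1) ≤ 9 * (κ * L') ^ 2 := by nlinarith
  refine h2.trans ?_
  have h3 : (κ ^ 2 * L') ^ 2 ≤ s.W (k + 1) := by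
    have h0 : 0 ≤ κ ^ 2 * L' := by positivity
    unfold Scales.W
    nlinarith
  have h4 : (9 : ℝ) * (κ * L') ^ 2 * 2 ^ (k + 1) ≤ (κ ^ 2 * L') ^ 2 := by
    have h5 : (2 : ℝ) ^ (k + 1) ≤ 8 ^ (k + 1) := pow_le_pow_left₀ (by norm_num) (by norm_num) _
    have h6 : (9 : ℝ) * 2 ^ (k + 1) ≤ κ ^ 2 := by
      have : (9 : ℝ) * 2 ^ (k + 1) ≤ κ := by nlinarith [hkapbig]
      nlinarith
    have h7 : (9 : ℝ) * (κ * L') ^ 2 * 2 ^ (k + 1) = (9 * 2 ^ (k + 1)) * (κ * L') ^ 2 := by ring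
    have h8' : (κ ^ 2 * L') ^ 2 = κ ^ 2 * (κ * L') ^ 2 := by ring
    rw [h7, h8']
    gcongr
  have h2p : (0 : ℝ) < 2 ^ (k + 1) := by positivity
  rw [one_div, inv_pow, inv_mul_eq_div, le_div_iff₀ h2p]
  linarith

open Classical in
/-- the bad classes -/
noncomputable def badE {s : Scales} {d : LData s} (hd : HData s d) (k : ℕ) : Finset Pt :=
  (cell (s.M (k + 1)) (s.N (k + 1))).filter
    (fun v => (v ∈ s.A (k + 1) ∧ ¬ hd.Good k v) ∨ v ∈ Near s k)

open Classical in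
theorem badE_card {s : Scales} {d : LData s} (hd : HData s d) (h3a : P3a) (h3c : P3c)
    (h5a : P5a) (h7 : P7) (h7' : P7') (k : ℕ) :
    ((badE hd k).card : ℝ) ≤ 2 * (1 / 2) ^ (k + 1) * s.W (k + 1) := by
  have h1 := hd.exc_card h3a h3c h5a h7 h7' k
  have h2 := near_card s k
  have e1 : Nat.card {v : Pt // v ∈ cell (s.M (k + 1)) (s.N (k + 1)) ∧ v ∈ s.A (k + 1) ∧
      ¬ hd.Good k v} = ((cell (s.M (k + 1)) (s.N (k + 1))).filter
        (fun v => v ∈ s.A (k + 1) ∧ ¬ hd.Good k v)).card := by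
    apply Nat.subtype_card
    intro v
    rw [Finset.mem_filter]
  rw [e1] at h1
  have e2 : badE hd k = (cell (s.M (k + 1)) (s.N (k + 1))).filter
        (fun v => v ∈ s.A (k + 1) ∧ ¬ hd.Good k v) ∪
        (cell (s.M (k + 1)) (s.N (k + 1))).filter (fun v => v ∈ Near s k) := by
    rw [badE, Finset.filter_or]
  have h3 : ((badE hd k).card : ℝ) ≤ (((cell (s.M (k + 1)) (s.N (k + 1))).filter
        (fun v => v ∈ s.A (k + 1) ∧ ¬ hd.Good k v)).card : ℝ)
        + (((cell (s.M (k + 1)) (s.N (k + 1))).filter (fun v => v ∈ Near s k)).card : ℝ) := by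
    rw [e2]
    exact_mod_cast Finset.card_union_le _ _
  linarith

open Classical in
theorem ae_good {s : Scales} {d : LData s} (hd : HData s d) (h3a : P3a) (h3c : P3c)
    (h5a : P5a) (h7 : P7) (h7' : P7') :
    ∀ᵐ u ∂muPh, ∀ᶠ k in atTop, rep s (k + 1) u ∉ badE hd k := by
  have hmeas : ∀ k, muPh {u : Ph | rep s (k + 1) u ∈ badE hd k}
      ≤ ENNReal.ofReal (2 * (1 / 2) ^ (k + 1)) := by
    intro k
    have h9 := P9d_holds (s.aM (k + 1)) (s.bN (k + 1)) (badE hd k) (by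
      intro v hv
      rw [badE, Finset.mem_filter] at hv
      exact hv.1)
    have e : {u : Ph | rep s (k + 1) u ∈ badE hd k} = {u : Ph |
      (((PadicInt.toZModPow (s.aM (k + 1)) u.1).val : ℤ),
        ((PadicInt.toZModPow (s.bN (k + 1)) u.2).val : ℤ)) ∈ badE hd k} := rfl
    rw [e, h9]
    have hc := badE_card hd h3a h3c h5a h7 h7' k
    have hWp := s.W_ge (k + 1)
    have hWc : (((3 ^ s.aM (k + 1) * 5 ^ s.bN (k + 1) : ℕ)) : ℝ) = s.W (k + 1) := by
      simp only [Scales.W, Scales.M, Scales.N]; push_cast; ring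
    rw [ENNReal.div_le_iff (by positivity) (ENNReal.natCast_ne_top _)]
    have : ENNReal.ofReal (2 * (1 / 2) ^ (k + 1)) * ((3 ^ s.aM (k + 1) * 5 ^ s.bN (k + 1) : ℕ) : ℝ≥0∞)
        = ENNReal.ofReal (2 * (1 / 2) ^ (k + 1) * s.W (k + 1)) := by
      rw [← hWc, ENNReal.ofReal_mul (p := 2 * (1 / 2) ^ (k + 1)) (by positivity),
        ENNReal.ofReal_natCast]
    rw [this, ← ENNReal.ofReal_natCast]
    exact ENNReal.ofReal_le_ofReal hc
  have hsum : ∑' k, muPh {u : Ph | rep s (k + 1) u ∈ badE hd k} ≠ ∞ := by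
    refine ne_top_of_le_ne_top ?_ (ENNReal.tsum_le_tsum hmeas)
    have hs : Summable (fun k : ℕ => (2 : ℝ) * (1 / 2) ^ (k + 1)) := by
      have := (summable_geometric_of_lt_one (by norm_num : (0 : ℝ) ≤ 1 / 2) (by norm_num)).mul_left 1
      refine this.congr fun k => ?_
      rw [pow_succ]; ring
    rw [← ENNReal.ofReal_tsum_of_nonneg (fun k => by positivity) hs]
    exact ENNReal.ofReal_ne_top
  exact ae_eventually_notMem hsum

/-- consequences at a phase that is eventually good -/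
theorem far_of_good {s : Scales} {d : LData s} (hd : HData s d) (u : Ph) (k : ℕ)
    (h : rep s (k + 1) u ∉ badE hd k) (ρ : ℝ) (hρ : ρ ≤ Rad s k) : Far s u ρ (k + 1) := by
  classical
  rintro i j ⟨h1, h2⟩
  apply h
  have hmem : rep s (k + 1) u ∈ cell (s.M (k + 1)) (s.N (k + 1)) := by
    have hM : NeZero (3 ^ s.aM (k + 1)) := ⟨by positivity⟩
    have hN : NeZero (5 ^ s.bN (k + 1)) := ⟨by positivity⟩
    simp only [rep, cell, Finset.mem_product, Finset.mem_Ico]
    refine ⟨⟨by positivity, ?_⟩, ⟨by positivity, ?_⟩⟩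
    · have := ZMod.val_lt (PadicInt.toZModPow (s.aM (k + 1)) u.1)
      exact_mod_cast this
    · have := ZMod.val_lt (PadicInt.toZModPow (s.bN (k + 1)) u.2)
      exact_mod_cast this
  rw [badE, Finset.mem_filter]
  refine ⟨hmem, Or.inr ⟨i, j, ?_, ?_⟩⟩
  · have : (((|(rep s (k + 1) u).1 - i * (s.M (k + 1) : ℤ)| : ℤ)) : ℝ) ≤ ((Rad s k : ℤ) : ℝ) := by
      rw [Int.cast_abs]; push_cast at h1 ⊢; linarith
    exact_mod_cast this
  · have : (((|(rep s (k + 1) u).2 - j * (s.N (k + 1) : ℤ)| : ℤ)) : ℝ) ≤ ((Rad s k : ℤ) : ℝ) := by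
      rw [Int.cast_abs]; push_cast at h2 ⊢; linarith
    exact_mod_cast this

theorem good_of_good {s : Scales} {d : LData s} (hd : HData s d) (u : Ph) (k : ℕ)
    (h : rep s (k + 1) u ∉ badE hd k) (hmemA : rep s (k + 1) u ∈ s.A (k + 1)) :
    hd.Good k (rep s (k + 1) u) := by
  classical
  by_contra hc
  apply h
  have hmem : rep s (k + 1) u ∈ cell (s.M (k + 1)) (s.N (k + 1)) := by
    have hM : NeZero (3 ^ s.aM (k + 1)) := ⟨by positivity⟩
    have hN : NeZero (5 ^ s.bN (k + 1)) := ⟨by positivity⟩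
    simp only [rep, cell, Finset.mem_product, Finset.mem_Ico]
    refine ⟨⟨by positivity, ?_⟩, ⟨by positivity, ?_⟩⟩
    · have := ZMod.val_lt (PadicInt.toZModPow (s.aM (k + 1)) u.1)
      exact_mod_cast this
    · have := ZMod.val_lt (PadicInt.toZModPow (s.bN (k + 1)) u.2)
      exact_mod_cast this
  rw [badE, Finset.mem_filter]
  exact ⟨hmem, Or.inl ⟨hmemA, hc⟩⟩

end Pool.Agent.R196.PP
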