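import Pool.Agent.R196.PP.Asm7

/-! Assembly, part 8: the quenched convergence of characteristic functions (P12). -/

namespace Pool.Agent.R196.PP

open MeasureTheory ProbabilityTheory Filter Topology
open scoped ENNReal BigOperators

/-- window times -/
def Tw (s : Scales) (k : ℕ) : ℕ := ((k + 1) * s.L (k + 1)) ^ 2

theorem Tw_ge (s : Scales) (k : ℕ) : k < Tw s k := by
  have h := s.L_ge1 k
  have h1 : 1 ≤ s.L (k + 1) := by exact_mod_cast h
  unfold Tw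
  have : k + 1 ≤ (k + 1) * s.L (k + 1) := Nat.le_mul_of_pos_right _ h1
  calc k < k + 1 := Nat.lt_succ_self k
    _ ≤ (k + 1) * s.L (k + 1) := this
    _ ≤ ((k + 1) * s.L (k + 1)) ^ 2 := Nat.le_self_pow (by norm_num) _

theorem window (s : Scales) (K1 n : ℕ) (h : Tw s K1 ≤ n) :
    ∃ k, K1 ≤ k ∧ Tw s k ≤ n ∧ n < Tw s (k + 1) := by
  classical
  have hex : ∃ m, K1 < m ∧ n < Tw s m := by
    refine ⟨max (K1 + 1) n, by omega, ?_⟩
    exact lt_of_le_of_lt (le_max_right _ _) (Tw_ge s _)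
  set m := Nat.find hex with hm
  obtain ⟨h1, h2⟩ := Nat.find_spec hex
  rw [← hm] at h1 h2
  obtain ⟨k, hk⟩ : ∃ k, m = k + 1 := ⟨m - 1, by omega⟩
  rw [hk] at h1 h2
  refine ⟨k, by omega, ?_, h2⟩
  rcases eq_or_lt_of_le (show K1 ≤ k by omega) with h3 | h3
  · rw [← h3]; exact h
  · by_contra hc
    push Not at hc
    have := Nat.find_min hex (m := k) (by rw [← hm, hk]; omega)
    exact this ⟨h3, hc⟩

theorem W_ge_M (s : Scales) (k : ℕ) : (s.M k : ℝ) ≤ s.W k := by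
  have h1 := s.M_pos k
  have h2 := s.N_pos k
  unfold Scales.W; nlinarith

theorem kap_ge_W (s : Scales) (k : ℕ) : s.W k ≤ s.kap (k + 1) := by
  have h1 := s.kap_ge k
  have h2 := s.W_ge k
  have h3 : s.W k ≤ s.W k ^ 10 := by
    have := pow_le_pow_right₀ h2 (show 1 ≤ 10 by norm_num)
    simpa using this
  have h4 : (1 : ℝ) ≤ 8 ^ (k + 1) := one_le_pow₀ (by norm_num)
  have h5 : (1 : ℝ) ≤ (10 : ℝ) ^ 10 * 8 ^ (k + 1) := by nlinarith
  have h6 : 0 ≤ s.W k ^ 10 := by positivity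
  nlinarith

theorem kap8 (s : Scales) (k : ℕ) : (10 : ℝ) ^ 10 * 8 ^ (k + 1) ≤ s.kap (k + 1) := by
  have h1 := s.kap_ge k
  have h2 := s.W_ge k
  have h3 : (1 : ℝ) ≤ s.W k ^ 10 := one_le_pow₀ h2
  have h4 : (0 : ℝ) < (10 : ℝ) ^ 10 * 8 ^ (k + 1) := by positivity
  nlinarith

theorem kap10 (s : Scales) (k : ℕ) : (10 : ℝ) ≤ s.kap (k + 1) := by
  have h1 := kap8 s k
  have h4 : (1 : ℝ) ≤ 8 ^ (k + 1) := one_le_pow₀ (by norm_num)
  nlinarith

theorem kap_le_L (s : Scales) (k : ℕ) : (s.kap (k + 1) : ℝ) ≤ s.L (k + 1) := by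
  have h1 := s.L_ge k
  have h2 := s.kap_ge1 k
  have := pow_le_pow_right₀ h2 (show 1 ≤ 6 by norm_num)
  simp only [pow_one] at this
  linarith

theorem Rad_real (s : Scales) (k : ℕ) : (Rad s k : ℝ) = s.kap (k + 1) * s.L (k + 1) := by
  simp only [Rad]; push_cast; ring

theorem Rad_step (s : Scales) (k : ℕ) : (Rad s k : ℝ) ≤ Rad s (k + 1) := by
  rw [Rad_real, Rad_real]
  have h1 := s.M_ge k
  have h2 := W_ge_M s (k + 1)
  have h3 := kap_ge_W s (k + 1)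
  have h4 := kap_le_L s (k + 1)
  have h5 := s.kap_ge1 k
  have h6 := s.kap_ge1 (k + 1)
  have h7 := s.L_ge1 k
  have h8 : (s.kap (k + 1) : ℝ) * s.L (k + 1) ≤ (s.kap (k + 1) : ℝ) ^ 2 * s.L (k + 1) := by
    have : (s.kap (k + 1) : ℝ) ≤ (s.kap (k + 1) : ℝ) ^ 2 := by nlinarith
    exact mul_le_mul_of_nonneg_right this (by linarith)
  have h9 : (s.L (k + 1 + 1) : ℝ) ≤ s.kap (k + 1 + 1) * s.L (k + 1 + 1) := by
    have := s.L_ge1 (k + 1)
    nlinarith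
  linarith

theorem Rad_mono (s : Scales) {k m : ℕ} (h : k ≤ m) : (Rad s k : ℝ) ≤ Rad s m := by
  induction m, h using Nat.le_induction with
  | base => exact le_rfl
  | succ m _ ih => exact ih.trans (Rad_step s m)

theorem L_mono (s : Scales) {k m : ℕ} (h : k ≤ m) : (s.L k : ℝ) ≤ s.L m := by
  induction m, h using Nat.le_induction with
  | base => exact le_rfl
  | succ m _ ih =>
    have : 25 * s.L m + 4 ≤ s.L (m + 1) := (s.step m).growL
    have : 25 * (s.L m : ℝ) + 4 ≤ s.L (m + 1) := by exact_mod_cast this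
    have h0 : (0 : ℝ) ≤ s.L m := by positivity
    linarith

/-- a phase is eventually good -/
def EG {s : Scales} {d : LData s} (hd : HData s d) (u : Ph) : Prop :=
  (∀ᶠ k in atTop, rep s (k + 1) u ∉ badE hd k) ∧ (0 : Pt) ∈ envB s u

theorem rep_mem (s : Scales) (u : Ph) (h : (0 : Pt) ∈ envB s u) (k : ℕ) : rep s k u ∈ s.A k := by
  have := (P9e_holds s u 0).mp h k
  simpa using this

theorem sig_lim {s : Scales} {d : LData s} (hd : HData s d) (h1b : P1b) (h3a : P3a) (h5a : P5a)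
    (h5b : P5b) (u : Ph) (hu : EG hd u) (a b : ℝ) :
    ∃ ℓ : ℝ, Tendsto (fun k => d.sig k a b) atTop (𝓝 ℓ) := by
  obtain ⟨h1, h0⟩ := hu
  obtain ⟨K0, hK0⟩ := eventually_atTop.mp h1
  have hc : CauchySeq (fun n => d.sig (n + K0) a b) := by
    refine cauchySeq_of_le_geometric (1 / 2) ((|a| + |b|) ^ 2) (by norm_num) fun n => ?_
    have hk := hK0 (n + K0) (by omega)
    have hmem := rep_mem s u h0 (n + K0 + 1)
    have hg := good_of_good hd u (n + K0) hk hmem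
    have := hd.sig_step h1b h3a h5a h5b (n + K0) a b _ hmem hg
    rw [dist_comm, Real.dist_eq]
    have e : n + 1 + K0 = n + K0 + 1 := by ring
    rw [e]
    refine this.trans ?_
    refine mul_le_mul_of_nonneg_left ?_ (by positivity)
    exact pow_le_pow_of_le_one (by norm_num) (by norm_num) (by omega)
  obtain ⟨ℓ, hℓ⟩ := cauchySeq_tendsto_of_complete hc
  exact ⟨ℓ, (tendsto_add_atTop_iff_nat K0).mp hℓ⟩

theorem window_est {s : Scales} {d : LData s} (hd : HData s d) (h1a : P1a) (h1b : P1b)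
    (h1c : P1c) (h1d : P1d) (h1e : P1e) (h1f : P1f) (h3a : P3a) (h5a : P5a)
    (h5b : P5b) (u : Ph) (h0 : (0 : Pt) ∈ envB s u) (K0 : ℕ)
    (hK0 : ∀ k, K0 ≤ k → rep s (k + 1) u ∉ badE hd k) (a b s0 : ℝ)
    (hs0 : ∀ k, d.sig k a b ≤ s0) (hs1 : ∀ k, d.sig k 1 0 ≤ s0) (hs2 : ∀ k, d.sig k 0 1 ≤ s0)
    (k n : ℕ) (hk : K0 ≤ k) (hn1 : Tw s k ≤ n) (hn2 : n < Tw s (k + 1)) :
    ‖EV (nb (envB s u)) (fun v => Complex.exp (Complex.I *
      (((√(n : ℝ))⁻¹ * lin a b v : ℝ) : ℂ))) n 0 - ((Real.exp (-(d.sig k a b) / 2) : ℝ) : ℂ)‖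
      ≤ (|a| + |b|) ^ 2 * (1 / 2) ^ (k + 1) + Cst (|a| + |b|) s0 / (k + 1)
        + 32 * (2 * s0 + 14) / (k + 1) := by
  have hmem := rep_mem s u h0 (k + 1)
  have hgood := good_of_good hd u k (hK0 k hk) hmem
  have hnpos : 1 ≤ n := by have := Tw_ge s k; omega
  have hn0 : (1 : ℝ) ≤ n := by exact_mod_cast hnpos
  have hnr : (((k : ℝ) + 1) * s.L (k + 1)) ^ 2 ≤ n := by
    have : ((Tw s k : ℕ) : ℝ) ≤ n := by exact_mod_cast hn1
    simpa [Tw] using this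
  have hL1 := s.L_ge1 k
  have hk0 : (0 : ℝ) ≤ k := by positivity
  have hHn : LData.Hc s k ≤ n := by
    have h1 := HData.Hc_le_L (s := s) k
    have h2 : (s.L (k + 1) : ℝ) ≤ (((k : ℝ) + 1) * s.L (k + 1)) ^ 2 := by
      have h3 : (s.L (k + 1) : ℝ) ≤ ((k : ℝ) + 1) * s.L (k + 1) := by nlinarith
      nlinarith
    linarith
  set r := rep s (k + 1) u with hr
  have hlev := hd.level_est h1a h1b h1e h1f h3a h5a h5b k a b r hmem hgood n hnpos hnr s0 (hs0 k)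
  set F0 : Pt → ℂ := fun v => Complex.exp (Complex.I * (((√(n : ℝ))⁻¹ * lin a b v : ℝ) : ℂ)) with hF0
  -- translate
  have htr : EV (nb (envL s u (k + 1))) F0 n 0 = EV (nb (s.A (k + 1))) (fun w => Complex.exp (Complex.I *
        (((√(n : ℝ))⁻¹ * lin a b (w - r) : ℝ) : ℂ))) n r := by
    have h := EV_trs (s.A (k + 1)) r (fun w => Complex.exp (Complex.I *
        (((√(n : ℝ))⁻¹ * lin a b (w - r) : ℝ) : ℂ))) n 0
    rw [zero_add] at h
    rw [← h]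
    simp only [add_sub_cancel_right]
    rfl
  rw [← htr] at hlev
  -- the ball
  set R : ℝ := (Rad s (k + 1) : ℝ) / 4 with hR
  have hkap := kap10 s (k + 1)
  have hL2 := s.L_ge1 (k + 1)
  have hRadr := Rad_real s (k + 1)
  have hRpos : 0 < R := by
    rw [hR, hRadr]
    have : (0 : ℝ) < s.kap (k + 1 + 1) := by linarith
    positivity
  set Ball : Set Pt := {x | |d.Phi (k + 1) 1 0 x - d.Phi (k + 1) 1 0 r| ≤ R ∧
      |d.Phi (k + 1) 0 1 x - d.Phi (k + 1) 0 1 r| ≤ R} with hBall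
  have hexit := hd.exit_est h1b h1c h3a h5a h5b k r hmem hgood n hnpos hHn s0 (hs1 k) (hs2 k) R hRpos
  have hfar : ∀ m, k + 1 < m → Far s u ((R + 10 * s.L (k + 1)) + s.L m) m := by
    intro m hm
    obtain ⟨m', rfl⟩ : ∃ m', m = m' + 1 := ⟨m - 1, by omega⟩
    refine far_of_good hd u m' (hK0 m' (by omega)) _ ?_
    have h1 := Rad_mono s (show k + 1 ≤ m' by omega)
    have h2 := L_mono s (show k + 1 + 1 ≤ m' + 1 by omega)
    have h3 : 25 * (s.L (k + 1) : ℝ) + 4 ≤ s.L (k + 1 + 1) := by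
      have : 25 * s.L (k + 1) + 4 ≤ s.L (k + 1 + 1) := (s.step (k + 1)).growL
      exact_mod_cast this
    have h4 := Rad_real s m'
    have h5 := kap10 s m'
    have h6 := s.L_ge1 m'
    have h7 : 10 * (s.L (m' + 1) : ℝ) ≤ Rad s m' := by rw [h4]; nlinarith
    rw [hR]
    linarith
  have hmemL : ∀ x ∈ envL s u (k + 1), ∀ e, nb (envL s u (k + 1)) x e ∈ envL s u (k + 1) := by
    intro x _ e
    show nb (envL s u (k + 1)) x e + r ∈ s.A (k + 1)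
    have h3 : nb (envL s u (k + 1)) x e + r = nb (s.A (k + 1)) (x + r) e :=
      nb_trs (s.A (k + 1)) r x e
    rw [h3]
    exact (h3a _ _ _ _ (lvl h5a s (k + 1))).1 _ _
  have hcoup := h1d (nb (envL s u (k + 1))) (nb (envB s u)) (trs Ball r) (envL s u (k + 1)) hmemL
    (by
      intro x hx hxB e
      have hxA : x + r ∈ s.A (k + 1) := hx
      obtain ⟨hb1, hb2⟩ : |d.Phi (k + 1) 1 0 (x + r) - d.Phi (k + 1) 1 0 r| ≤ R ∧
        |d.Phi (k + 1) 0 1 (x + r) - d.Phi (k + 1) 0 1 r| ≤ R := hxB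
      refine true_nb h3a h5a h5b s u (R + 10 * s.L (k + 1)) (k + 1) hfar x hx ?_ ?_ e
      · have c1 := d.bPhi (k + 1) 1 0 (x + r) hxA
        have c2 := d.bPhi (k + 1) 1 0 r hmem
        simp only [abs_one, abs_zero, add_zero, mul_one] at c1 c2
        have e1 : (x.1 : ℝ) = (lin 1 0 (x + r) - lin 1 0 r) := by
          simp only [lin, Prod.fst_add, Prod.snd_add]; push_cast; ring
        rw [abs_le] at c1 c2 hb1 ⊢
        rw [e1]
        constructor <;> linarith [c1.1, c1.2, c2.1, c2.2, hb1.1, hb1.2]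
      · have c1 := d.bPhi (k + 1) 0 1 (x + r) hxA
        have c2 := d.bPhi (k + 1) 0 1 r hmem
        simp only [abs_one, abs_zero, zero_add, mul_one] at c1 c2
        have e1 : (x.2 : ℝ) = (lin 0 1 (x + r) - lin 0 1 r) := by
          simp only [lin, Prod.fst_add, Prod.snd_add]; push_cast; ring
        rw [abs_le] at c1 c2 hb2 ⊢
        rw [e1]
        constructor <;> linarith [c1.1, c1.2, c2.1, c2.2, hb2.1, hb2.2])
    F0 1 (by
      intro x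
      rw [hF0]
      simp only
      rw [mul_comm]
      exact (Complex.norm_exp_ofReal_mul_I _).le) n 0
    (by
      show (0 : Pt) + r ∈ s.A (k + 1)
      rw [zero_add]; exact hmem)
  have hex2 : ExitP (nb (envL s u (k + 1))) (trs Ball r) n 0 = ExitP (nb (s.A (k + 1))) Ball n r := by
    have := ExitP_trs (s.A (k + 1)) Ball r n 0
    rw [zero_add] at this
    exact this
  rw [hex2] at hcoup
  have hs00 : 0 ≤ s0 := (d.sig_nonneg h5a k a b).trans (hs0 k)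
  -- numeric bound of the exit probability
  have hnum : n * (2 * s0 + 14) / R ^ 2 ≤ 16 * (2 * s0 + 14) / (k + 1) := by
    have hn2r : (n : ℝ) ≤ (((k : ℝ) + 1 + 1) * s.L (k + 1 + 1)) ^ 2 := by
      have : (n : ℝ) ≤ ((Tw s (k + 1) : ℕ) : ℝ) := by exact_mod_cast hn2.le
      refine this.trans (le_of_eq ?_)
      simp [Tw]
    have hkap8 := kap8 s (k + 1)
    have hcube : ((k : ℝ) + 1 + 1) ^ 2 * ((k : ℝ) + 1) ≤ (s.kap (k + 1 + 1) : ℝ) ^ 2 := by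
      have h1 : ((k + 1 + 1 : ℕ) : ℝ) ≤ 2 ^ (k + 1 + 1) := by
        exact_mod_cast (Nat.lt_two_pow_self (n := k + 1 + 1)).le
      have h1' : (k : ℝ) + 1 + 1 ≤ 2 ^ (k + 1 + 1) := by push_cast at h1; exact h1
      have h2 : ((k : ℝ) + 1 + 1) ^ 3 ≤ 8 ^ (k + 1 + 1) := by
        have : ((k : ℝ) + 1 + 1) ^ 3 ≤ (2 ^ (k + 1 + 1)) ^ 3 := pow_le_pow_left₀ (by positivity) h1' 3
        refine this.trans (le_of_eq ?_)
        rw [← pow_mul, mul_comm, pow_mul]; norm_num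
      have h3 : (8 : ℝ) ^ (k + 1 + 1) ≤ s.kap (k + 1 + 1) := by
        have h8p : (0 : ℝ) < 8 ^ (k + 1 + 1) := by positivity
        nlinarith
      have h4 : (s.kap (k + 1 + 1) : ℝ) ≤ (s.kap (k + 1 + 1) : ℝ) ^ 2 := by nlinarith
      have h5 : ((k : ℝ) + 1 + 1) ^ 2 * ((k : ℝ) + 1) ≤ ((k : ℝ) + 1 + 1) ^ 3 := by
        have : ((k : ℝ) + 1 + 1) ^ 3 = ((k : ℝ) + 1 + 1) ^ 2 * ((k : ℝ) + 1 + 1) := by ring
        rw [this]
        gcongr
        linarith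
      linarith
    rw [div_le_div_iff₀ (by positivity) (by positivity)]
    have e1 : 16 * R ^ 2 = (s.kap (k + 1 + 1) : ℝ) ^ 2 * (s.L (k + 1 + 1) : ℝ) ^ 2 := by
      rw [hR, hRadr]; ring
    have h6 : (n : ℝ) * ((k : ℝ) + 1) ≤ 16 * R ^ 2 := by
      rw [e1]
      calc (n : ℝ) * ((k : ℝ) + 1) ≤ (((k : ℝ) + 1 + 1) * s.L (k + 1 + 1)) ^ 2 * ((k : ℝ) + 1) := by
            gcongr
        _ = (((k : ℝ) + 1 + 1) ^ 2 * ((k : ℝ) + 1)) * (s.L (k + 1 + 1) : ℝ) ^ 2 := by ring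
        _ ≤ (s.kap (k + 1 + 1) : ℝ) ^ 2 * (s.L (k + 1 + 1) : ℝ) ^ 2 := by gcongr
    calc (n : ℝ) * (2 * s0 + 14) * ((k : ℝ) + 1) = (2 * s0 + 14) * ((n : ℝ) * ((k : ℝ) + 1)) := by ring
      _ ≤ (2 * s0 + 14) * (16 * R ^ 2) := by gcongr
      _ = 16 * (2 * s0 + 14) * R ^ 2 := by ring
  have hcoup2 : ‖EV (nb (envL s u (k + 1))) F0 n 0 - EV (nb (envB s u)) F0 n 0‖
      ≤ 32 * (2 * s0 + 14) / (k + 1) := by
    refine hcoup.trans ?_
    have h1 : ExitP (nb (s.A (k + 1))) Ball n r ≤ 16 * (2 * s0 + 14) / (k + 1) := hexit.trans hnum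
    calc 2 * 1 * ExitP (nb (s.A (k + 1))) Ball n r ≤ 2 * 1 * (16 * (2 * s0 + 14) / (k + 1)) := by gcongr
      _ = _ := by ring
  have htri : ‖EV (nb (envB s u)) F0 n 0 - ((Real.exp (-(d.sig k a b) / 2) : ℝ) : ℂ)‖ ≤
      ‖EV (nb (envL s u (k + 1))) F0 n 0 - EV (nb (envB s u)) F0 n 0‖
      + ‖EV (nb (envL s u (k + 1))) F0 n 0 - ((Real.exp (-(d.sig k a b) / 2) : ℝ) : ℂ)‖ := by
    have := norm_sub_le (EV (nb (envL s u (k + 1))) F0 n 0 - ((Real.exp (-(d.sig k a b) / 2) : ℝ) : ℂ))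
      (EV (nb (envL s u (k + 1))) F0 n 0 - EV (nb (envB s u)) F0 n 0)
    have e : (EV (nb (envL s u (k + 1))) F0 n 0 - ((Real.exp (-(d.sig k a b) / 2) : ℝ) : ℂ))
      - (EV (nb (envL s u (k + 1))) F0 n 0 - EV (nb (envB s u)) F0 n 0)
      = EV (nb (envB s u)) F0 n 0 - ((Real.exp (-(d.sig k a b) / 2) : ℝ) : ℂ) := by ring
    rw [e] at this
    linarith
  linarith

theorem tendsto_inv_succ (c : ℝ) : Tendsto (fun k : ℕ => c / ((k : ℝ) + 1)) atTop (𝓝 0) := by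
  have h := tendsto_one_div_add_atTop_nhds_zero_nat (𝕜 := ℝ)
  have := h.const_mul c
  simp only [mul_zero] at this
  refine this.congr fun k => ?_
  ring

theorem cf_tendsto {s : Scales} {d : LData s} (hd : HData s d) (h1a : P1a) (h1b : P1b)
    (h1c : P1c) (h1d : P1d) (h1e : P1e) (h1f : P1f) (h3a : P3a) (h5a : P5a)
    (h5b : P5b) (u : Ph) (hu : EG hd u) (a b ℓ ℓ1 ℓ2 : ℝ)
    (hℓ : Tendsto (fun k => d.sig k a b) atTop (𝓝 ℓ))
    (hℓ1 : Tendsto (fun k => d.sig k 1 0) atTop (𝓝 ℓ1))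
    (hℓ2 : Tendsto (fun k => d.sig k 0 1) atTop (𝓝 ℓ2)) :
    Tendsto (fun n : ℕ => EV (nb (envB s u)) (fun v => Complex.exp (Complex.I *
      (((√(n : ℝ))⁻¹ * lin a b v : ℝ) : ℂ))) n 0) atTop (𝓝 ((Real.exp (-ℓ / 2) : ℝ) : ℂ)) := by
  obtain ⟨h1, h0⟩ := hu
  obtain ⟨K0, hK0⟩ := eventually_atTop.mp h1
  obtain ⟨c0, hc0⟩ := hℓ.bddAbove_range
  obtain ⟨c1, hc1⟩ := hℓ1.bddAbove_range
  obtain ⟨c2, hc2⟩ := hℓ2.bddAbove_range
  set s0 := max c0 (max c1 c2) with hs0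
  have b0 : ∀ k, d.sig k a b ≤ s0 := fun k => (hc0 ⟨k, rfl⟩).trans (le_max_left _ _)
  have b1 : ∀ k, d.sig k 1 0 ≤ s0 := fun k => (hc1 ⟨k, rfl⟩).trans
    ((le_max_left _ _).trans (le_max_right _ _))
  have b2 : ∀ k, d.sig k 0 1 ≤ s0 := fun k => (hc2 ⟨k, rfl⟩).trans
    ((le_max_right _ _).trans (le_max_right _ _))
  set er : ℕ → ℝ := fun k => (|a| + |b|) ^ 2 * (1 / 2) ^ (k + 1) + Cst (|a| + |b|) s0 / (k + 1)
        + 32 * (2 * s0 + 14) / (k + 1)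
        + |Real.exp (-(d.sig k a b) / 2) - Real.exp (-ℓ / 2)| with her
  have herlim : Tendsto er atTop (𝓝 0) := by
    have t1 : Tendsto (fun k : ℕ => (|a| + |b|) ^ 2 * (1 / 2 : ℝ) ^ (k + 1)) atTop (𝓝 0) := by
      have h := (tendsto_pow_atTop_nhds_zero_of_lt_one (by norm_num : (0 : ℝ) ≤ 1 / 2) (by norm_num))
      have h2 := ((tendsto_add_atTop_iff_nat 1).mpr h).const_mul ((|a| + |b|) ^ 2)
      simpa using h2
    have t2 := tendsto_inv_succ (Cst (|a| + |b|) s0)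
    have t3 := tendsto_inv_succ (32 * (2 * s0 + 14))
    have t4 : Tendsto (fun k => |Real.exp (-(d.sig k a b) / 2) - Real.exp (-ℓ / 2)|) atTop (𝓝 0) := by
      have h2 : Tendsto (fun k => Real.exp (-(d.sig k a b) / 2)) atTop (𝓝 (Real.exp (-ℓ / 2))) :=
        (Real.continuous_exp.tendsto _).comp ((hℓ.neg).div_const 2)
      have h3 := (h2.sub_const (Real.exp (-ℓ / 2))).abs
      simpa using h3
    have := ((t1.add t2).add t3).add t4
    simpa [her] using this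
  rw [Metric.tendsto_atTop]
  intro ε hε
  obtain ⟨K1, hK1⟩ := (Metric.tendsto_atTop.mp herlim) ε hε
  refine ⟨Tw s (max K0 K1), fun n hn => ?_⟩
  obtain ⟨k, hk1, hk2, hk3⟩ := window s (max K0 K1) n hn
  have hw := window_est hd h1a h1b h1c h1d h1e h1f h3a h5a h5b u h0 K0 hK0 a b s0 b0 b1 b2 k n
    ((le_max_left _ _).trans hk1) hk2 hk3
  have he := hK1 k ((le_max_right _ _).trans hk1)
  rw [Real.dist_eq, sub_zero] at he
  have he2 : er k < ε := (le_abs_self _).trans_lt he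
  rw [dist_eq_norm]
  have htri : ‖EV (nb (envB s u)) (fun v => Complex.exp (Complex.I *
      (((√(n : ℝ))⁻¹ * lin a b v : ℝ) : ℂ))) n 0 - ((Real.exp (-ℓ / 2) : ℝ) : ℂ)‖ ≤
      ‖EV (nb (envB s u)) (fun v => Complex.exp (Complex.I *
      (((√(n : ℝ))⁻¹ * lin a b v : ℝ) : ℂ))) n 0 - ((Real.exp (-(d.sig k a b) / 2) : ℝ) : ℂ)‖
      + ‖((Real.exp (-(d.sig k a b) / 2) : ℝ) : ℂ) - ((Real.exp (-ℓ / 2) : ℝ) : ℂ)‖ := by
    have := norm_add_le (EV (nb (envB s u)) (fun v => Complex.exp (Complex.I *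
      (((√(n : ℝ))⁻¹ * lin a b v : ℝ) : ℂ))) n 0 - ((Real.exp (-(d.sig k a b) / 2) : ℝ) : ℂ))
      (((Real.exp (-(d.sig k a b) / 2) : ℝ) : ℂ) - ((Real.exp (-ℓ / 2) : ℝ) : ℂ))
    simpa using this
  have hn3 : ‖((Real.exp (-(d.sig k a b) / 2) : ℝ) : ℂ) - ((Real.exp (-ℓ / 2) : ℝ) : ℂ)‖
      = |Real.exp (-(d.sig k a b) / 2) - Real.exp (-ℓ / 2)| := by
    rw [← Complex.ofReal_sub, Complex.norm_real, Real.norm_eq_abs]
  rw [hn3] at htri
  refine lt_of_le_of_lt (htri.trans ?_) he2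
  simp only [her]
  linarith

theorem P12_of (h1a : P1a) (h1b : P1b)
    (h1c : P1c) (h1d : P1d) (h1e : P1e) (h1f : P1f) (h3a : P3a) (h3c : P3c) (h4a : P4a) (h5a : P5a)
    (h5b : P5b) (h6a : P6a) (h6b : P6b) (h7 : P7) (h7' : P7') : P12 := by
  intro s
  obtain ⟨d⟩ := exists_LData h5a h6a h6b s
  obtain ⟨hd⟩ := exists_HData h3a h5a h4a s d
  have hae := ae_good hd h3a h3c h5a h7 h7'
  by_cases hex : ∃ u, EG hd u
  · obtain ⟨u0, hu0⟩ := hex
    obtain ⟨ℓ1, hℓ1⟩ := sig_lim hd h1b h3a h5a h5b u0 hu0 1 0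
    obtain ⟨ℓ2, hℓ2⟩ := sig_lim hd h1b h3a h5a h5b u0 hu0 0 1
    obtain ⟨ℓ3, hℓ3⟩ := sig_lim hd h1b h3a h5a h5b u0 hu0 1 1
    have hgen : ∀ a b : ℝ, Tendsto (fun k => d.sig k a b) atTop
        (𝓝 (a ^ 2 * ℓ1 + 2 * a * b * ((ℓ3 - ℓ1 - ℓ2) / 2) + b ^ 2 * ℓ2)) := by
      intro a b
      have h := ((hℓ1.const_mul (a ^ 2 - a * b)).add (hℓ2.const_mul (b ^ 2 - a * b))).add
        (hℓ3.const_mul (a * b))
      have e : (a ^ 2 - a * b) * ℓ1 + (b ^ 2 - a * b) * ℓ2 + a * b * ℓ3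
        = a ^ 2 * ℓ1 + 2 * a * b * ((ℓ3 - ℓ1 - ℓ2) / 2) + b ^ 2 * ℓ2 := by ring
      rw [e] at h
      exact h.congr fun k => (d.sig_bilin k a b).symm
    refine ⟨ℓ1, (ℓ3 - ℓ1 - ℓ2) / 2, ℓ2, fun a b => ?_, ?_⟩
    · exact ge_of_tendsto' (hgen a b) fun k => d.sig_nonneg h5a k a b
    · filter_upwards [hae] with u hu h0 a b
      exact cf_tendsto hd h1a h1b h1c h1d h1e h1f h3a h5a h5b u ⟨hu, h0⟩ a b _ ℓ1 ℓ2 (hgen a b)
        hℓ1 hℓ2
  · refine ⟨0, 0, 0, fun a b => by simp, ?_⟩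
    filter_upwards [hae] with u hu h0
    exact absurd ⟨u, hu, h0⟩ hex

end Pool.Agent.R196.PP
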