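import Pool.Agent.R196.PP.Stmt

/-!
Working definitions for MP_68f671_pr: abstract 4-neighbour chains and plane environments in the
coordinates `(p,q) = (x+y, x-y)`.
-/

namespace Pool.Agent.R196.PP

open MeasureTheory ProbabilityTheory Filter Topology
open scoped ENNReal BigOperators

/-! ### Abstract 4-neighbour chains -/
section Chain
variable {X : Type*}

/-- the averaging operator `P f (x) = (1/4) Σ_e f(nx x e)` -/
noncomputable def PR (nx : X → Fin 4 → X) (f : X → ℝ) (x : X) : ℝ := (1 / 4) * ∑ e, f (nx x e)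

/-- `SR nx f n x = Σ_{j<n} (P^j f)(x)`, by recursion -/
noncomputable def SR (nx : X → Fin 4 → X) (f : X → ℝ) : ℕ → X → ℝ
  | 0, _ => 0
  | n + 1, x => f x + PR nx (SR nx f n) x

/-- `EV nx F n x = E_x F(X_n)` -/
noncomputable def EV (nx : X → Fin 4 → X) (F : X → ℂ) : ℕ → X → ℂ
  | 0, x => F x
  | n + 1, x => (1 / 4) * ∑ e, EV nx F n (nx x e)

/-- `CF nx c θ n x = E_x exp(iθ Σ_{j<n} c(X_j,e_j))` -/
noncomputable def CF (nx : X → Fin 4 → X) (c : X → Fin 4 → ℝ) (θ : ℝ) : ℕ → X → ℂ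
  | 0, _ => 1
  | n + 1, x => (1 / 4) * ∑ e, Complex.exp (Complex.I * ((θ * c x e : ℝ) : ℂ)) * CF nx c θ n (nx x e)

open Classical in
/-- probability to be outside `B` at some time `≤ n` -/
noncomputable def ExitP (nx : X → Fin 4 → X) (B : Set X) : ℕ → X → ℝ
  | 0, x => if x ∈ B then 0 else 1
  | n + 1, x => if x ∈ B then PR nx (ExitP nx B n) x else 1

/-- increments of a function along the chain -/
noncomputable def grad (nx : X → Fin 4 → X) (φ : X → ℝ) (x : X) (e : Fin 4) : ℝ := φ (nx x e) - φ x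

/-- `Vf c x = (1/4) Σ_e c(x,e)^2` -/
noncomputable def Vf (c : X → Fin 4 → ℝ) (x : X) : ℝ := (1 / 4) * ∑ e, (c x e) ^ 2

end Chain

/-! ### The plane in the coordinates `(p,q) = (x+y,x-y)` -/

abbrev Pt : Type := ℤ × ℤ

/-- the four diagonal steps: `e₁, e₂, -e₁, -e₂` in the `(p,q)`-coordinates -/
def stp : Fin 4 → Pt := ![(1, 1), (1, -1), (-1, -1), (-1, 1)]

/-- number of steps to the first point of `A` strictly after `v` in direction `e` -/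
noncomputable def gp (A : Set Pt) (v : Pt) (e : Fin 4) : ℕ :=
  sInf {k : ℕ | 1 ≤ k ∧ v + (k : ℤ) • stp e ∈ A}

/-- the first point of `A` strictly after `v` in direction `e` -/
noncomputable def nb (A : Set Pt) (v : Pt) (e : Fin 4) : Pt := v + (gp A v e : ℤ) • stp e

/-- periodicity of functions under `Mℤ × Nℤ` -/
def Per {α : Type*} (M N : ℕ) (f : Pt → α) : Prop :=
  (∀ v : Pt, f (v.1 + M, v.2) = f v) ∧ (∀ v : Pt, f (v.1, v.2 + N) = f v)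

/-- the fundamental cell `[0,M) × [0,N)` -/
noncomputable def cell (M N : ℕ) : Finset Pt := Finset.Ico (0 : ℤ) M ×ˢ Finset.Ico (0 : ℤ) N

open Classical in
/-- sum over the points of `A` in the fundamental cell -/
noncomputable def csum (M N : ℕ) (A : Set Pt) (f : Pt → ℝ) : ℝ :=
  ∑ v ∈ (cell M N).filter (· ∈ A), f v

/-- A good environment: periodic, symmetric, with bounded gaps, and with the four families of full
lines `p ≡ (M±1)/2 (mod M)`, `q ≡ (N±1)/2 (mod N)`. -/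
structure GEnv (M N Lm : ℕ) (A : Set Pt) : Prop where
  oddM : Odd M
  oddN : Odd N
  cop : Nat.Coprime M N
  perM : ∀ v : Pt, (v.1 + M, v.2) ∈ A ↔ v ∈ A
  perN : ∀ v : Pt, (v.1, v.2 + N) ∈ A ↔ v ∈ A
  neg : ∀ v : Pt, -v ∈ A ↔ v ∈ A
  hit : ∀ (v : Pt) (e : Fin 4), ∃ k : ℕ, 1 ≤ k ∧ k ≤ 2 * Lm + 1 ∧ v + (k : ℤ) • stp e ∈ A
  lineM : ∀ v : Pt, (∃ i : ℤ, 2 * v.1 = (2 * i + 1) * M + 1 ∨ 2 * v.1 = (2 * i + 1) * M - 1) → v ∈ A
  lineN : ∀ v : Pt, (∃ i : ℤ, 2 * v.2 = (2 * i + 1) * N + 1 ∨ 2 * v.2 = (2 * i + 1) * N - 1) → v ∈ A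

/-- the holes of one level -/
def hole (M N L : ℕ) : Set Pt := {v | ∃ i j : ℤ, |v.1 - i * M| < L ∧ |v.2 - j * N| < L}

/-- the frames (boundaries of the holes) of one level -/
def frame (M N L : ℕ) : Set Pt := {v | ∃ i j : ℤ, max |v.1 - i * M| |v.2 - j * N| = L}

/-- conditions on the parameters of the next level -/
structure StepOK (M N Lm M' N' L' : ℕ) : Prop where
  dM : M ∣ M'
  dN : N ∣ N'
  oddM : Odd M'
  oddN : Odd N'
  cop : Nat.Coprime M' N'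
  congM : ∃ c : ℕ, 2 * L' + 1 = (2 * c + 1) * M
  congN : ∃ c : ℕ, 2 * L' + 1 = (2 * c + 1) * N
  bigM : 8 * L' + 5 ≤ M'
  bigN : 8 * L' + 5 ≤ N'
  growL : 25 * Lm + 4 ≤ L'

/-- `φ` is a harmonic coordinate with slope `(a,b)` for the environment `A` -/
structure HC (M N : ℕ) (A : Set Pt) (a b : ℝ) (φ : Pt → ℝ) : Prop where
  harm : ∀ v ∈ A, ∑ e, grad (nb A) φ v e = 0
  trM : ∀ v : Pt, φ (v.1 + M, v.2) = φ v + a * M
  trN : ∀ v : Pt, φ (v.1, v.2 + N) = φ v + b * N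
  odd : ∀ v : Pt, φ (-v) = -φ v

/-! ### Scales -/

/-- The scales: `M k = 3^(aM k)`, `N k = 5^(bN k)`, hole radius `L k`, `kap k` the ratio
parameter. Level `0` has no holes (`M 0 = N 0 = 1`, `L 0 = 0`). -/
structure Scales where
  aM : ℕ → ℕ
  bN : ℕ → ℕ
  L : ℕ → ℕ
  kap : ℕ → ℕ
  aM0 : aM 0 = 0
  bN0 : bN 0 = 0
  L0 : L 0 = 0
  aMs : ∀ k, aM k ≤ aM (k + 1)
  bNs : ∀ k, bN k ≤ bN (k + 1)
  step : ∀ k, StepOK (3 ^ aM k) (5 ^ bN k) (L k) (3 ^ aM (k + 1)) (5 ^ bN (k + 1)) (L (k + 1))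
  kap_big : ∀ k, 10 ^ 10 * 8 ^ (k + 1) * (3 ^ aM k * 5 ^ bN k) ^ 10 ≤ kap (k + 1)
  L_big : ∀ k, (kap (k + 1)) ^ 6 ≤ L (k + 1)
  lowM : ∀ k, (kap (k + 1)) ^ 2 * L (k + 1) ≤ 3 ^ aM (k + 1)
  lowN : ∀ k, (kap (k + 1)) ^ 2 * L (k + 1) ≤ 5 ^ bN (k + 1)
  upM : ∀ k, 3 ^ aM (k + 1) ≤ 3 * ((kap (k + 1)) ^ 2 * L (k + 1))
  upN : ∀ k, 5 ^ bN (k + 1) ≤ 5 * ((kap (k + 1)) ^ 2 * L (k + 1))

namespace Scales
variable (s : Scales)
def M (k : ℕ) : ℕ := 3 ^ s.aM k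
def N (k : ℕ) : ℕ := 5 ^ s.bN k
end Scales

/-- the level-`k` environment -/
def Scales.A (s : Scales) : ℕ → Set Pt
  | 0 => Set.univ
  | k + 1 => Scales.A s k \ hole (s.M (k + 1)) (s.N (k + 1)) (s.L (k + 1))

end Pool.Agent.R196.PP
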