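import Pool.Agent.R196.PP.Defs

/-!
The random environment of MP_68f671_pr: phases in `ℤ_[3] × ℤ_[5]` with Haar measure.
-/

namespace Pool.Agent.R196.PP

open MeasureTheory ProbabilityTheory Filter Topology
open scoped ENNReal BigOperators

instance fact3 : Fact (Nat.Prime 3) := ⟨by norm_num⟩
instance fact5 : Fact (Nat.Prime 5) := ⟨by norm_num⟩

noncomputable instance padicMS (p : ℕ) [Fact p.Prime] : MeasurableSpace ℤ_[p] := borel _
instance padicBS (p : ℕ) [Fact p.Prime] : BorelSpace ℤ_[p] := ⟨rfl⟩

/-- Haar probability measure on `ℤ_p` -/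
noncomputable def haarZ (p : ℕ) [Fact p.Prime] : Measure ℤ_[p] := Measure.addHaarMeasure ⊤

/-- the phase space -/
abbrev Ph : Type := ℤ_[3] × ℤ_[5]

/-- Haar probability measure on the phase space -/
noncomputable def muPh : Measure Ph := (haarZ 3).prod (haarZ 5)

/-- `z` is within `< L` of a multiple of `3^a` -/
def near3 (a L : ℕ) (z : ℤ_[3]) : Prop := ∃ i : ℤ, |i| < L ∧ PadicInt.toZModPow a z = (i : ZMod (3 ^ a))
/-- `z` is within `< L` of a multiple of `5^b` -/
def near5 (b L : ℕ) (z : ℤ_[5]) : Prop := ∃ i : ℤ, |i| < L ∧ PadicInt.toZModPow b z = (i : ZMod (5 ^ b))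

/-- The environment in `(p,q)`-coordinates seen from the origin, for the phase `u`. -/
def envB (s : Scales) (u : Ph) : Set Pt :=
  {v | ∀ k : ℕ, ¬ (near3 (s.aM (k + 1)) (s.L (k + 1)) (u.1 + (v.1 : ℤ_[3])) ∧
    near5 (s.bN (k + 1)) (s.L (k + 1)) (u.2 + (v.2 : ℤ_[5])))}

/-- the change of coordinates `(x,y) ↦ (x+y, x-y)` -/
def toPQ (x : Fin 2 → ℤ) : Pt := (x 0 + x 1, x 0 - x 1)

open Classical in
/-- the configuration with phase `u` -/
noncomputable def confOf (s : Scales) (u : Ph) : Conf 2 := fun x => decide (toPQ x ∈ envB s u)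

/-- the law of the random configuration -/
noncomputable def Qm (s : Scales) : Measure (Conf 2) := muPh.map (confOf s)

/-- the four directions in the order of `stp` -/
def dirs : Fin 4 → Fin 2 × Bool := ![(0, true), (1, true), (0, false), (1, false)]

/-- the chain of the configuration `ω` -/
noncomputable def nx4 (ω : Conf 2) (x : Fin 2 → ℤ) (e : Fin 4) : Fin 2 → ℤ := nextPt ω x (dirs e)

/-- phase class: integer representatives of the phase at level `k` -/
noncomputable def rep (s : Scales) (k : ℕ) (u : Ph) : Pt :=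
  ((PadicInt.toZModPow (s.aM k) u.1).val, (PadicInt.toZModPow (s.bN k) u.2).val)

end Pool.Agent.R196.PP
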