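import Pool.Agent.R196.PP.Asm8
import Pool.Agent.R152.PP.P1
import Pool.Agent.R983P.Hopf
import Pool.Agent.R102.PP.P3
import Pool.Agent.R152.PP.P4
import Pool.Agent.R196.PP.Geom
import Pool.Agent.R980.PP.P6
import Pool.Agent.R359.PP7.Main
import Pool.Agent.R102.PP.P8
import Pool.Agent.R325.PP.P10
import Pool.Agent.R273.PP11

/-! Final assembly for MP_68f671_pr. -/

namespace Pool.Agent.R196.PP

open MeasureTheory ProbabilityTheory Filter Topology
open scoped ENNReal BigOperators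

theorem P12_holds : P12 :=
  P12_of R152.PP.P1a_holds R152.PP.P1b_holds R152.PP.P1c_holds R152.PP.P1d_holds R152.PP.P1e_holds
    R152.PP.P1f_holds P3a_holds (R983P.P3c_holds P3a_holds)
    (R152.PP.P4a_holds P3a_holds P3b_holds P3d_holds) p5a_holds p5b_holds
    (P6a_holds P3a_holds P3b_holds (R152.PP.P4a_holds P3a_holds P3b_holds P3d_holds))
    (P6b_holds P3a_holds (R152.PP.P4b_holds P3a_holds P3d_holds) p5a_holds p5b_holds p5c_holds)
    (R359.PP7.P7_holds P3a_holds P3b_holds p5a_holds p5b_holds p5c_holds) R359.PP7.P7'_holds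

theorem main : ∃ Q : Measure (Conf 2), IsPointProcess 2 Q ∧
    (∃ e : Fin 2 × Bool,
      ∫⁻ ω, ((gap ω 0 e : ℕ) : ℝ≥0∞) ^ 2 ∂(ProbabilityTheory.cond Q (Om0 2)) = ∞) ∧
    SatisfiesCLT 2 Q := by
  obtain ⟨s⟩ := P8_holds
  have h9a := P9a_holds
  have h9b := P9b_holds
  have h10a := R325.PP.P10a_holds h9a h9b P9d_holds s
  have hprob : IsProbabilityMeasure (Qm s) := by
    have : IsProbabilityMeasure muPh := h9a
    exact Measure.isProbabilityMeasure_map (h9b s).aemeasurable
  refine ⟨Qm s, ⟨hprob, P9c_holds s, ?_⟩, ⟨(0, true),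
    R325.PP.P10b_holds h9a h9b P9c_holds P9d_holds s⟩, ?_⟩
  · have hm : MeasurableSet (Om0 2) := by
      have : Om0 2 = (fun ω : Conf 2 => ω 0) ⁻¹' {true} := by ext ω; simp [Om0]
      rw [this]
      exact (measurable_pi_apply (0 : Fin 2 → ℤ)) (MeasurableSet.singleton true)
    have hsub : {ω : Conf 2 | ∀ x, ω x = false} ⊆ (Om0 2)ᶜ := by
      intro ω hω h
      have h1 : ω 0 = true := h
      have h2 := hω 0
      rw [h1] at h2
      exact absurd h2 (by simp)
    refine lt_of_le_of_lt (measure_mono hsub) ?_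
    rw [prob_compl_eq_one_sub hm]
    exact ENNReal.sub_lt_self ENNReal.one_ne_top one_ne_zero h10a.ne'
  · obtain ⟨σ11, σ12, σ22, h1, h2⟩ := P12_holds s
    exact R273.PP11.P11c_holds h9b s σ11 σ12 σ22 h1 h2

end Pool.Agent.R196.PP
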