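import Pool.Agent.R196.PP.Defs

/-!
Statements of the independent pieces for MP_68f671_pr (as propositions); the proofs on paper are in
`notes.md` in this folder.
-/

namespace Pool.Agent.R196.PP

open MeasureTheory ProbabilityTheory Filter Topology
open scoped ENNReal BigOperators

/-! #### P1: abstract chains -/

/-- P1a: the characteristic function estimate. -/
def P1a : Prop :=
  ∀ {X : Type} (nx : X → Fin 4 → X) (S : Set X), (∀ x ∈ S, ∀ e, nx x e ∈ S) →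
  ∀ (c : X → Fin 4 → ℝ), (∀ x ∈ S, ∑ e, c x e = 0) →
  ∀ (G : ℝ), (∀ x ∈ S, ∀ e, |c x e| ≤ G) →
  ∀ (σ2 : ℝ), 0 ≤ σ2 →
  ∀ (h : X → ℝ) (H : ℝ), (∀ x ∈ S, |h x| ≤ H) →
  ∀ (Δ : X → ℝ), (∀ x ∈ S, |Vf c x - σ2 - (h x - PR nx h x)| ≤ Δ x) →
  ∀ (n : ℕ) (θ : ℝ), 0 ≤ θ → ∀ x ∈ S,
    ‖CF nx c θ n x - ((Real.exp (-(θ ^ 2 * σ2 / 2)) : ℝ) : ℂ) ^ n‖ ≤
      θ ^ 2 / 2 * SR nx Δ n x + 3 * θ ^ 2 / 2 * H + θ ^ 3 / 4 * H * (n + SR nx (Vf c) n x)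
        + θ ^ 3 * G / 6 * SR nx (Vf c) n x + n * θ ^ 4 * σ2 ^ 2 / 8

/-- P1b: the variance along the chain. -/
def P1b : Prop :=
  ∀ {X : Type} (nx : X → Fin 4 → X) (S : Set X), (∀ x ∈ S, ∀ e, nx x e ∈ S) →
  ∀ (V : X → ℝ) (σ2 : ℝ) (h : X → ℝ) (H : ℝ), (∀ x ∈ S, |h x| ≤ H) →
  ∀ (Δ : X → ℝ), (∀ x ∈ S, |V x - σ2 - (h x - PR nx h x)| ≤ Δ x) →
  ∀ (n : ℕ), ∀ x ∈ S, |SR nx V n x - n * σ2| ≤ SR nx Δ n x + 2 * H

/-- P1c: Kolmogorov's inequality for two martingales. -/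
def P1c : Prop :=
  ∀ {X : Type} (nx : X → Fin 4 → X) (S : Set X), (∀ x ∈ S, ∀ e, nx x e ∈ S) →
  ∀ (φ ψ : X → ℝ), (∀ x ∈ S, ∑ e, grad nx φ x e = 0) → (∀ x ∈ S, ∑ e, grad nx ψ x e = 0) →
  ∀ x0 ∈ S, ∀ (R : ℝ), 0 < R → ∀ n : ℕ,
    ExitP nx {x | |φ x - φ x0| ≤ R ∧ |ψ x - ψ x0| ≤ R} n x0 ≤
      (SR nx (Vf (grad nx φ)) n x0 + SR nx (Vf (grad nx ψ)) n x0) / R ^ 2

/-- P1d: coupling of two chains that agree on `B` (and stay in `S`). -/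
def P1d : Prop :=
  ∀ {X : Type} (nx nx' : X → Fin 4 → X) (B S : Set X), (∀ x ∈ S, ∀ e, nx x e ∈ S) →
  (∀ x ∈ S, x ∈ B → ∀ e, nx x e = nx' x e) →
  ∀ (F : X → ℂ) (C : ℝ), (∀ x, ‖F x‖ ≤ C) → ∀ (n : ℕ), ∀ x ∈ S,
    ‖EV nx F n x - EV nx' F n x‖ ≤ 2 * C * ExitP nx B n x

/-- P1e: characteristic functions of `φ(X_n)`. -/
def P1e : Prop :=
  ∀ {X : Type} (nx : X → Fin 4 → X) (φ : X → ℝ) (θ : ℝ) (n : ℕ) (x : X),
    EV nx (fun y => Complex.exp (Complex.I * ((θ * φ y : ℝ) : ℂ))) n x =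
      Complex.exp (Complex.I * ((θ * φ x : ℝ) : ℂ)) * CF nx (grad nx φ) θ n x

/-- P1f: comparison of `EV` for two functions that are close on `S`. -/
def P1f : Prop :=
  ∀ {X : Type} (nx : X → Fin 4 → X) (S : Set X), (∀ x ∈ S, ∀ e, nx x e ∈ S) →
  ∀ (F F' : X → ℂ) (ε : ℝ), (∀ x ∈ S, ‖F x - F' x‖ ≤ ε) → ∀ (n : ℕ), ∀ x ∈ S,
    ‖EV nx F n x - EV nx F' n x‖ ≤ ε

/-! #### P2: the maximal inequality on finite chains -/

/-- P2: Hopf's maximal inequality for a doubly stochastic finite chain. -/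
def P2 : Prop :=
  ∀ {X : Type} [Fintype X] (nx : X → Fin 4 → X), (∀ e, Function.Bijective (fun x => nx x e)) →
  ∀ (f : X → ℝ), (∀ x, 0 ≤ f x) → ∀ (lam : ℝ), 0 < lam →
    lam * Nat.card {x : X // ∃ n : ℕ, 1 ≤ n ∧ lam * n < SR nx f n x} ≤ ∑ x, f x

/-! #### P3: cell sums in the plane -/

/-- P3a: basic facts about `nb` for good environments (translations, reflection, inverse). -/
def P3a : Prop :=
  ∀ (M N Lm : ℕ) (A : Set Pt), GEnv M N Lm A →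
    (∀ v e, nb A v e ∈ A) ∧
    (∀ v e, ∃ k : ℕ, 1 ≤ k ∧ k ≤ 2 * Lm + 1 ∧ nb A v e = v + (k : ℤ) • stp e ∧ k = gp A v e) ∧
    (∀ (v : Pt) (e : Fin 4) (i j : ℤ), nb A (v.1 + i * M, v.2 + j * N) e =
      ((nb A v e).1 + i * M, (nb A v e).2 + j * N)) ∧
    (∀ (v : Pt) (e : Fin 4), nb A (-v) (e + 2) = -nb A v e) ∧
    (∀ v ∈ A, ∀ e, nb A (nb A v e) (e + 2) = v)

/-- P3b: each direction preserves cell sums. -/
def P3b : Prop :=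
  ∀ (M N Lm : ℕ) (A : Set Pt), GEnv M N Lm A → ∀ f : Pt → ℝ, Per M N f → ∀ e : Fin 4,
    csum M N A (fun v => f (nb A v e)) = csum M N A f

/-- P3c: the maximal inequality in the plane. -/
def P3c : Prop :=
  ∀ (M N Lm : ℕ) (A : Set Pt), GEnv M N Lm A → ∀ f : Pt → ℝ, Per M N f → (∀ v ∈ A, 0 ≤ f v) →
  ∀ lam : ℝ, 0 < lam →
    lam * Nat.card {v : Pt // v ∈ cell M N ∧ v ∈ A ∧
      ∃ n : ℕ, 1 ≤ n ∧ lam * n < SR (nb A) f n v} ≤ csum M N A f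

/-- P3d: every point of `A` is, modulo the periods, on the direction-0 orbit of every other. -/
def P3d : Prop :=
  ∀ (M N Lm : ℕ) (A : Set Pt), GEnv M N Lm A → ∀ v ∈ A, ∀ w ∈ A, ∃ (n : ℕ) (i j : ℤ),
    n < M * N ∧ (fun z => nb A z 0)^[n] v = (w.1 + i * M, w.2 + j * N) ∧
    (∀ m m' : ℕ, m < m' → m' < n → ∀ i' j' : ℤ, (fun z => nb A z 0)^[m] v ≠
      (((fun z => nb A z 0)^[m'] v).1 + i' * M, ((fun z => nb A z 0)^[m'] v).2 + j' * N))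

/-! #### P4: Poisson equation and maximum principle -/

/-- P4a: solvability of the Poisson equation with a bound. -/
def P4a : Prop :=
  ∀ (M N Lm : ℕ) (A : Set Pt), GEnv M N Lm A → ∀ (V : Pt → ℝ) (C : ℝ), Per M N V →
    csum M N A V = 0 → (∀ v ∈ A, |V v| ≤ C) →
    ∃ h : Pt → ℝ, Per M N h ∧ (∀ v ∈ A, h v - PR (nb A) h v = V v) ∧
      ∀ v ∈ A, |h v| ≤ 8 * C * (M * N) ^ 2

/-- P4b: maximum principle. -/
def P4b : Prop :=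
  ∀ (M N Lm : ℕ) (A : Set Pt), GEnv M N Lm A → ∀ (u : Pt → ℝ) (F : Set Pt), Per M N u →
    (∀ v ∈ A, v ∉ F → ∑ e, grad (nb A) u v e = 0) → (∃ v ∈ F, v ∈ A ∧
      ∀ i j : ℤ, ((v.1 + i * M, v.2 + j * N) : Pt) ∈ F) →
    ∃ v ∈ F, v ∈ A ∧ ∀ w ∈ A, u w ≤ u v

/-! #### P5: geometry of one step -/

/-- P5a: the next environment is good. -/
def P5a : Prop :=
  ∀ (M N Lm M' N' L' : ℕ) (A : Set Pt), GEnv M N Lm A → StepOK M N Lm M' N' L' →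
    GEnv M' N' L' (A \ hole M' N' L')

/-- P5b: neighbours off the frames do not change; frames and their outer neighbours. -/
def P5b : Prop :=
  ∀ (M N Lm M' N' L' : ℕ) (A : Set Pt), GEnv M N Lm A → StepOK M N Lm M' N' L' →
    (∀ v ∈ A \ hole M' N' L', v ∉ frame M' N' L' → ∀ e, nb (A \ hole M' N' L') v e = nb A v e) ∧
    frame M' N' L' ⊆ A \ hole M' N' L'

/-- P5c: explicit neighbours on the frame centred at the origin. -/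
def P5c : Prop :=
  ∀ (M N Lm M' N' L' : ℕ) (A : Set Pt), GEnv M N Lm A → StepOK M N Lm M' N' L' →
    ∀ v : Pt, max |v.1| |v.2| = (L' : ℤ) → ∀ e : Fin 4,
      (((stp e).1 * v.1 = L' ∨ (stp e).2 * v.2 = L') →
        nb (A \ hole M' N' L') v e = v + stp e ∧ nb A v e = v + stp e) ∧
      (((stp e).1 * v.1 = -L' ∧ |v.2| < L') →
        nb (A \ hole M' N' L') v e = (-((stp e).1 * (stp e).2 * v.2), (stp e).2 * L')) ∧
      (((stp e).2 * v.2 = -L' ∧ |v.1| < L') →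
        nb (A \ hole M' N' L') v e = ((stp e).1 * L', -((stp e).1 * (stp e).2 * v.1))) ∧
      (((stp e).1 * v.1 = -L' ∧ (stp e).2 * v.2 = -L') →
        nb (A \ hole M' N' L') v e = -v)

/-! #### P6: harmonic coordinates -/

/-- P6a: existence. -/
def P6a : Prop :=
  ∀ (M N Lm : ℕ) (A : Set Pt), GEnv M N Lm A → ∀ a b : ℝ, ∃ φ : Pt → ℝ, HC M N A a b φ

/-- P6b: the sup-norm step. -/
def P6b : Prop :=
  ∀ (M N Lm M' N' L' : ℕ) (A : Set Pt), GEnv M N Lm A → StepOK M N Lm M' N' L' →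
  ∀ (a b : ℝ) (φ φ' : Pt → ℝ), HC M N A a b φ → HC M' N' (A \ hole M' N' L') a b φ' →
  ∀ B : ℝ, (∀ v ∈ A, |φ v - (a * v.1 + b * v.2)| ≤ B) →
    ∀ v ∈ A \ hole M' N' L', |φ' v - φ v| ≤ 4 * ((|a| + |b|) * (L' + 1) + B)

/-! #### P7: energy comparison -/

/-- P7: the local variances at consecutive levels are close in the mean. -/
def P7 : Prop :=
  ∀ (M N Lm M' N' L' : ℕ) (A : Set Pt), GEnv M N Lm A → StepOK M N Lm M' N' L' →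
  ∀ (a b : ℝ) (φ φ' : Pt → ℝ), HC M N A a b φ → HC M' N' (A \ hole M' N' L') a b φ' →
    (∀ v ∈ A, |φ v - (a * v.1 + b * v.2)| ≤ 5 * Lm * (|a| + |b|)) →
    csum M' N' (A \ hole M' N' L') (fun v =>
      |Vf (grad (nb (A \ hole M' N' L')) φ') v - Vf (grad (nb A) φ) v|) ≤
      10 ^ 5 * (Lm + 1) ^ 2 * (|a| + |b|) ^ 2 * L' * √((M' : ℝ) * N')

/-- P7': number of frame points in a cell. -/
def P7' : Prop :=
  ∀ (M' N' L' : ℕ), 8 * L' + 5 ≤ M' → 8 * L' + 5 ≤ N' → 1 ≤ L' → ∀ A : Set Pt,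
    csum M' N' A (Set.indicator (frame M' N' L') (fun _ => (1 : ℝ))) ≤ 8 * L'

/-! #### P8: existence of the scales -/
def P8 : Prop := Nonempty Scales

end Pool.Agent.R196.PP
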