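import Pool.Agent.R196.PP.DefsM

/-!
Statements of the measure-theoretic pieces for MP_68f671_pr; proofs on paper in `notes.md`.
-/

namespace Pool.Agent.R196.PP

open MeasureTheory ProbabilityTheory Filter Topology
open scoped ENNReal BigOperators

/-! #### P9: measures -/

/-- P9a: the phase measure is a probability measure. -/
def P9a : Prop := IsProbabilityMeasure muPh

/-- P9b: the configuration map is measurable. -/
def P9b : Prop := ∀ s : Scales, Measurable (confOf s)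

/-- P9c: ergodicity of the shifts. -/
def P9c : Prop := ∀ (s : Scales) (i : Fin 2),
  Ergodic (shiftConf (Pi.single i 1 : Fin 2 → ℤ)) (Qm s)

/-- P9d: cylinder measures: a set of classes at level `(a,b)` given by points of the cell. -/
def P9d : Prop := ∀ (a b : ℕ) (E : Finset Pt), E ⊆ cell (3 ^ a) (5 ^ b) →
  muPh {u : Ph | (((PadicInt.toZModPow a u.1).val : ℤ), ((PadicInt.toZModPow b u.2).val : ℤ)) ∈ E}
    = (E.card : ℝ≥0∞) / ((3 ^ a * 5 ^ b : ℕ) : ℝ≥0∞)

/-- P9e: membership of `envB` through the level environments. -/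
def P9e : Prop := ∀ (s : Scales) (u : Ph) (v : Pt),
  v ∈ envB s u ↔ ∀ k, v + rep s k u ∈ s.A k

/-! #### P10: infinite second moment and nontriviality -/

/-- P10a: the origin is occupied with positive probability. -/
def P10a : Prop := ∀ s : Scales, 0 < Qm s (Om0 2)

/-- P10b: the second moment of the gap is infinite. -/
def P10b : Prop := ∀ s : Scales,
  ∫⁻ ω, ((gap ω 0 ((0 : Fin 2), true) : ℕ) : ℝ≥0∞) ^ 2 ∂(ProbabilityTheory.cond (Qm s) (Om0 2)) = ∞

/-! #### P11: bridge between the walk and the chains -/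

/-- P11a: the characteristic function of the scaled law. -/
def P11a : Prop := ∀ (ω : Conf 2) (n : ℕ) (t : EuclideanSpace ℝ (Fin 2)),
  charFun ((scaledLaw ω n : ProbabilityMeasure (EuclideanSpace ℝ (Fin 2))) :
      Measure (EuclideanSpace ℝ (Fin 2))) t =
    EV (nx4 ω) (fun x => Complex.exp (Complex.I *
      (((√(n : ℝ))⁻¹ * (t 0 * x 0 + t 1 * x 1) : ℝ) : ℂ))) n 0

/-- P11b: the change of coordinates. -/
def P11b : Prop := ∀ (s : Scales) (u : Ph) (F : Pt → ℂ) (n : ℕ) (x : Fin 2 → ℤ),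
  EV (nx4 (confOf s u)) (fun y => F (toPQ y)) n x = EV (nb (envB s u)) F n (toPQ x)

/-- P11c: Lévy: a.e. convergence of characteristic functions gives the CLT. -/
def P11c : Prop := ∀ (s : Scales) (σ11 σ12 σ22 : ℝ),
  (∀ a b : ℝ, 0 ≤ a ^ 2 * σ11 + 2 * a * b * σ12 + b ^ 2 * σ22) →
  (∀ᵐ u ∂muPh, (0 : Pt) ∈ envB s u → ∀ a b : ℝ,
    Tendsto (fun n : ℕ => EV (nb (envB s u)) (fun v => Complex.exp (Complex.I *
      (((√(n : ℝ))⁻¹ * (a * v.1 + b * v.2) : ℝ) : ℂ))) n 0) atTop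
      (𝓝 ((Real.exp (-(a ^ 2 * σ11 + 2 * a * b * σ12 + b ^ 2 * σ22) / 2) : ℝ) : ℂ))) →
  SatisfiesCLT 2 (Qm s)

/-! #### P12: the quenched estimate (assembly) -/

/-- P12: the quenched convergence of characteristic functions. -/
def P12 : Prop := ∀ s : Scales, ∃ σ11 σ12 σ22 : ℝ,
  (∀ a b : ℝ, 0 ≤ a ^ 2 * σ11 + 2 * a * b * σ12 + b ^ 2 * σ22) ∧
  (∀ᵐ u ∂muPh, (0 : Pt) ∈ envB s u → ∀ a b : ℝ,
    Tendsto (fun n : ℕ => EV (nb (envB s u)) (fun v => Complex.exp (Complex.I *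
      (((√(n : ℝ))⁻¹ * (a * v.1 + b * v.2) : ℝ) : ℂ))) n 0) atTop
      (𝓝 ((Real.exp (-(a ^ 2 * σ11 + 2 * a * b * σ12 + b ^ 2 * σ22) / 2) : ℝ) : ℂ)))

end Pool.Agent.R196.PP
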