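import Pool.Agent.R196.PP.Fin

/-! The limiting covariance is nondegenerate. -/

namespace Pool.Agent.R196.PP

open MeasureTheory ProbabilityTheory Filter Topology
open scoped ENNReal BigOperators

open Classical in
theorem csum_sq_le (M N : ℕ) (A : Set Pt) (f : Pt → ℝ) :
    (csum M N A f) ^ 2 ≤ cnt M N A * csum M N A (fun v => (f v) ^ 2) := by
  unfold cnt csum
  rw [Finset.sum_const, nsmul_eq_mul, mul_one]
  exact sq_sum_le_card_mul_sum_sq

namespace LData
variable {s : Scales} (d : LData s)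

theorem csum_grad (k : ℕ) (a b : ℝ) (e : Fin 4) :
    ((a * (stp e).1 + b * (stp e).2) ^ 2) * cnt (s.M k) (s.N k) (s.A k) ≤
      csum (s.M k) (s.N k) (s.A k) (fun v => (grad (nb (s.A k)) (d.Phi k a b) v e) ^ 2) := by
  have hG := lvl p5a_holds s k
  have hcp := cnt_pos hG
  obtain ⟨hmem, hstep, htr, -, -⟩ := P3a_holds _ _ _ _ hG
  set χ : Pt → ℝ := fun v => d.Phi k a b v - lin a b v with hχ
  have hPer : Per (s.M k) (s.N k) χ := by
    have hc := d.hcPhi k a b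
    constructor
    · intro v
      simp only [hχ, hc.trM, lin]; push_cast; ring
    · intro v
      simp only [hχ, hc.trN, lin]; push_cast; ring
  have hinv := P3b_holds _ _ _ _ hG χ hPer e
  have hgp : ∀ v, lin a b (nb (s.A k) v e) - lin a b v
      = (a * (stp e).1 + b * (stp e).2) * (gp (s.A k) v e : ℝ) := by
    intro v
    have e1 : (((gp (s.A k) v e : ℤ) • stp e).1 : ℝ) = (gp (s.A k) v e : ℝ) * ((stp e).1 : ℝ) := by
      simp [Prod.smul_fst]
    have e2 : (((gp (s.A k) v e : ℤ) • stp e).2 : ℝ) = (gp (s.A k) v e : ℝ) * ((stp e).2 : ℝ) := by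
      simp [Prod.smul_snd]
    simp only [nb, lin, Prod.fst_add, Prod.snd_add]
    push_cast
    rw [e1, e2]
    ring
  have hsum : csum (s.M k) (s.N k) (s.A k) (fun v => grad (nb (s.A k)) (d.Phi k a b) v e)
      = (a * (stp e).1 + b * (stp e).2)
        * csum (s.M k) (s.N k) (s.A k) (fun v => (gp (s.A k) v e : ℝ)) := by
    have e3 : csum (s.M k) (s.N k) (s.A k) (fun v => grad (nb (s.A k)) (d.Phi k a b) v e)
      = csum (s.M k) (s.N k) (s.A k) (fun v => (a * (stp e).1 + b * (stp e).2) * (gp (s.A k) v e : ℝ))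
        + csum (s.M k) (s.N k) (s.A k) (fun v => χ (nb (s.A k) v e))
        + (-1) * csum (s.M k) (s.N k) (s.A k) χ := by
      rw [← csum_smul, ← csum_add, ← csum_add]
      refine csum_congr fun v _ => ?_
      have := hgp v
      simp only [grad, hχ]
      linarith
    rw [e3, hinv, csum_smul]; ring
  have hge : cnt (s.M k) (s.N k) (s.A k)
      ≤ csum (s.M k) (s.N k) (s.A k) (fun v => (gp (s.A k) v e : ℝ)) := by
    refine csum_mono fun v _ => ?_
    obtain ⟨m, h1, -, -, h4⟩ := hstep v e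
    rw [← h4]; exact_mod_cast h1
  have hcs := csum_sq_le (s.M k) (s.N k) (s.A k) (fun v => grad (nb (s.A k)) (d.Phi k a b) v e)
  rw [hsum] at hcs
  set c := cnt (s.M k) (s.N k) (s.A k) with hc
  set g := csum (s.M k) (s.N k) (s.A k) (fun v => (gp (s.A k) v e : ℝ)) with hg
  set ℓ := a * ((stp e).1 : ℝ) + b * ((stp e).2 : ℝ) with hℓ
  set S := csum (s.M k) (s.N k) (s.A k) (fun v => (grad (nb (s.A k)) (d.Phi k a b) v e) ^ 2) with hS
  have h1 : (ℓ ^ 2 * c) * c ≤ S * c := by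
    have h2 : c ^ 2 ≤ g ^ 2 := pow_le_pow_left₀ hcp.le hge 2
    have h3 : ℓ ^ 2 * c ^ 2 ≤ ℓ ^ 2 * g ^ 2 := mul_le_mul_of_nonneg_left h2 (sq_nonneg _)
    have h4 : (ℓ * g) ^ 2 = ℓ ^ 2 * g ^ 2 := by ring
    rw [h4] at hcs
    linarith
  exact le_of_mul_le_mul_right h1 hcp

theorem sig_lower (k : ℕ) (a b : ℝ) : a ^ 2 + b ^ 2 ≤ d.sig k a b := by
  have hG := lvl p5a_holds s k
  have hcp := cnt_pos hG
  unfold sig mean
  rw [le_div_iff₀ hcp]
  have e1 : csum (s.M k) (s.N k) (s.A k) (d.V k a b)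
      = (1 / 4) * ((csum (s.M k) (s.N k) (s.A k) (fun v => (grad (nb (s.A k)) (d.Phi k a b) v 0) ^ 2)
        + csum (s.M k) (s.N k) (s.A k) (fun v => (grad (nb (s.A k)) (d.Phi k a b) v 1) ^ 2)
        + csum (s.M k) (s.N k) (s.A k) (fun v => (grad (nb (s.A k)) (d.Phi k a b) v 2) ^ 2))
        + csum (s.M k) (s.N k) (s.A k) (fun v => (grad (nb (s.A k)) (d.Phi k a b) v 3) ^ 2)) := by
    rw [← csum_add, ← csum_add, ← csum_add, ← csum_smul]
    refine csum_congr fun v _ => ?_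
    simp only [V, Vf, Fin.sum_univ_four]
  have h0 := d.csum_grad k a b 0
  have h1 := d.csum_grad k a b 1
  have h2 := d.csum_grad k a b 2
  have h3 := d.csum_grad k a b 3
  have s0 : (stp 0) = (1, 1) := rfl
  have s1 : (stp 1) = (1, -1) := rfl
  have s2 : (stp 2) = (-1, -1) := rfl
  have s3 : (stp 3) = (-1, 1) := rfl
  rw [s0] at h0
  rw [s1] at h1
  rw [s2] at h2
  rw [s3] at h3
  push_cast at h0 h1 h2 h3
  rw [e1]
  nlinarith

end LData

/-- the quenched convergence with a nondegenerate limit -/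
theorem P12s (s : Scales) : ∃ σ11 σ12 σ22 : ℝ,
    (∀ a b : ℝ, a ^ 2 + b ^ 2 ≤ a ^ 2 * σ11 + 2 * a * b * σ12 + b ^ 2 * σ22) ∧
    (∀ᵐ u ∂muPh, (0 : Pt) ∈ envB s u → ∀ a b : ℝ,
    Tendsto (fun n : ℕ => EV (nb (envB s u)) (fun v => Complex.exp (Complex.I *
      (((√(n : ℝ))⁻¹ * (a * v.1 + b * v.2) : ℝ) : ℂ))) n 0) atTop
      (𝓝 ((Real.exp (-(a ^ 2 * σ11 + 2 * a * b * σ12 + b ^ 2 * σ22) / 2) : ℝ) : ℂ))) := by
  have h1b : P1b := R152.PP.P1b_holds
  have h3a : P3a := P3a_holds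
  have h4a : P4a := R152.PP.P4a_holds P3a_holds P3b_holds P3d_holds
  have h4b : P4b := R152.PP.P4b_holds P3a_holds P3d_holds
  have h5a : P5a := p5a_holds
  have h5b : P5b := p5b_holds
  have h6a : P6a := P6a_holds P3a_holds P3b_holds h4a
  have h6b : P6b := P6b_holds P3a_holds h4b p5a_holds p5b_holds p5c_holds
  obtain ⟨d⟩ := exists_LData h5a h6a h6b s
  obtain ⟨hd⟩ := exists_HData h3a h5a h4a s d
  have hae := ae_good hd h3a (R983P.P3c_holds P3a_holds) h5a
    (R359.PP7.P7_holds P3a_holds P3b_holds p5a_holds p5b_holds p5c_holds) R359.PP7.P7'_holds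
  by_cases hex : ∃ u, EG hd u
  · obtain ⟨u0, hu0⟩ := hex
    obtain ⟨ℓ1, hℓ1⟩ := sig_lim hd h1b h3a h5a h5b u0 hu0 1 0
    obtain ⟨ℓ2, hℓ2⟩ := sig_lim hd h1b h3a h5a h5b u0 hu0 0 1
    obtain ⟨ℓ3, hℓ3⟩ := sig_lim hd h1b h3a h5a h5b u0 hu0 1 1
    have hgen : ∀ a b : ℝ, Tendsto (fun k => d.sig k a b) atTop
        (𝓝 (a ^ 2 * ℓ1 + 2 * a * b * ((ℓ3 - ℓ1 - ℓ2) / 2) + b ^ 2 * ℓ2)) := by
      intro a b
      have h := ((hℓ1.const_mul (a ^ 2 - a * b)).add (hℓ2.const_mul (b ^ 2 - a * b))).add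
        (hℓ3.const_mul (a * b))
      have e : (a ^ 2 - a * b) * ℓ1 + (b ^ 2 - a * b) * ℓ2 + a * b * ℓ3
        = a ^ 2 * ℓ1 + 2 * a * b * ((ℓ3 - ℓ1 - ℓ2) / 2) + b ^ 2 * ℓ2 := by ring
      rw [e] at h
      exact h.congr fun k => (d.sig_bilin k a b).symm
    refine ⟨ℓ1, (ℓ3 - ℓ1 - ℓ2) / 2, ℓ2, fun a b => ?_, ?_⟩
    · exact ge_of_tendsto' (hgen a b) fun k => d.sig_lower k a b
    · filter_upwards [hae] with u hu h0 a b
      exact cf_tendsto hd R152.PP.P1a_holds h1b R152.PP.P1c_holds R152.PP.P1d_holds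
        R152.PP.P1e_holds R152.PP.P1f_holds h3a h5a h5b u ⟨hu, h0⟩ a b _ ℓ1 ℓ2 (hgen a b)
        hℓ1 hℓ2
  · refine ⟨1, 0, 1, fun a b => by nlinarith, ?_⟩
    filter_upwards [hae] with u hu h0
    exact absurd ⟨u, hu, h0⟩ hex

open R273.PP11 in
/-- CLT with the explicit covariance matrix `covD` (proof of P11c by helper273). -/
theorem clt_explicit (s : Scales) (σ11 σ12 σ22 : ℝ)
    (hpos : ∀ a b : ℝ, 0 ≤ a ^ 2 * σ11 + 2 * a * b * σ12 + b ^ 2 * σ22)
    (hconv : ∀ᵐ u ∂muPh, (0 : Pt) ∈ envB s u → ∀ a b : ℝ,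
    Tendsto (fun n : ℕ => EV (nb (envB s u)) (fun v => Complex.exp (Complex.I *
      (((√(n : ℝ))⁻¹ * (a * v.1 + b * v.2) : ℝ) : ℂ))) n 0) atTop
      (𝓝 ((Real.exp (-(a ^ 2 * σ11 + 2 * a * b * σ12 + b ^ 2 * σ22) / 2) : ℝ) : ℂ))) :
    ∀ᵐ ω ∂(ProbabilityTheory.cond (Qm s) (Om0 2)),
      Tendsto (fun n : ℕ => scaledLaw ω n) atTop
        (𝓝 (⟨multivariateGaussian 0 (covD σ11 σ12 σ22), inferInstance⟩ :
          ProbabilityMeasure (EuclideanSpace ℝ (Fin 2)))) := by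
  set γ : ProbabilityMeasure (EuclideanSpace ℝ (Fin 2)) :=
    ⟨multivariateGaussian 0 (covD σ11 σ12 σ22), inferInstance⟩ with hγ
  have hm := P9b_holds s
  have hmeas0 : MeasurableSet (Om0 2) := measurable_coord 0 true
  have key : ∀ᵐ ω ∂(Qm s), ω ∈ Om0 2 → Tendsto (fun n : ℕ => scaledLaw ω n) atTop (𝓝 γ) := by
    unfold Qm
    rw [ae_map_iff hm.aemeasurable]
    · filter_upwards [hconv] with u hu h0
      have h0' : (0 : Pt) ∈ envB s u := by
        have : confOf s u 0 = true := h0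
        simp only [confOf, decide_eq_true_eq] at this
        have hz : toPQ 0 = 0 := by simp [toPQ]
        rwa [hz] at this
      have hu' := hu h0'
      rw [ProbabilityMeasure.tendsto_iff_tendsto_charFun]
      intro t
      have h1 := hu' ((t 0 + t 1) / 2) ((t 0 - t 1) / 2)
      have h2 : charFun ((γ : ProbabilityMeasure (EuclideanSpace ℝ (Fin 2))) :
          Measure (EuclideanSpace ℝ (Fin 2))) t =
          ((Real.exp (-(((t 0 + t 1) / 2) ^ 2 * σ11 + 2 * ((t 0 + t 1) / 2) * ((t 0 - t 1) / 2) * σ12 +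
            ((t 0 - t 1) / 2) ^ 2 * σ22) / 2) : ℝ) : ℂ) := by
        have : ((γ : ProbabilityMeasure (EuclideanSpace ℝ (Fin 2))) :
          Measure (EuclideanSpace ℝ (Fin 2))) = multivariateGaussian 0 (covD σ11 σ12 σ22) := rfl
        rw [this, charFun_multivariateGaussian (covD_posSemidef _ _ _ hpos), covD_quad]
        rw [inner_zero_right]
        push_cast
        congr 1
        ring
      rw [h2]
      refine h1.congr fun n => ?_
      rw [P11a_holds (confOf s u) n t]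
      have h3 := P11b_holds s u (fun v => Complex.exp (Complex.I *
        (((√(n : ℝ))⁻¹ * ((t 0 + t 1) / 2 * v.1 + (t 0 - t 1) / 2 * v.2) : ℝ) : ℂ))) n 0
      have hz : toPQ 0 = 0 := by simp [toPQ]
      rw [hz] at h3
      rw [← h3]
      congr 1
      funext x
      congr 3
      simp only [toPQ]
      push_cast
      ring
    · have : {ω : Conf 2 | ω ∈ Om0 2 → Tendsto (fun n : ℕ => scaledLaw ω n) atTop (𝓝 γ)} =
          (Om0 2)ᶜ ∪ {ω : Conf 2 | Tendsto (fun n : ℕ => scaledLaw ω n) atTop (𝓝 γ)} := by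
        ext ω
        simp only [Set.mem_ofPred_eq, Set.mem_union, Set.mem_compl_iff]
        tauto
      rw [this]
      exact hmeas0.compl.union (measurableSet_tendsto_scaledLaw γ)
  unfold ProbabilityTheory.cond
  exact Measure.ae_smul_measure ((ae_restrict_iff' hmeas0).2 key) _

open R273.PP11 in
theorem covD_posDef (σ11 σ12 σ22 : ℝ)
    (h : ∀ a b : ℝ, a ^ 2 + b ^ 2 ≤ a ^ 2 * σ11 + 2 * a * b * σ12 + b ^ 2 * σ22) :
    (covD σ11 σ12 σ22).PosDef := by
  refine Matrix.PosDef.of_dotProduct_mulVec_pos ?_ ?_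
  · ext i j
    fin_cases i <;> fin_cases j <;> simp [covD]
  · intro t ht
    have h1 := h ((t 0 + t 1) / 2) ((t 0 - t 1) / 2)
    rw [show star t = t from by ext; simp, covD_quad]
    have h2 : 0 < (t 0) ^ 2 + (t 1) ^ 2 := by
      by_contra hc
      have h3 : t 0 = 0 := by nlinarith [sq_nonneg (t 0), sq_nonneg (t 1)]
      have h4 : t 1 = 0 := by nlinarith [sq_nonneg (t 0), sq_nonneg (t 1)]
      apply ht
      funext i
      fin_cases i
      · exact h3
      · exact h4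
    nlinarith

theorem main2 : ∃ Q : Measure (Conf 2), IsPointProcess 2 Q ∧
    (∃ e : Fin 2 × Bool,
      ∫⁻ ω, ((gap ω 0 e : ℕ) : ℝ≥0∞) ^ 2 ∂(ProbabilityTheory.cond Q (Om0 2)) = ∞) ∧
    ∃ D : Matrix (Fin 2) (Fin 2) ℝ, D.PosDef ∧
      ∀ᵐ ω ∂(ProbabilityTheory.cond Q (Om0 2)),
        Tendsto (fun n : ℕ => scaledLaw ω n) atTop
          (𝓝 (⟨multivariateGaussian 0 D, inferInstance⟩ :
            ProbabilityMeasure (EuclideanSpace ℝ (Fin 2)))) := by
  obtain ⟨s⟩ := P8_holds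
  have h9a := P9a_holds
  have h9b := P9b_holds
  have h10a := R325.PP.P10a_holds h9a h9b P9d_holds s
  have hprob : IsProbabilityMeasure (Qm s) := by
    have : IsProbabilityMeasure muPh := h9a
    exact Measure.isProbabilityMeasure_map (h9b s).aemeasurable
  refine ⟨Qm s, ⟨hprob, P9c_holds s, ?_⟩, ⟨(0, true),
    R325.PP.P10b_holds h9a h9b P9c_holds P9d_holds s⟩, ?_⟩
  · have hm : MeasurableSet (Om0 2) := by
      have : Om0 2 = (fun ω : Conf 2 => ω 0) ⁻¹' {true} := by ext ω; simp [Om0]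
      rw [this]
      exact (measurable_pi_apply (0 : Fin 2 → ℤ)) (MeasurableSet.singleton true)
    have hsub : {ω : Conf 2 | ∀ x, ω x = false} ⊆ (Om0 2)ᶜ := by
      intro ω hω h
      have h1 : ω 0 = true := h
      have h2 := hω 0
      rw [h1] at h2
      exact absurd h2 (by simp)
    refine lt_of_le_of_lt (measure_mono hsub) ?_
    rw [prob_compl_eq_one_sub hm]
    exact ENNReal.sub_lt_self ENNReal.one_ne_top one_ne_zero h10a.ne'
  · obtain ⟨σ11, σ12, σ22, h1, h2⟩ := P12s s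
    exact ⟨R273.PP11.covD σ11 σ12 σ22, covD_posDef _ _ _ h1, clt_explicit s σ11 σ12 σ22
      (fun a b => le_trans (by positivity) (h1 a b)) h2⟩

end Pool.Agent.R196.PP
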