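import Mathlib

/-!
Definitions for MP_68f671_pr (random walks on discrete point processes), as in the problem file.
-/

namespace Pool.Agent.R196.PP

open MeasureTheory ProbabilityTheory Filter Topology
open scoped ENNReal

/-- Configurations `ω ∈ {0,1}^{ℤ^d}` (`true` = point present), with the product σ-algebra. -/
abbrev Conf (d : ℕ) : Type := (Fin d → ℤ) → Bool

/-- The shift `(θ_x ω)(y) = ω(x+y)`. -/
def shiftConf {d : ℕ} (x : Fin d → ℤ) (ω : Conf d) : Conf d := fun y => ω (x + y)

/-- The direction `e_i` (for `(i,true)`) or `-e_i` (for `(i,false)`). -/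
def dirVec {d : ℕ} (e : Fin d × Bool) : Fin d → ℤ :=
  if e.2 then Pi.single e.1 1 else -Pi.single e.1 1

/-- `gap ω v e = f_e(θ_v ω) = min {k ≥ 1 : ω(v + k e) = 1}`. -/
noncomputable def gap {d : ℕ} (ω : Conf d) (v : Fin d → ℤ) (e : Fin d × Bool) : ℕ :=
  sInf {k : ℕ | 1 ≤ k ∧ ω (v + (k : ℤ) • dirVec e) = true}

/-- The nearest point `v + f_e(θ_v ω) e` in direction `e`. -/
noncomputable def nextPt {d : ℕ} (ω : Conf d) (v : Fin d → ℤ) (e : Fin d × Bool) : Fin d → ℤ :=
  v + (gap ω v e : ℤ) • dirVec e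

/-- The law after `n` steps of the walk on the point process `ω` started at `v`: each step goes to
each of the `2d` coordinate nearest points with probability `1/(2d)`. -/
noncomputable def walkLaw {d : ℕ} [NeZero d] (ω : Conf d) : ℕ → (Fin d → ℤ) → PMF (Fin d → ℤ)
  | 0, v => PMF.pure v
  | n + 1, v => (PMF.uniformOfFintype (Fin d × Bool)).bind fun e => walkLaw ω n (nextPt ω v e)

/-- The rescaling `x ↦ x/√n` into Euclidean space. -/
noncomputable def rescale (d n : ℕ) (x : Fin d → ℤ) : EuclideanSpace ℝ (Fin d) :=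
  (√(n : ℝ))⁻¹ • (WithLp.toLp 2 (fun i => (x i : ℝ)))

/-- The law of `X_n/√n` under `P_ω` (walk started at the origin). -/
noncomputable def scaledLaw {d : ℕ} [NeZero d] (ω : Conf d) (n : ℕ) :
    ProbabilityMeasure (EuclideanSpace ℝ (Fin d)) :=
  ⟨((walkLaw ω n 0).toMeasure).map (rescale d n),
    Measure.isProbabilityMeasure_map (Measurable.of_discrete (f := rescale d n)).aemeasurable⟩

/-- The configurations with a point at the origin. -/
def Om0 (d : ℕ) : Set (Conf d) := {ω | ω 0 = true}

/-- `Q` is a measure as in the problem: a probability measure on configurations, stationary and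
ergodic under each `θ_{e_i}`, with `Q(ω ≡ 0) < 1`. -/
structure IsPointProcess (d : ℕ) (Q : Measure (Conf d)) : Prop where
  prob : IsProbabilityMeasure Q
  ergodic : ∀ i : Fin d, Ergodic (shiftConf (Pi.single i 1 : Fin d → ℤ)) Q
  nontrivial : Q {ω | ∀ x, ω x = false} < 1

/-- The walk satisfies a CLT: there is a deterministic covariance matrix `D` such that for
`P`-a.e. `ω` (where `P = Q(· | ω(0)=1)`), `X_n/√n` converges in distribution to `N(0,D)`. -/
def SatisfiesCLT (d : ℕ) [NeZero d] (Q : Measure (Conf d)) : Prop :=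
  ∃ D : Matrix (Fin d) (Fin d) ℝ, D.PosSemidef ∧
    ∀ᵐ ω ∂(ProbabilityTheory.cond Q (Om0 d)),
      Tendsto (fun n : ℕ => scaledLaw ω n) atTop
        (𝓝 (⟨multivariateGaussian 0 D, inferInstance⟩ :
          ProbabilityMeasure (EuclideanSpace ℝ (Fin d))))

end Pool.Agent.R196.PP
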